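import Pool.Agent.TH235.PP.Spec

set_option autoImplicit false
set_option linter.unusedSectionVars false

open scoped BigOperators Matrix InnerProductSpace
open Finset

namespace Pool.Agent.TH235.PP

variable {n : Type*} [Fintype n] [DecidableEq n]

lemma ip_self_one (ψ : n → ℂ) (hψ : normSq ψ = 1) : ip ψ ψ = 1 := by
  have hψn : ‖(WithLp.toLp 2 ψ : EuclideanSpace ℂ n)‖ = 1 := by
    have h1 := nr_sq ψ
    rw [hψ] at h1
    have h2 := nr_nonneg ψ
    have h3 : nr ψ = 1 := by nlinarith only [h1, h2]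
    exact h3
  rw [ip_eq, inner_self_eq_norm_sq_to_K, hψn]
  simp

lemma ip_smul_right (ψ φ : n → ℂ) (c : ℂ) : ip ψ (c • φ) = c * ip ψ φ := by
  rw [ip_eq, WithLp.toLp_smul, inner_smul_right, ← ip_eq]

lemma ip_smul_left (ψ φ : n → ℂ) (c : ℂ) : ip (c • ψ) φ = (starRingEnd ℂ) c * ip ψ φ := by
  rw [ip_eq, WithLp.toLp_smul, inner_smul_left, ← ip_eq]

/-- Energy controls the overlap with the ground state of a gapped Hermitian matrix. -/
theorem gap_ineq (A : Matrix n n ℂ) (hA : A.IsHermitian) (Δ : ℝ) (hΔ : 0 < Δ) (ψ : n → ℂ)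
    (hψ : normSq ψ = 1) (hgr : IsGappedGround A Δ ψ) (x : n → ℂ) :
    (ip ψ (A *ᵥ ψ)).re * normSq x + Δ * (normSq x - ‖ip ψ x‖ ^ 2) ≤ (ip x (A *ᵥ x)).re := by
  obtain ⟨E, hE, hsimple, hgap⟩ := hgr
  have hEE : (ip ψ (A *ᵥ ψ)).re = E := by
    rw [hE, ip_smul_right, ip_self_one ψ hψ, mul_one, Complex.ofReal_re]
  rw [hEE]
  set b := hA.eigenvectorBasis with hb
  set lam := hA.eigenvalues with hlam
  have hAb : ∀ j, A *ᵥ (b j).ofLp = (lam j : ℂ) • (b j).ofLp := by
    intro j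
    have := hA.mulVec_eigenvectorBasis j
    rw [this]
    rfl
  have hbne : ∀ j, (b j).ofLp ≠ 0 := by
    intro j h0
    have h1 : b j = 0 := by
      have : b j = WithLp.toLp 2 ((b j).ofLp) := rfl
      rw [this, h0]; rfl
    have h2 := b.norm_eq_one j
    rw [h1, norm_zero] at h2
    exact zero_ne_one h2
  have hlE : ∀ j, lam j = E ∨ E + Δ ≤ lam j := fun j => hgap (lam j) _ (hbne j) (hAb j)
  set T := Matrix.toEuclideanLin A with hT
  set X : EuclideanSpace ℂ n := WithLp.toLp 2 x with hX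
  have hTb : ∀ j, T (b j) = (lam j : ℂ) • b j := by
    intro j
    have : T (b j) = WithLp.toLp 2 (A *ᵥ (b j).ofLp) := rfl
    rw [this, hAb j, WithLp.toLp_smul]
  have hsum : T X = ∑ j, (⟪b j, X⟫_ℂ * (lam j : ℂ)) • b j := by
    conv_lhs => rw [← b.sum_repr' X]
    rw [map_sum]
    refine Finset.sum_congr rfl fun j _ => ?_
    rw [map_smul, hTb, smul_smul]
  have hin : ∀ i, ⟪b i, T X⟫_ℂ = ⟪b i, X⟫_ℂ * (lam i : ℂ) := by
    intro i
    rw [hsum]
    exact b.orthonormal.inner_right_fintype _ i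
  have hen : (ip x (A *ᵥ x)).re = ∑ i, lam i * ‖⟪b i, X⟫_ℂ‖ ^ 2 := by
    have h1 : ip x (A *ᵥ x) = ⟪X, T X⟫_ℂ := by
      rw [ip_eq]; rfl
    rw [h1, ← b.sum_inner_mul_inner X (T X), Complex.re_sum]
    refine Finset.sum_congr rfl fun i _ => ?_
    rw [hin, ← mul_assoc, ← inner_conj_symm X (b i), ← Complex.normSq_eq_conj_mul_self,
      ← Complex.ofReal_mul, Complex.ofReal_re, Complex.normSq_eq_norm_sq, mul_comm]
  have hnx : normSq x = ∑ i, ‖⟪b i, X⟫_ℂ‖ ^ 2 := by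
    rw [← nr_sq]
    exact (b.sum_sq_norm_inner_right X).symm
  have key : -(Δ * ‖ip ψ x‖ ^ 2) ≤ ∑ i, (lam i - E - Δ) * ‖⟪b i, X⟫_ℂ‖ ^ 2 := by
    by_cases hex : ∃ i0, lam i0 = E
    · obtain ⟨i0, hi0⟩ := hex
      obtain ⟨c, hc⟩ := hsimple _ (by have := hAb i0; rw [hi0] at this; exact this)
      have hψn : ‖(WithLp.toLp 2 ψ : EuclideanSpace ℂ n)‖ = 1 := by
        have h1 := nr_sq ψ
        rw [hψ] at h1
        have h2 := nr_nonneg ψ
        have h3 : nr ψ = 1 := by nlinarith only [h1, h2]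
        exact h3
      have hbc : b i0 = c • (WithLp.toLp 2 ψ : EuclideanSpace ℂ n) := by
        have : b i0 = WithLp.toLp 2 ((b i0).ofLp) := rfl
        rw [this, hc, WithLp.toLp_smul]
      have hcn : ‖c‖ = 1 := by
        have h1 := b.norm_eq_one i0
        rw [hbc, norm_smul, hψn, mul_one] at h1
        exact h1
      have hother : ∀ i, i ≠ i0 → E + Δ ≤ lam i := by
        intro i hi
        refine (hlE i).resolve_left fun hiE => ?_
        obtain ⟨c', hc'⟩ := hsimple _ (by have := hAb i; rw [hiE] at this; exact this)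
        have hbc' : b i = c' • (WithLp.toLp 2 ψ : EuclideanSpace ℂ n) := by
          have : b i = WithLp.toLp 2 ((b i).ofLp) := rfl
          rw [this, hc', WithLp.toLp_smul]
        have hc'n : ‖c'‖ = 1 := by
          have h1 := b.norm_eq_one i
          rw [hbc', norm_smul, hψn, mul_one] at h1
          exact h1
        have horth : ⟪b i, b i0⟫_ℂ = 0 := b.orthonormal.2 hi
        rw [hbc, hbc', inner_smul_left, inner_smul_right, inner_self_eq_norm_sq_to_K, hψn] at horth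
        have h2 : ‖(starRingEnd ℂ) c' * (c * ((1 : ℝ) : ℂ) ^ 2)‖ = 0 := by
          rw [norm_eq_zero]; exact horth
        rw [norm_mul, norm_mul, RCLike.norm_conj, hcn, hc'n] at h2
        simp at h2
      have hi0n : ‖⟪b i0, X⟫_ℂ‖ = ‖ip ψ x‖ := by
        rw [hbc, inner_smul_left, norm_mul, RCLike.norm_conj, hcn, one_mul, ip_eq]
      rw [← Finset.add_sum_erase _ _ (mem_univ i0), hi0, hi0n]
      have h3 : 0 ≤ ∑ i ∈ univ.erase i0, (lam i - E - Δ) * ‖⟪b i, X⟫_ℂ‖ ^ 2 := by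
        refine Finset.sum_nonneg fun i hi => ?_
        have := hother i (Finset.ne_of_mem_erase hi)
        exact mul_nonneg (by linarith) (by positivity)
      linarith
    · push Not at hex
      have h3 : 0 ≤ ∑ i, (lam i - E - Δ) * ‖⟪b i, X⟫_ℂ‖ ^ 2 := by
        refine Finset.sum_nonneg fun i _ => ?_
        have := (hlE i).resolve_left (hex i)
        exact mul_nonneg (by linarith) (by positivity)
      have h4 : 0 ≤ Δ * ‖ip ψ x‖ ^ 2 := by positivity
      linarith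
  have e1 : ∑ i, (lam i - E - Δ) * ‖⟪b i, X⟫_ℂ‖ ^ 2 =
      (ip x (A *ᵥ x)).re - E * normSq x - Δ * normSq x := by
    rw [hen, hnx, Finset.mul_sum, Finset.mul_sum, ← Finset.sum_sub_distrib,
      ← Finset.sum_sub_distrib]
    exact Finset.sum_congr rfl fun i _ => by ring
  rw [e1] at key
  linarith

open scoped Matrix.Norms.L2Operator in
/-- The energy of a vector near the ground state. -/
theorem ener_upper (A : Matrix n n ℂ) (hA : A.IsHermitian) (Δ : ℝ) (ψ : n → ℂ)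
    (hψ : normSq ψ = 1) (hgr : IsGappedGround A Δ ψ) (x : n → ℂ) :
    (ip x (A *ᵥ x)).re ≤ (ip ψ (A *ᵥ ψ)).re * normSq x + 2 * ‖A‖ * normSq (x - ψ) := by
  obtain ⟨E, hE, -, -⟩ := hgr
  have hψn : nr ψ = 1 := by
    have h1 := nr_sq ψ
    rw [hψ] at h1
    have h2 := nr_nonneg ψ
    nlinarith only [h1, h2]
  have hEE : (ip ψ (A *ᵥ ψ)).re = E := by
    rw [hE, ip_smul_right, ip_self_one ψ hψ, mul_one, Complex.ofReal_re]
  have hEA : |E| ≤ ‖A‖ := by
    have h1 := nr_mulVec A ψ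
    rw [hE, nr_smul, hψn, mul_one, mul_one, Complex.norm_real, Real.norm_eq_abs] at h1
    exact h1
  rw [hEE]
  set B : Matrix n n ℂ := A - (E : ℂ) • (1 : Matrix n n ℂ) with hB
  have hBψ : B *ᵥ ψ = 0 := by
    rw [hB, Matrix.sub_mulVec, Matrix.smul_mulVec, Matrix.one_mulVec, hE, sub_self]
  have hBh : B.IsHermitian := by
    rw [hB]
    refine hA.sub ?_
    unfold Matrix.IsHermitian
    rw [Matrix.conjTranspose_smul, Matrix.conjTranspose_one]
    simp
  have hBx : B *ᵥ x = B *ᵥ (x - ψ) := by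
    rw [Matrix.mulVec_sub, hBψ, sub_zero]
  have hsym : ∀ u v : n → ℂ, ip u (B *ᵥ v) = ip (B *ᵥ u) v := by
    intro u v
    have e1 : ∀ u v : n → ℂ, ip u v = star u ⬝ᵥ v := fun u v => rfl
    rw [e1, e1, Matrix.star_mulVec, hBh.eq, Matrix.dotProduct_mulVec]
  have h1 : ip x (B *ᵥ x) = ip (x - ψ) (B *ᵥ (x - ψ)) := by
    rw [hBx, hsym x, hBx, ← hsym]
  have h2 : ip x (A *ᵥ x) = ip x (B *ᵥ x) + (E : ℂ) * ip x x := by
    have : A *ᵥ x = B *ᵥ x + (E : ℂ) • x := by
      rw [hB, Matrix.sub_mulVec, Matrix.smul_mulVec, Matrix.one_mulVec]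
      abel
    rw [this, ← ip_smul_right, ip_eq, ip_eq, ip_eq, WithLp.toLp_add, inner_add_right]
  have h3 : ip x x = ((normSq x : ℝ) : ℂ) := by
    rw [ip_eq, inner_self_eq_norm_sq_to_K, ← nr_sq]
    unfold nr
    push_cast
    rfl
  have h4 : ‖ip (x - ψ) (B *ᵥ (x - ψ))‖ ≤ 2 * ‖A‖ * normSq (x - ψ) := by
    have h5 : ‖ip (x - ψ) (B *ᵥ (x - ψ))‖ ≤ nr (x - ψ) * nr (B *ᵥ (x - ψ)) := by
      rw [ip_eq]
      exact norm_inner_le_norm _ _
    have h6 := nr_mulVec B (x - ψ)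
    have hne : Nonempty n := by
      by_contra hcon
      rw [not_nonempty_iff] at hcon
      unfold normSq at hψ
      rw [Finset.univ_eq_empty, Finset.sum_empty] at hψ
      exact zero_ne_one hψ
    have h7 : ‖B‖ ≤ 2 * ‖A‖ := by
      rw [hB]
      refine (norm_sub_le _ _).trans ?_
      rw [norm_smul, Complex.norm_real, Real.norm_eq_abs, norm_one, mul_one]
      linarith
    rw [← nr_sq]
    have h8 := nr_nonneg (x - ψ)
    calc _ ≤ nr (x - ψ) * nr (B *ᵥ (x - ψ)) := h5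
      _ ≤ nr (x - ψ) * (2 * ‖A‖ * nr (x - ψ)) :=
          mul_le_mul_of_nonneg_left (h6.trans (mul_le_mul_of_nonneg_right h7 h8)) h8
      _ = _ := by ring
  rw [h2, h3, h1, Complex.add_re, ← Complex.ofReal_mul, Complex.ofReal_re]
  have h9 := (Complex.abs_re_le_norm (ip (x - ψ) (B *ᵥ (x - ψ)))).trans h4
  have h10 := le_abs_self (ip (x - ψ) (B *ᵥ (x - ψ))).re
  linarith

end Pool.Agent.TH235.PP
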