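import Pool.Agent.TH235.PP.TN

set_option autoImplicit false
set_option linter.unusedSectionVars false

open scoped BigOperators
open Finset

namespace Pool.Agent.TH235.PP

section asm

variable {d R' L : ℕ} [NeZero L]

open Classical in
/-- extension of a window to the torus -/
noncomputable def ext {Λ : Type*} [Nonempty Λ] (v : Site L)
    (w : Fin (R' + 1) × Fin (R' + 1) → Λ) : Site L → Λ := fun u =>
  if hx : ∃ x : Fin (R' + 1) × Fin (R' + 1), sh u x = v then w hx.choose else Classical.arbitrary Λ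

lemma ext_win {Λ : Type*} [Nonempty Λ] (g : Site L → Λ) (v u : Site L)
    (hx : ∃ x : Fin (R' + 1) × Fin (R' + 1), sh u x = v) :
    ext v (win (R' := R') g v) u = g u := by
  unfold ext
  rw [dif_pos hx]
  have h := hx.choose_spec
  generalize hx.choose = x at h ⊢
  subst h
  unfold win sh
  simp

lemma sum_pair {V K W : Type*} [Fintype V] [DecidableEq V] [Fintype K] [Fintype W]
    (F : (V → K × W) → ℂ) :
    ∑ H : V → K × W, F H = ∑ h : V → K, ∑ w : V → W, F (fun v => (h v, w v)) := by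
  rw [← Fintype.sum_prod_type']
  refine Fintype.sum_equiv (Equiv.arrowProdEquivProdArrow V (fun _ => K) (fun _ => W)) _ _ ?_
  intro H
  rfl

open Classical in
lemma peps_core {Λ : Type*} [Fintype Λ] {K : Type*} [Fintype K]
    (f : Site L → Fin d → (Fin (R' + 1) × Fin (R' + 1) → Λ) → K → K → K → K → ℂ) :
    contract (fun (v : Site L) (a' : Fin d) (l r' dn up : K × (Fin (R' + 1) × Fin (R' + 1) → Λ)) =>
      if r'.2 = up.2 ∧ consL l.2 r'.2 ∧ consD dn.2 r'.2 then
        f v a' r'.2 l.1 r'.1 dn.1 up.1 else 0) =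
    fun s => ∑ g : Site L → Λ, ∑ h0 : Site L → K, ∑ v0 : Site L → K,
        ∏ v : Site L, f v (s v) (win g v) (h0 (v.1 - 1, v.2)) (h0 v) (v0 (v.1, v.2 - 1)) (v0 v) := by
  funext s
  unfold contract
  rw [sum_pair]
  simp only [sum_pair]
  have hP : ∀ (h0 v0 : Site L → K)
      (wx wy : Site L → (Fin (R' + 1) × Fin (R' + 1) → Λ)),
      (∏ v : Site L, (if wx v = wy v ∧ consL (wx (v.1 - 1, v.2)) (wx v) ∧
          consD (wy (v.1, v.2 - 1)) (wx v) then
        f v (s v) (wx v) (h0 (v.1 - 1, v.2)) (h0 v) (v0 (v.1, v.2 - 1)) (v0 v) else 0)) =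
      if (∀ v : Site L, wx v = wy v ∧ consL (wx (v.1 - 1, v.2)) (wx v) ∧
          consD (wy (v.1, v.2 - 1)) (wx v)) then
        ∏ v : Site L, f v (s v) (wx v) (h0 (v.1 - 1, v.2)) (h0 v) (v0 (v.1, v.2 - 1)) (v0 v)
      else 0 := by
    intro h0 v0 wx wy
    split_ifs with hc
    · exact Finset.prod_congr rfl fun v _ => if_pos (hc v)
    · push Not at hc
      obtain ⟨v, hv⟩ := hc
      apply Finset.prod_eq_zero (mem_univ v)
      rw [if_neg]
      rintro ⟨k1, k2, k3⟩
      exact hv k1 k2 k3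
  have hR : ∀ (h0 v0 : Site L → K), ∑ wx : Site L → (Fin (R' + 1) × Fin (R' + 1) → Λ),
      ∑ wy : Site L → (Fin (R' + 1) × Fin (R' + 1) → Λ),
      (∏ v : Site L, (if wx v = wy v ∧ consL (wx (v.1 - 1, v.2)) (wx v) ∧
          consD (wy (v.1, v.2 - 1)) (wx v) then
        f v (s v) (wx v) (h0 (v.1 - 1, v.2)) (h0 v) (v0 (v.1, v.2 - 1)) (v0 v) else 0)) =
      ∑ g : Site L → Λ,
        ∏ v : Site L, f v (s v) (win g v) (h0 (v.1 - 1, v.2)) (h0 v) (v0 (v.1, v.2 - 1)) (v0 v) := by
    intro h0 v0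
    simp only [hP]
    exact sum_cons (fun wx => ∏ v : Site L, f v (s v) (wx v) (h0 (v.1 - 1, v.2)) (h0 v)
      (v0 (v.1, v.2 - 1)) (v0 v))
  have hL : ∑ g : Site L → Λ, ∑ h0 : Site L → K, ∑ v0 : Site L → K,
        ∏ v : Site L, f v (s v) (win g v) (h0 (v.1 - 1, v.2)) (h0 v) (v0 (v.1, v.2 - 1)) (v0 v)
      = ∑ h0 : Site L → K, ∑ v0 : Site L → K, ∑ g : Site L → Λ,
        ∏ v : Site L, f v (s v) (win g v) (h0 (v.1 - 1, v.2)) (h0 v) (v0 (v.1, v.2 - 1)) (v0 v) := by
    rw [Finset.sum_comm]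
    refine Finset.sum_congr rfl fun h0 _ => ?_
    rw [Finset.sum_comm]
  rw [hL]
  refine Finset.sum_congr rfl fun h0 _ => ?_
  rw [Finset.sum_comm]
  refine Finset.sum_congr rfl fun v0 _ => ?_
  exact hR h0 v0

/-- The truncated expansion maps tensor network vectors to tensor network vectors. -/
lemma peps_apply {K : Type*} [Fintype K] (A0 : Site L → Fin d → K → K → K → K → ℂ) (c : ℂ)
    (h : BoxOp d (R' + 1)) {N : ℕ} (e : Fin N ≃ Site L) (M r : ℕ) :
    ∃ A : Site L → Fin d → (K × (Fin (R' + 1) × Fin (R' + 1) → Lab d (R' + 1) M r)) →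
      (K × (Fin (R' + 1) × Fin (R' + 1) → Lab d (R' + 1) M r)) →
      (K × (Fin (R' + 1) × Fin (R' + 1) → Lab d (R' + 1) M r)) →
      (K × (Fin (R' + 1) × Fin (R' + 1) → Lab d (R' + 1) M r)) → ℂ,
      (KT M (fun b => c • term h (e b)) r).mulVec (contract A0) = contract A := by
  classical
  set f : Site L → Fin d → (Fin (R' + 1) × Fin (R' + 1) → Lab d (R' + 1) M r) →
      K → K → K → K → ℂ := fun v a' w l r' dn up =>
    wgt c h (w (0, 0)) * ∑ a, Ov e (ext v w) v a' a * A0 v a l r' dn up with hf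
  refine ⟨_, Eq.trans ?_ (peps_core f).symm⟩
  funext s
  -- the left-hand side
  have hfw : ∀ (g : Site L → Lab d (R' + 1) M r) (v : Site L) (a' : Fin d) (l r' dn up : K),
      f v a' (win g v) l r' dn up =
        wgt c h (g v) * ∑ a, Ov e g v a' a * A0 v a l r' dn up := by
    intro g v a' l r' dn up
    simp only [hf]
    rw [win_zero]
    have : Ov e (ext v (win (R' := R') g v)) v = Ov e g v := by
      apply Ov_congr
      intro u x hx
      exact ext_win g v u ⟨x, hx⟩
    rw [this]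
  rw [KT_eq]
  unfold Matrix.mulVec dotProduct
  simp only [Matrix.sum_apply, Matrix.smul_apply, smul_eq_mul, Finset.sum_mul]
  rw [Finset.sum_comm]
  refine Finset.sum_congr rfl fun g _ => ?_
  unfold contract
  simp only [Finset.mul_sum]
  rw [Finset.sum_comm]
  refine Finset.sum_congr rfl fun h0 _ => ?_
  rw [Finset.sum_comm]
  refine Finset.sum_congr rfl fun v0 _ => ?_
  simp only [hfw]
  rw [Finset.prod_mul_distrib, Finset.prod_univ_sum, Fintype.piFinset_univ, Finset.mul_sum]
  refine Finset.sum_congr rfl fun x _ => ?_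
  unfold tp
  rw [Finset.prod_mul_distrib]
  ring

end asm

section peps

variable {d L : ℕ} [NeZero L]

lemma isPEPS_contract {K : Type*} [Fintype K] (A : Site L → Fin d → K → K → K → K → ℂ) :
    IsPEPS (Fintype.card K) (contract A) := by
  classical
  set e := Fintype.equivFin K with he
  refine ⟨fun x a l r dn up => A x a (e.symm l) (e.symm r) (e.symm dn) (e.symm up), ?_⟩
  funext s
  unfold contract
  refine Fintype.sum_equiv (Equiv.arrowCongr (Equiv.refl _) e) _ _ fun h => ?_
  refine Fintype.sum_equiv (Equiv.arrowCongr (Equiv.refl _) e) _ _ fun v => ?_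
  refine Finset.prod_congr rfl fun x _ => ?_
  simp [Equiv.arrowCongr]

lemma IsPEPS.smul {D : ℕ} {ψ : (Site L → Fin d) → ℂ} (h : IsPEPS D ψ) (c : ℂ) :
    IsPEPS D (c • ψ) := by
  classical
  obtain ⟨A, rfl⟩ := h
  refine ⟨fun x a l r dn up => (if x = 0 then c else 1) * A x a l r dn up, ?_⟩
  funext s
  unfold contract
  simp only [Pi.smul_apply, smul_eq_mul, Finset.mul_sum]
  refine Finset.sum_congr rfl fun h _ => Finset.sum_congr rfl fun v _ => ?_
  rw [Finset.prod_mul_distrib]
  congr 1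
  rw [Finset.prod_ite_eq']
  simp

lemma card_lab (R M r : ℕ) : Fintype.card (Lab d R M r) ≤ (M * Fintype.card (Lm d R) + 1) ^ r := by
  classical
  have key : ∀ φ : Lab d R M r, ∃ G : Fin r → Option (Fin M × Lm d R),
      ∀ t l, φ.1 t = some l ↔ ∃ i, G i = some (t, l) := by
    intro φ
    set s := univ.filter fun t => (φ.1 t).isSome = true with hs
    have hcard : s.card ≤ r := φ.2
    set e := s.equivFin with he
    refine ⟨fun i => if hi : i.1 < s.card then
      (φ.1 (e.symm ⟨i.1, hi⟩).1).map (fun l => ((e.symm ⟨i.1, hi⟩).1, l)) else none, ?_⟩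
    intro t l
    constructor
    · intro htl
      have hts : t ∈ s := by rw [hs, mem_filter]; exact ⟨mem_univ _, by rw [htl]; rfl⟩
      refine ⟨⟨(e ⟨t, hts⟩).1, lt_of_lt_of_le (e ⟨t, hts⟩).2 hcard⟩, ?_⟩
      beta_reduce
      rw [dif_pos (e ⟨t, hts⟩).2]
      simp [htl]
    · rintro ⟨i, hi⟩
      beta_reduce at hi
      split_ifs at hi with hlt
      rw [Option.map_eq_some_iff] at hi
      obtain ⟨l', h1, h2⟩ := hi
      rw [Prod.mk.injEq] at h2
      rw [← h2.1, h1, h2.2]
  choose G hG using key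
  have hinj : Function.Injective G := by
    intro φ φ' hφ
    apply Subtype.ext
    funext t
    apply Option.ext
    intro l
    rw [hG φ t l, hG φ' t l, hφ]
  have := Fintype.card_le_of_injective G hinj
  simpa using this

end peps

end Pool.Agent.TH235.PP
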