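import Mathlib

set_option autoImplicit false

open scoped BigOperators
open Finset

namespace Pool.Agent.TH235.PP

/-- Sites of the `L × L` torus. -/
abbrev Site (L : ℕ) : Type := ZMod L × ZMod L

/-- Contraction of a tensor network on the `L × L` torus with virtual index set `K`; `A x` is the
tensor at the site `x`, its arguments are the physical index and the left, right, lower and upper
virtual indices. The index of the edge to the right of `x` is `h x`, that of the edge above `x` is
`v x`. -/
def contract {K : Type*} [Fintype K] {d L : ℕ} [NeZero L]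
    (A : Site L → Fin d → K → K → K → K → ℂ) : (Site L → Fin d) → ℂ := fun s =>
  ∑ h : Site L → K, ∑ v : Site L → K,
    ∏ x : Site L, A x (s x) (h (x.1 - 1, x.2)) (h x) (v (x.1, x.2 - 1)) (v x)

/-- The vector `ψ` is (exactly) a PEPS of bond dimension `D` on the `L × L` torus. The tensors may
differ from site to site. -/
def IsPEPS {d L : ℕ} [NeZero L] (D : ℕ) (ψ : (Site L → Fin d) → ℂ) : Prop :=
  ∃ A : Site L → Fin d → Fin D → Fin D → Fin D → Fin D → ℂ, ψ = contract A

/-- The site `u + x`. -/
def sh {R L : ℕ} (u : Site L) (x : Fin R × Fin R) : Site L :=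
  (u.1 + ((x.1 : ℕ) : ZMod L), u.2 + ((x.2 : ℕ) : ZMod L))

/-- Operators on the `R × R` box. -/
abbrev BoxOp (d R : ℕ) : Type := Matrix (Fin R × Fin R → Fin d) (Fin R × Fin R → Fin d) ℂ

/-- Operators on the torus. -/
abbrev TorOp (d L : ℕ) : Type := Matrix (Site L → Fin d) (Site L → Fin d) ℂ

open Classical in
/-- The translate by `u` of the interaction `h` (acting on the sites `u + x`). -/
noncomputable def term {d R : ℕ} (h : BoxOp d R) {L : ℕ} (u : Site L) : TorOp d L := fun s t =>
  if ∀ v, (∀ x : Fin R × Fin R, sh u x ≠ v) → s v = t v then h (fun x => s (sh u x)) (fun x => t (sh u x)) else 0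

/-- The Hamiltonian on the `L × L` torus: the sum of all translates of `h`. -/
noncomputable def ham {d R : ℕ} (h : BoxOp d R) (L : ℕ) [NeZero L] : TorOp d L :=
  ∑ u : Site L, term h u

/-- the tensor product of one-site operators -/
def tp {V : Type*} [Fintype V] {d : ℕ} (a : V → Matrix (Fin d) (Fin d) ℂ) :
    Matrix (V → Fin d) (V → Fin d) ℂ := fun s t => ∏ v, a v (s v) (t v)

open Classical in
/-- matrix unit on the box at `u`, identity elsewhere -/
noncomputable def loc {d R L : ℕ} (u : Site L) (p q : Fin R × Fin R → Fin d) (v : Site L) :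
    Matrix (Fin d) (Fin d) ℂ := fun a b =>
  if (∀ x : Fin R × Fin R, sh u x = v → a = p x ∧ b = q x) ∧ ((∀ x : Fin R × Fin R, sh u x ≠ v) → a = b) then 1 else 0

lemma tp_loc {d R L : ℕ} [NeZero L] (u : Site L) (p q : Fin R × Fin R → Fin d)
    (s t : Site L → Fin d) [Decidable ((∀ x, s (sh u x) = p x ∧ t (sh u x) = q x) ∧
      ∀ v, (∀ x : Fin R × Fin R, sh u x ≠ v) → s v = t v)] :
    tp (loc u p q) s t = if (∀ x, s (sh u x) = p x ∧ t (sh u x) = q x) ∧
      (∀ v, (∀ x : Fin R × Fin R, sh u x ≠ v) → s v = t v) then 1 else 0 := by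
  classical
  unfold tp loc
  split_ifs with hc
  · apply Finset.prod_eq_one
    intro v _
    rw [if_pos]
    refine ⟨?_, fun hv => hc.2 v hv⟩
    intro x hx
    rw [← hx]
    exact hc.1 x
  · have : ∃ v, ¬ ((∀ x : Fin R × Fin R, sh u x = v → s v = p x ∧ t v = q x) ∧ ((∀ x : Fin R × Fin R, sh u x ≠ v) → s v = t v)) := by
      by_contra hall
      push Not at hall
      apply hc
      exact ⟨fun x => (hall (sh u x)).1 x rfl, fun v hv => (hall v).2 hv⟩
    obtain ⟨v, hv⟩ := this
    apply Finset.prod_eq_zero (mem_univ v)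
    rw [if_neg hv]

lemma term_eq {d R L : ℕ} [NeZero L] (h : BoxOp d R) (u : Site L) :
    term h u = ∑ pq : (Fin R × Fin R → Fin d) × (Fin R × Fin R → Fin d),
      h pq.1 pq.2 • tp (loc u pq.1 pq.2) := by
  classical
  ext s t
  rw [Matrix.sum_apply]
  simp only [Matrix.smul_apply, tp_loc, smul_eq_mul]
  rw [Finset.sum_eq_single ((fun x => s (sh u x)), (fun x => t (sh u x)))]
  · unfold term
    by_cases hc : ∀ v, (∀ x : Fin R × Fin R, sh u x ≠ v) → s v = t v
    · rw [if_pos hc, if_pos ⟨fun x => ⟨rfl, rfl⟩, hc⟩, mul_one]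
    · rw [if_neg hc, if_neg (fun hh => hc hh.2), mul_zero]
  · intro pq _ hne
    rw [if_neg, mul_zero]
    intro hh
    apply hne
    ext x
    · exact congrArg Fin.val (hh.1 x).1.symm
    · exact congrArg Fin.val (hh.1 x).2.symm
  · intro hh
    exact absurd (mem_univ _) hh

lemma loc_out {d R L : ℕ} (u : Site L) (p q : Fin R × Fin R → Fin d) (v : Site L)
    (hv : ∀ x : Fin R × Fin R, sh u x ≠ v) : loc u p q v = 1 := by
  classical
  ext a b
  unfold loc
  rw [Matrix.one_apply]
  by_cases hab : a = b
  · rw [if_pos hab, if_pos ⟨fun x hx => absurd hx (hv x), fun _ => hab⟩]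
  · rw [if_neg hab, if_neg (fun hh => hab (hh.2 hv))]

open scoped Matrix.Norms.L2Operator in
lemma norm_tp_loc {d R L : ℕ} [NeZero L] (u : Site L) (p q : Fin R × Fin R → Fin d) :
    ‖tp (loc (d := d) u p q)‖ ≤ 1 := by
  classical
  set A : TorOp d L := tp (loc u p q) with hA
  set dg : (Site L → Fin d) → ℂ := fun t =>
    if (∀ x, t (sh u x) = q x) ∧ (∃ s, A s t = 1) then 1 else 0 with hdg
  have hA1 : ∀ s t, A s t = if (∀ x, s (sh u x) = p x ∧ t (sh u x) = q x) ∧
      (∀ v, (∀ x : Fin R × Fin R, sh u x ≠ v) → s v = t v) then 1 else 0 := fun s t => tp_loc u p q s t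
  have hA2 : A.conjTranspose * A = Matrix.diagonal dg := by
    ext t t'
    rw [Matrix.mul_apply]
    simp only [Matrix.conjTranspose_apply]
    by_cases htt : t = t'
    · subst htt
      rw [Matrix.diagonal_apply_eq]
      by_cases hex : ∃ s, A s t = 1
      · obtain ⟨s, hs⟩ := hex
        have hs' := hs
        rw [hA1] at hs'
        have hs2 : (∀ x, s (sh u x) = p x ∧ t (sh u x) = q x) ∧
            (∀ v, (∀ x : Fin R × Fin R, sh u x ≠ v) → s v = t v) := by
          by_contra hne
          rw [if_neg hne] at hs'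
          exact zero_ne_one hs'
        rw [Finset.sum_eq_single s]
        · rw [hs, hdg]
          simp only [star_one, mul_one]
          rw [if_pos ⟨fun x => (hs2.1 x).2, ⟨s, hs⟩⟩]
        · intro s' _ hne
          rw [hA1 s' t, if_neg, mul_zero]
          rintro ⟨k1, k2⟩
          apply hne
          funext v
          by_cases hv : ∃ x : Fin R × Fin R, sh u x = v
          · obtain ⟨x, hx⟩ := hv
            rw [← hx, (k1 x).1, (hs2.1 x).1]
          · push Not at hv
            rw [k2 v hv, hs2.2 v hv]
        · intro hh; exact absurd (mem_univ _) hh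
      · rw [hdg]
        simp only []
        rw [if_neg (fun hh => hex hh.2)]
        apply Finset.sum_eq_zero
        intro s _
        have : A s t = 0 := by
          rw [hA1]
          rw [if_neg]
          intro hh
          apply hex
          refine ⟨s, ?_⟩
          rw [hA1, if_pos hh]
        rw [this, mul_zero]
    · rw [Matrix.diagonal_apply_ne _ htt]
      apply Finset.sum_eq_zero
      intro s _
      rw [hA1 s t, hA1 s t']
      by_cases h1 : (∀ x, s (sh u x) = p x ∧ t (sh u x) = q x) ∧
          (∀ v, (∀ x : Fin R × Fin R, sh u x ≠ v) → s v = t v)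
      · by_cases h2 : (∀ x, s (sh u x) = p x ∧ t' (sh u x) = q x) ∧
            (∀ v, (∀ x : Fin R × Fin R, sh u x ≠ v) → s v = t' v)
        · exfalso
          apply htt
          funext v
          by_cases hv : ∃ x : Fin R × Fin R, sh u x = v
          · obtain ⟨x, hx⟩ := hv
            rw [← hx, (h1.1 x).2, (h2.1 x).2]
          · push Not at hv
            rw [← h1.2 v hv, h2.2 v hv]
        · rw [if_neg h2, mul_zero]
      · rw [if_neg h1]; simp
  have h3 : ‖A‖ * ‖A‖ ≤ 1 := by
    rw [← Matrix.l2_opNorm_conjTranspose_mul_self, hA2, Matrix.l2_opNorm_diagonal]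
    rw [pi_norm_le_iff_of_nonneg zero_le_one]
    intro t
    rw [hdg]
    simp only []
    split_ifs <;> simp
  nlinarith [norm_nonneg A]

end Pool.Agent.TH235.PP
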