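import Mathlib

set_option autoImplicit false

open scoped BigOperators
open Finset

namespace Pool.Agent.TH235.PP

section ring

variable {R : Type*} [Ring R]

/-- ordered product over `Fin n` -/
def op {n : ℕ} (z : Fin n → R) : R := (List.ofFn z).prod

/-- ordered double product -/
def pr {M N : ℕ} (z : Fin M → Fin N → R) : R := op fun t => op fun b => z t b

lemma op_zero (z : Fin 0 → R) : op z = 1 := by simp [op]

lemma op_succ {n : ℕ} (z : Fin (n + 1) → R) : op z = z 0 * op (fun i => z i.succ) := by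
  simp [op, List.ofFn_succ]

lemma op_const {n : ℕ} (x : R) : op (fun _ : Fin n => x) = x ^ n := by
  simp [op]

lemma op_eq_zero {n : ℕ} (z : Fin n → R) (i : Fin n) (h : z i = 0) : op z = 0 := by
  unfold op
  apply List.prod_eq_zero
  rw [List.mem_ofFn]
  exact ⟨i, h⟩

lemma pr_eq_zero {M N : ℕ} (z : Fin M → Fin N → R) (t : Fin M) (b : Fin N) (h : z t b = 0) :
    pr z = 0 := op_eq_zero _ t (op_eq_zero _ b h)

lemma op_sum {n : ℕ} {Λ : Type*} [Fintype Λ] (z : Fin n → Λ → R) :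
    op (fun i => ∑ x, z i x) = ∑ F : Fin n → Λ, op (fun i => z i (F i)) := by
  induction n with
  | zero => simp [op_zero]
  | succ n ih =>
    rw [op_succ, ih, ← (Fin.consEquiv fun _ : Fin (n + 1) => Λ).sum_comp, Fintype.sum_prod_type,
      Finset.sum_mul]
    refine Finset.sum_congr rfl fun a _ => ?_
    rw [Finset.mul_sum]
    refine Finset.sum_congr rfl fun F _ => ?_
    rw [op_succ]
    simp [Fin.consEquiv]

lemma pr_sum {M N : ℕ} {Λ : Type*} [Fintype Λ] (z : Fin M → Fin N → Λ → R) :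
    pr (fun t b => ∑ x, z t b x) = ∑ F : Fin M → Fin N → Λ, pr (fun t b => z t b (F t b)) := by
  unfold pr
  rw [← op_sum (fun t (f : Fin N → Λ) => op fun b => z t b (f b))]
  congr 1
  funext t
  exact op_sum _

lemma op_map {S : Type*} [Ring S] (f : R →+* S) {n : ℕ} (z : Fin n → R) :
    f (op z) = op (fun i => f (z i)) := by
  unfold op
  rw [map_list_prod, List.map_ofFn]
  rfl

end ring

section alg

variable {R : Type*} [Ring R] [Algebra ℂ R]

lemma op_smul {n : ℕ} (c : Fin n → ℂ) (z : Fin n → R) :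
    op (fun i => c i • z i) = (∏ i, c i) • op z := by
  induction n with
  | zero => simp [op_zero]
  | succ n ih =>
    rw [op_succ, op_succ, ih, Fin.prod_univ_succ]
    rw [smul_mul_smul_comm]

lemma pr_smul {M N : ℕ} (c : Fin M → Fin N → ℂ) (z : Fin M → Fin N → R) :
    pr (fun t b => c t b • z t b) = (∏ t, ∏ b, c t b) • pr z := by
  unfold pr
  rw [← op_smul]
  congr 1
  funext t
  exact op_smul _ _

end alg

section norm

variable {R : Type*} [NormedRing R] [NormOneClass R]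

lemma norm_op_le {n : ℕ} (z : Fin n → R) (w : Fin n → ℝ) (h : ∀ i, ‖z i‖ ≤ w i) :
    ‖op z‖ ≤ ∏ i, w i := by
  induction n with
  | zero => simp [op_zero]
  | succ n ih =>
    rw [op_succ, Fin.prod_univ_succ]
    refine (norm_mul_le _ _).trans ?_
    exact mul_le_mul (h 0) (ih _ _ fun i => h i.succ) (norm_nonneg _) ((norm_nonneg _).trans (h 0))

/-- first order expansion of an ordered product -/
lemma norm_op_sub {n : ℕ} (z : Fin n → R) (y : ℝ) (h : ∀ i, ‖z i‖ ≤ y) (hy : 0 ≤ y) :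
    ‖op (fun i => 1 + z i) - 1‖ ≤ (1 + y) ^ n - 1 ∧
      ‖op (fun i => 1 + z i) - (1 + ∑ i, z i)‖ ≤ (1 + y) ^ n - 1 - n * y := by
  induction n with
  | zero => simp [op_zero]
  | succ n ih =>
    obtain ⟨h1, h2⟩ := ih (fun i => z i.succ) (fun i => h i.succ)
    rw [op_succ, Fin.sum_univ_succ]
    set P := op (fun i : Fin n => 1 + z i.succ) with hP
    constructor
    · have e : (1 + z 0) * P - 1 = (P - 1) + z 0 * (P - 1) + z 0 := by noncomm_ring
      rw [e]
      calc ‖(P - 1) + z 0 * (P - 1) + z 0‖ ≤ ‖P - 1‖ + ‖z 0‖ * ‖P - 1‖ + ‖z 0‖ := by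
            refine (norm_add_le _ _).trans ?_
            refine add_le_add ((norm_add_le _ _).trans ?_) le_rfl
            exact add_le_add le_rfl (norm_mul_le _ _)
        _ ≤ ((1 + y) ^ n - 1) + y * ((1 + y) ^ n - 1) + y := by
            refine add_le_add (add_le_add h1 ?_) (h 0)
            exact mul_le_mul (h 0) h1 (norm_nonneg _) hy
        _ = (1 + y) ^ (n + 1) - 1 := by ring
    · have e : (1 + z 0) * P - (1 + (z 0 + ∑ i : Fin n, z i.succ)) =
          (P - (1 + ∑ i : Fin n, z i.succ)) + z 0 * (P - 1) := by noncomm_ring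
      rw [e]
      calc ‖(P - (1 + ∑ i : Fin n, z i.succ)) + z 0 * (P - 1)‖
          ≤ ‖P - (1 + ∑ i : Fin n, z i.succ)‖ + ‖z 0‖ * ‖P - 1‖ :=
            (norm_add_le _ _).trans (add_le_add le_rfl (norm_mul_le _ _))
        _ ≤ ((1 + y) ^ n - 1 - n * y) + y * ((1 + y) ^ n - 1) := by
            refine add_le_add h2 ?_
            exact mul_le_mul (h 0) h1 (norm_nonneg _) hy
        _ = (1 + y) ^ (n + 1) - 1 - ((n + 1 : ℕ) : ℝ) * y := by push_cast; ring

/-- perturbation of a power -/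
lemma norm_pow_sub (G D : R) (g k : ℝ) (hG : ‖G‖ ≤ g) (hD : ‖D‖ ≤ k) (M : ℕ) :
    ‖(G + D) ^ M - G ^ M‖ ≤ (g + k) ^ M - g ^ M := by
  have hg : 0 ≤ g := (norm_nonneg _).trans hG
  have hk : 0 ≤ k := (norm_nonneg _).trans hD
  induction M with
  | zero => simp
  | succ M ih =>
    have e : (G + D) ^ (M + 1) - G ^ (M + 1) = (G + D) * ((G + D) ^ M - G ^ M) + D * G ^ M := by
      rw [pow_succ', pow_succ']; noncomm_ring
    rw [e]
    have h1 : ‖G ^ M‖ ≤ g ^ M := by
      refine (norm_pow_le _ _).trans ?_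
      exact pow_le_pow_left₀ (norm_nonneg _) hG M
    calc ‖(G + D) * ((G + D) ^ M - G ^ M) + D * G ^ M‖
        ≤ ‖G + D‖ * ‖(G + D) ^ M - G ^ M‖ + ‖D‖ * ‖G ^ M‖ :=
          (norm_add_le _ _).trans (add_le_add (norm_mul_le _ _) (norm_mul_le _ _))
      _ ≤ (g + k) * ((g + k) ^ M - g ^ M) + k * g ^ M := by
          refine add_le_add (mul_le_mul ((norm_add_le _ _).trans (add_le_add hG hD)) ih
            (norm_nonneg _) (by positivity)) ?_
          exact mul_le_mul hD h1 (norm_nonneg _) hk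
      _ = (g + k) ^ (M + 1) - g ^ (M + 1) := by ring

end norm

lemma exp_bd {u : ℝ} (h0 : 0 ≤ u) (h1 : u ≤ 1) : Real.exp u - 1 - u ≤ u ^ 2 := by
  have := Real.abs_exp_sub_one_sub_id_le (x := u) (by rw [abs_of_nonneg h0]; exact h1)
  exact (le_abs_self _).trans this

lemma exp_bd2 {u : ℝ} (h0 : 0 ≤ u) (h1 : u ≤ 1) : Real.exp u - 1 ≤ 2 * u := by
  have := exp_bd h0 h1
  nlinarith

lemma pow_bd {n : ℕ} {y : ℝ} (hy : 0 ≤ y) (h : n * y ≤ 1) :
    (1 + y) ^ n - 1 - n * y ≤ (n * y) ^ 2 := by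
  have h1 : (1 + y) ^ n ≤ Real.exp (n * y) := by
    rw [Real.exp_nat_mul]
    exact pow_le_pow_left₀ (by positivity) (by linarith [Real.add_one_le_exp y]) n
  have h2 := exp_bd (u := n * y) (by positivity) h
  linarith

end Pool.Agent.TH235.PP
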