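import Pool.Agent.TH235.PP.Trunc

set_option autoImplicit false
set_option linter.unusedSectionVars false

open scoped BigOperators
open Finset

namespace Pool.Agent.TH235.PP

variable {R : Type*} [NormedRing R] [NormOneClass R] {M N : ℕ}

/-- the bound for a time slice in the normalised norm `p` -/
lemma slice_bound' (p : R → ℝ) (hpadd : ∀ a b, p (a + b) ≤ p a + p b)
    (hpc : ∀ a, p a ≤ 4 / 3 * ‖a‖) (y : Fin N → R) (y0 : ℝ) (hy0 : 0 ≤ y0) (hy : ∀ b, ‖y b‖ ≤ y0)
    (hG : p (1 + ∑ b, y b) ≤ 1) (hN : N * y0 ≤ 1 / 4) (S : Finset (Fin N))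
    (c : Fin N → Bool) :
    p (op fun b => if b ∈ S then (if c b = true then y b else 1) else 1 + y b) ≤
      (1 + 2 * (S.card * y0 + (N * y0) ^ 2)) * ∏ b, (if b ∈ S ∧ c b = true then 4 * y0 else 1) := by
  classical
  have ha : (1 : ℝ) ≤ 1 + 2 * (S.card * y0 + (N * y0) ^ 2) := by
    have : (0 : ℝ) ≤ S.card * y0 := by positivity
    have h2 : (0 : ℝ) ≤ (N * y0) ^ 2 := by positivity
    linarith
  by_cases hc : ∃ b, b ∈ S ∧ c b = true
  · have h1 : ‖op fun b => if b ∈ S then (if c b = true then y b else 1) else 1 + y b‖ ≤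
        ∏ b, ((if b ∈ S ∧ c b = true then y0 else 1) * (1 + y0)) := by
      apply norm_op_le
      intro b
      by_cases hb : b ∈ S
      · by_cases hcb : c b = true
        · simp only [hb, hcb, if_true, and_self]
          have := hy b
          nlinarith
        · rw [if_pos hb, if_neg hcb, if_neg (fun h => hcb h.2), norm_one]
          nlinarith
      · simp only [hb, if_false, false_and, one_mul]
        refine (norm_add_le _ _).trans ?_
        rw [norm_one]
        linarith [hy b]
    refine (hpc _).trans ?_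
    refine (mul_le_mul_of_nonneg_left h1 (by norm_num : (0:ℝ) ≤ 4 / 3)).trans ?_
    rw [Finset.prod_mul_distrib, Finset.prod_const, Finset.card_univ, Fintype.card_fin]
    have h2 : (1 + y0) ^ N ≤ 2 := by
      have h3 : (1 + y0) ^ N ≤ Real.exp (N * y0) := by
        rw [Real.exp_nat_mul]
        exact pow_le_pow_left₀ (by positivity) (by linarith [Real.add_one_le_exp y0]) N
      have h4 := exp_bd2 (u := N * y0) (by positivity) (by linarith)
      linarith
    obtain ⟨b0, hb0, hcb0⟩ := hc
    have h5 : ∏ b, (if b ∈ S ∧ c b = true then 4 * y0 else 1) =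
        (∏ b, (if b ∈ S ∧ c b = true then (4 : ℝ) else 1)) *
          ∏ b, (if b ∈ S ∧ c b = true then y0 else 1) := by
      rw [← Finset.prod_mul_distrib]
      refine Finset.prod_congr rfl fun b _ => ?_
      split_ifs <;> simp
    have h6 : (4 : ℝ) ≤ ∏ b, (if b ∈ S ∧ c b = true then (4 : ℝ) else 1) := by
      rw [← Finset.mul_prod_erase univ _ (mem_univ b0)]
      rw [if_pos ⟨hb0, hcb0⟩]
      have h7 : (1 : ℝ) ≤ ∏ b ∈ univ.erase b0, (if b ∈ S ∧ c b = true then (4 : ℝ) else 1) := by
        have : ∀ s : Finset (Fin N), (1 : ℝ) ≤ ∏ b ∈ s, (if b ∈ S ∧ c b = true then (4 : ℝ) else 1) := by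
          intro s
          induction s using Finset.induction_on with
          | empty => simp
          | insert a s ha ih =>
            rw [Finset.prod_insert ha]
            split_ifs
            · nlinarith
            · linarith
        exact this _
      linarith
    have h8 : 0 ≤ ∏ b, (if b ∈ S ∧ c b = true then y0 else 1) := by
      refine Finset.prod_nonneg fun b _ => ?_
      split_ifs
      · exact hy0
      · norm_num
    rw [h5]
    have h9 : (8 / 3 : ℝ) ≤ (1 + 2 * (S.card * y0 + (N * y0) ^ 2)) *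
        ∏ b, (if b ∈ S ∧ c b = true then (4 : ℝ) else 1) := by nlinarith
    calc 4 / 3 * ((∏ b, (if b ∈ S ∧ c b = true then y0 else 1)) * (1 + y0) ^ N)
        ≤ 4 / 3 * ((∏ b, (if b ∈ S ∧ c b = true then y0 else 1)) * 2) :=
          mul_le_mul_of_nonneg_left (mul_le_mul_of_nonneg_left h2 h8) (by norm_num)
      _ = (∏ b, (if b ∈ S ∧ c b = true then y0 else 1)) * (8 / 3) := by ring
      _ ≤ (∏ b, (if b ∈ S ∧ c b = true then y0 else 1)) * ((1 + 2 * (S.card * y0 + (N * y0) ^ 2)) *
        ∏ b, (if b ∈ S ∧ c b = true then (4 : ℝ) else 1)) := mul_le_mul_of_nonneg_left h9 h8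
      _ = _ := by ring
  · have hcb : ∀ b, b ∈ S → c b = false := by
      intro b hb
      by_contra hne
      exact hc ⟨b, hb, by simpa using hne⟩
    have h1 : ∏ b, (if b ∈ S ∧ c b = true then 4 * y0 else 1) = 1 := by
      apply Finset.prod_eq_one
      intro b _
      rw [if_neg (fun h => hc ⟨b, h⟩)]
    rw [h1, mul_one]
    set z : Fin N → R := fun b => if b ∈ S then 0 else y b with hz
    have h2 : (op fun b => if b ∈ S then (if c b = true then y b else 1) else 1 + y b) =
        op (fun b => 1 + z b) := by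
      congr 1
      funext b
      by_cases hb : b ∈ S
      · simp [hz, hb, hcb b hb]
      · simp [hz, hb]
    rw [h2]
    have hzn : ∀ b, ‖z b‖ ≤ y0 := by
      intro b
      simp only [hz]
      split_ifs
      · simpa using hy0
      · exact hy b
    obtain ⟨_, h3⟩ := norm_op_sub z y0 hzn hy0
    have h4 := pow_bd (n := N) hy0 (by linarith)
    have h5 : 1 + ∑ b, y b = (1 + ∑ b, z b) + ∑ b ∈ S, y b := by
      have : ∑ b, y b = ∑ b, z b + ∑ b ∈ S, y b := by
        rw [← Finset.sum_filter_add_sum_filter_not univ (fun b => b ∈ S) y]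
        have e1 : univ.filter (fun b => b ∈ S) = S := by ext; simp
        rw [e1, add_comm]
        congr 1
        rw [Finset.sum_filter]
        refine Finset.sum_congr rfl fun b _ => ?_
        by_cases hb : b ∈ S <;> simp [hz, hb]
      rw [this]; abel
    have h6 : ‖∑ b ∈ S, y b‖ ≤ S.card * y0 := by
      refine (norm_sum_le _ _).trans ?_
      calc ∑ b ∈ S, ‖y b‖ ≤ ∑ _b ∈ S, y0 := Finset.sum_le_sum fun b _ => hy b
        _ = S.card * y0 := by simp
    have h7 : ‖op (fun b => 1 + z b) - (1 + ∑ b, y b)‖ ≤ S.card * y0 + (N * y0) ^ 2 := by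
      have e : op (fun b => 1 + z b) - (1 + ∑ b, y b) =
          (op (fun b => 1 + z b) - (1 + ∑ b, z b)) - ∑ b ∈ S, y b := by
        rw [h5]; abel
      rw [e]
      refine (norm_sub_le _ _).trans ?_
      have := add_le_add (h3.trans h4) h6
      linarith
    have h8 : p (op (fun b => 1 + z b)) ≤
        p (op (fun b => 1 + z b) - (1 + ∑ b, y b)) + p (1 + ∑ b, y b) := by
      have := hpadd (op (fun b => 1 + z b) - (1 + ∑ b, y b)) (1 + ∑ b, y b)
      rwa [sub_add_cancel] at this
    have h9 := hpc (op (fun b => 1 + z b) - (1 + ∑ b, y b))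
    have h10 : (0 : ℝ) ≤ S.card * y0 + (N * y0) ^ 2 := by positivity
    linarith

/-- a bound for the truncated expansion in a norm `ν` which is controlled by the product of the
normalised norms of the time slices -/
theorem frob_bound (p ν : R → ℝ) (hp0 : ∀ a, 0 ≤ p a) (hpadd : ∀ a b, p (a + b) ≤ p a + p b)
    (hpc : ∀ a, p a ≤ 4 / 3 * ‖a‖) (hν0 : ν 0 = 0) (hνadd : ∀ a b, ν (a + b) ≤ ν a + ν b)
    (hνneg : ∀ a, ν (-a) = ν a) (A : ℝ) (hA : 0 ≤ A)
    (hνp : ∀ z : Fin M → R, ν (op z) ≤ A * ∏ t, p (z t))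
    (y : Fin N → R) (y0 : ℝ) (hy0 : 0 ≤ y0) (hy : ∀ b, ‖y b‖ ≤ y0)
    (hG : p (1 + ∑ b, y b) ≤ 1) (hN : N * y0 ≤ 1 / 4) (r : ℕ)
    (hM : 2 * M * (N * y0) ^ 2 ≤ 1) (hr : N * Real.exp (15 * (M * y0) - r) ≤ 1) :
    ν (KT M y r) ≤ A * 9 := by
  classical
  have hνsum : ∀ {ι : Type} (s : Finset ι) (f : ι → R), ν (∑ i ∈ s, f i) ≤ ∑ i ∈ s, ν (f i) := by
    intro ι s f
    induction s using Finset.induction_on with
    | empty => simp [hν0]
    | insert a s ha ih =>
      rw [Finset.sum_insert ha, Finset.sum_insert ha]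
      exact (hνadd _ _).trans (add_le_add le_rfl ih)
  set δ : ℝ := Real.exp (15 * (M * y0) - r) with hδ
  set u : ℝ := 2 * M * (N * y0) ^ 2 with hu
  have hδ0 : 0 < δ := Real.exp_pos _
  have hu0 : 0 ≤ u := by positivity
  have hES : ∀ S : Finset (Fin N), ν (ES M y r S) ≤ A * (Real.exp u * δ ^ S.card) := by
    intro S
    set a : ℝ := 1 + 2 * (S.card * y0 + (N * y0) ^ 2) with ha
    have ha0 : 0 ≤ a := by positivity
    set e : ℝ := Real.exp 1 with he
    have he1 : 1 ≤ e := by rw [he]; exact Real.one_le_exp (by norm_num)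
    have he0 : 0 < e := by linarith
    have hQ : ∀ C : Fin M → Fin N → Bool, ν (QS y S C) ≤ A * (a ^ M * wt (4 * y0) S C) := by
      intro C
      unfold QS pr wt
      refine (hνp _).trans (mul_le_mul_of_nonneg_left ?_ hA)
      refine (Finset.prod_le_prod (fun t _ => hp0 _) fun t _ =>
        slice_bound' p hpadd hpc y y0 hy0 hy hG hN S (C t)).trans (le_of_eq ?_)
      rw [Finset.prod_mul_distrib]
      simp [ha]
    rw [ES_eq]
    have h1 : ν (∑ C : Fin M → Fin N → Bool,
        (if (∀ t b, b ∉ S → C t b = false) ∧ (∀ b ∈ S, r < cnt C b) then QS y S C else 0)) ≤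
        ∑ C : Fin M → Fin N → Bool, (if (∀ t b, b ∉ S → C t b = false) then
          A * (a ^ M * (((e ^ (r + 1)) ^ S.card)⁻¹ * wt (e * (4 * y0)) S C)) else 0) := by
      refine (hνsum _ _).trans (Finset.sum_le_sum fun C _ => ?_)
      by_cases hc1 : ∀ t b, b ∉ S → C t b = false
      · rw [if_pos hc1]
        by_cases hc2 : ∀ b ∈ S, r < cnt C b
        · rw [if_pos ⟨hc1, hc2⟩]
          refine (hQ C).trans (mul_le_mul_of_nonneg_left ?_ hA)
          refine mul_le_mul_of_nonneg_left ?_ (by positivity)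
          rw [wt_mul e (4 * y0)]
          have h2 := wt_ge e he1 r S C hc2
          have h3 := wt_nonneg (x := 4 * y0) (by positivity) S C
          rw [← mul_assoc]
          have h4 : 1 ≤ ((e ^ (r + 1)) ^ S.card)⁻¹ * wt e S C := by
            rw [le_inv_mul_iff₀ (by positivity)]
            linarith
          calc wt (4 * y0) S C = 1 * wt (4 * y0) S C := by ring
            _ ≤ _ := mul_le_mul_of_nonneg_right h4 h3
        · rw [if_neg (fun h => hc2 h.2), hν0]
          have := wt_nonneg (x := e * (4 * y0)) (by positivity) S C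
          positivity
      · rw [if_neg (fun h => hc1 h.1), if_neg hc1, hν0]
    refine h1.trans ?_
    have h2 : ∑ C : Fin M → Fin N → Bool, (if (∀ t b, b ∉ S → C t b = false) then
          A * (a ^ M * (((e ^ (r + 1)) ^ S.card)⁻¹ * wt (e * (4 * y0)) S C)) else 0) =
        A * (a ^ M * ((e ^ (r + 1)) ^ S.card)⁻¹ * (1 + e * (4 * y0)) ^ (M * S.card)) := by
      rw [← wt_sum, Finset.mul_sum, Finset.mul_sum]
      refine Finset.sum_congr rfl fun C _ => ?_
      split_ifs
      · ring
      · simp
    rw [h2]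
    refine mul_le_mul_of_nonneg_left ?_ hA
    have h3 : a ^ M ≤ Real.exp u * Real.exp (2 * (M * y0)) ^ S.card := by
      have h4 : a ≤ Real.exp (2 * ((N * y0) ^ 2 + S.card * y0)) := by
        have h5 := Real.add_one_le_exp (2 * ((N * y0) ^ 2 + S.card * y0))
        rw [ha]; linarith
      calc a ^ M ≤ (Real.exp (2 * ((N * y0) ^ 2 + S.card * y0))) ^ M :=
            pow_le_pow_left₀ ha0 h4 M
        _ = _ := by
            rw [← Real.exp_nat_mul, ← Real.exp_nat_mul, ← Real.exp_add]
            congr 1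
            rw [hu]
            ring
    have h4 : (1 + e * (4 * y0)) ^ (M * S.card) ≤ Real.exp (11 * (M * y0)) ^ S.card := by
      rw [pow_mul]
      refine pow_le_pow_left₀ (by positivity) ?_ _
      have he2 : e * 4 ≤ 11 := by
        have := Real.exp_one_lt_d9
        rw [he]; linarith
      calc (1 + e * (4 * y0)) ^ M ≤ (Real.exp (11 * y0)) ^ M := by
            refine pow_le_pow_left₀ (by positivity) ?_ M
            have := Real.add_one_le_exp (11 * y0)
            nlinarith
        _ = Real.exp (11 * (M * y0)) := by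
            rw [← Real.exp_nat_mul]; congr 1; ring
    have h5 : ((e ^ (r + 1)) ^ S.card)⁻¹ ≤ Real.exp (-(r : ℝ)) ^ S.card := by
      rw [← inv_pow]
      refine pow_le_pow_left₀ (by positivity) ?_ _
      rw [he, ← Real.exp_nat_mul, ← Real.exp_neg]
      apply Real.exp_le_exp.2
      push_cast
      linarith
    calc a ^ M * ((e ^ (r + 1)) ^ S.card)⁻¹ * (1 + e * (4 * y0)) ^ (M * S.card)
        ≤ (Real.exp u * Real.exp (2 * (M * y0)) ^ S.card) *
          Real.exp (-(r : ℝ)) ^ S.card * Real.exp (11 * (M * y0)) ^ S.card := by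
          refine mul_le_mul (mul_le_mul h3 h5 (by positivity) (by positivity)) h4
            (by positivity) (by positivity)
      _ = Real.exp u * Real.exp (13 * (M * y0) - r) ^ S.card := by
          have : Real.exp (13 * (M * y0) - r) =
              Real.exp (2 * (M * y0)) * Real.exp (-(r : ℝ)) * Real.exp (11 * (M * y0)) := by
            rw [← Real.exp_add, ← Real.exp_add]; congr 1; ring
          rw [this, mul_pow, mul_pow]
          ring
      _ ≤ Real.exp u * δ ^ S.card := by
          refine mul_le_mul_of_nonneg_left ?_ (Real.exp_pos _).le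
          refine pow_le_pow_left₀ (Real.exp_pos _).le ?_ _
          apply Real.exp_le_exp.2
          have : (0 : ℝ) ≤ M * y0 := by positivity
          linarith
  have h1 : ν (KT M y r) ≤ A * (Real.exp u * (1 + δ) ^ N) := by
    rw [incl_excl]
    refine (hνsum _ _).trans ?_
    have h3 : ∀ S : Finset (Fin N), ν (((-1 : ℤ) ^ S.card) • ES M y r S) ≤
        A * (Real.exp u * δ ^ S.card) := by
      intro S
      have h4 : ν (((-1 : ℤ) ^ S.card) • ES M y r S) = ν (ES M y r S) := by
        rcases neg_one_pow_eq_or ℤ S.card with h | h <;> rw [h]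
        · rw [one_smul]
        · rw [neg_smul, one_smul, hνneg]
      rw [h4]
      exact hES S
    refine (Finset.sum_le_sum fun S _ => h3 S).trans (le_of_eq ?_)
    rw [← Finset.mul_sum, ← Finset.mul_sum]
    congr 2
    have h5 := Finset.sum_pow_mul_eq_add_pow δ 1 (univ : Finset (Fin N))
    rw [Finset.powerset_univ] at h5
    simp only [one_pow, mul_one, card_univ, Fintype.card_fin] at h5
    rw [h5, add_comm]
  refine h1.trans (mul_le_mul_of_nonneg_left ?_ hA)
  have h3 : (1 + δ) ^ N ≤ 3 := by
    have h4 : (1 + δ) ^ N ≤ Real.exp (N * δ) := by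
      rw [Real.exp_nat_mul]
      exact pow_le_pow_left₀ (by positivity) (by linarith [Real.add_one_le_exp δ]) N
    have h5 := exp_bd2 (u := N * δ) (by positivity) hr
    linarith
  have h4 : Real.exp u ≤ 3 := by
    have := exp_bd2 hu0 hM
    linarith
  calc Real.exp u * (1 + δ) ^ N ≤ 3 * 3 := mul_le_mul h4 h3 (by positivity) (by norm_num)
    _ = 9 := by norm_num

end Pool.Agent.TH235.PP
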