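import Pool.Agent.TH235.PP.Defs

set_option autoImplicit false
set_option linter.unusedSectionVars false

open scoped BigOperators Matrix InnerProductSpace
open Finset

namespace Pool.Agent.TH235.PP

/-- Squared Hilbert-space norm of a vector of amplitudes. -/
noncomputable def normSq {S : Type*} [Fintype S] (ψ : S → ℂ) : ℝ := ∑ s, ‖ψ s‖ ^ 2

/-- Scalar product of two vectors of amplitudes. -/
noncomputable def ip {S : Type*} [Fintype S] (ψ φ : S → ℂ) : ℂ := ∑ s, (starRingEnd ℂ) (ψ s) * φ s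

/-- `ψ` spans the ground space of `H`: its eigenvalue `E` is simple and every other eigenvalue is at
least `E + Δ`. -/
def IsGappedGround {n : Type*} [Fintype n] (H : Matrix n n ℂ) (Δ : ℝ) (ψ : n → ℂ) : Prop :=
  ∃ E : ℝ, H.mulVec ψ = (E : ℂ) • ψ ∧ (∀ φ, H.mulVec φ = (E : ℂ) • φ → ∃ c : ℂ, φ = c • ψ) ∧
    ∀ (E' : ℝ) (φ : n → ℂ), φ ≠ 0 → H.mulVec φ = (E' : ℂ) • φ → E' = E ∨ E + Δ ≤ E'

section spec

variable {n : Type*} [Fintype n] [DecidableEq n]

/-- Hilbert-space norm -/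
noncomputable def nr (x : n → ℂ) : ℝ := ‖(WithLp.toLp 2 x : EuclideanSpace ℂ n)‖

lemma nr_sq (x : n → ℂ) : nr x ^ 2 = normSq x := by
  unfold nr normSq
  rw [EuclideanSpace.norm_sq_eq]

lemma nr_nonneg (x : n → ℂ) : 0 ≤ nr x := norm_nonneg _

lemma nr_add (x y : n → ℂ) : nr (x + y) ≤ nr x + nr y := by
  unfold nr
  rw [WithLp.toLp_add]
  exact norm_add_le _ _

lemma nr_smul (c : ℂ) (x : n → ℂ) : nr (c • x) = ‖c‖ * nr x := by
  unfold nr
  rw [WithLp.toLp_smul, norm_smul]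

open scoped Matrix.Norms.L2Operator in
lemma nr_mulVec (A : Matrix n n ℂ) (x : n → ℂ) : nr (A *ᵥ x) ≤ ‖A‖ * nr x :=
  Matrix.l2_opNorm_mulVec A (WithLp.toLp 2 x)

lemma ip_eq (x y : n → ℂ) :
    ip x y = ⟪(WithLp.toLp 2 x : EuclideanSpace ℂ n), WithLp.toLp 2 y⟫_ℂ := by
  unfold ip
  rw [EuclideanSpace.inner_eq_star_dotProduct]
  unfold dotProduct
  refine Finset.sum_congr rfl fun s _ => ?_
  simp [mul_comm]

lemma diag_bound (b : OrthonormalBasis n ℂ (EuclideanSpace ℂ n)) (B : Matrix n n ℂ) (μ : n → ℝ)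
    (hB : ∀ j, B *ᵥ (b j).ofLp = (μ j : ℂ) • (b j).ofLp) (x : n → ℂ) (g : ℝ) (hg : 0 ≤ g)
    (h : ∀ j, ip (b j).ofLp x ≠ 0 → |μ j| ≤ g) : nr (B *ᵥ x) ≤ g * nr x := by
  set T := Matrix.toEuclideanLin B with hT
  set X : EuclideanSpace ℂ n := WithLp.toLp 2 x with hX
  have hTx : nr (B *ᵥ x) = ‖T X‖ := rfl
  have hTb : ∀ j, T (b j) = (μ j : ℂ) • b j := by
    intro j
    have : T (b j) = WithLp.toLp 2 (B *ᵥ (b j).ofLp) := rfl
    rw [this, hB j, WithLp.toLp_smul]
  have hsum : T X = ∑ j, (⟪b j, X⟫_ℂ * (μ j : ℂ)) • b j := by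
    conv_lhs => rw [← b.sum_repr' X]
    rw [map_sum]
    refine Finset.sum_congr rfl fun j _ => ?_
    rw [map_smul, hTb, smul_smul]
  have hin : ∀ i, ⟪b i, T X⟫_ℂ = ⟪b i, X⟫_ℂ * (μ i : ℂ) := by
    intro i
    rw [hsum]
    exact b.orthonormal.inner_right_fintype _ i
  rw [hTx]
  have hnX : nr x = ‖X‖ := rfl
  rw [hnX]
  apply le_of_sq_le_sq _ (by positivity)
  rw [mul_pow, ← b.sum_sq_norm_inner_right (T X), ← b.sum_sq_norm_inner_right X, Finset.mul_sum]
  refine Finset.sum_le_sum fun i _ => ?_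
  rw [hin, norm_mul, mul_pow, mul_comm]
  by_cases h0 : ⟪b i, X⟫_ℂ = 0
  · rw [h0]; simp
  · have h1 : |μ i| ≤ g := by
      apply h i
      rw [ip_eq]
      exact h0
    refine mul_le_mul_of_nonneg_right ?_ (by positivity)
    rw [Complex.norm_real, Real.norm_eq_abs]
    exact pow_le_pow_left₀ (abs_nonneg _) h1 2

lemma pow_eig (B : Matrix n n ℂ) (v : n → ℂ) (c : ℂ) (h : B *ᵥ v = c • v) (M : ℕ) :
    (B ^ M) *ᵥ v = c ^ M • v := by
  induction M with
  | zero => simp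
  | succ M ih =>
    rw [pow_succ, ← Matrix.mulVec_mulVec, h, Matrix.mulVec_smul, ih, smul_smul]
    congr 1
    ring

open scoped Matrix.Norms.L2Operator in
/-- The power method for a gapped Hermitian matrix. -/
theorem spec (A : Matrix n n ℂ) (hA : A.IsHermitian) (Δ : ℝ) (hΔ : 0 < Δ) (ψ : n → ℂ)
    (hψ : normSq ψ = 1) (hgr : IsGappedGround A Δ ψ) (κ : ℝ) (hκ : 0 ≤ κ)
    (hκA : κ * ‖A‖ ≤ 1 / 4) :
    ∃ g : ℝ, 3 / 4 ≤ g ∧ ‖(1 : Matrix n n ℂ) - (κ : ℂ) • A‖ ≤ g ∧
      ∀ (M : ℕ) (x : n → ℂ),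
        nr (((1 : Matrix n n ℂ) - (κ : ℂ) • A) ^ M *ᵥ x - ((g : ℂ) ^ M * ip ψ x) • ψ) ≤
          g ^ M * Real.exp (-(κ * M * Δ / 2)) * nr x := by
  obtain ⟨E, hE, hsimple, hgap⟩ := hgr
  set G : Matrix n n ℂ := 1 - (κ : ℂ) • A with hG
  set b := hA.eigenvectorBasis with hb
  set lam := hA.eigenvalues with hlam
  have hAb : ∀ j, A *ᵥ (b j).ofLp = (lam j : ℂ) • (b j).ofLp := by
    intro j
    have := hA.mulVec_eigenvectorBasis j
    rw [this]
    rfl
  have hbne : ∀ j, (b j).ofLp ≠ 0 := by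
    intro j h0
    have h1 : b j = 0 := by
      have : b j = WithLp.toLp 2 ((b j).ofLp) := rfl
      rw [this, h0]; rfl
    have h2 := b.norm_eq_one j
    rw [h1, norm_zero] at h2
    exact zero_ne_one h2
  have hnb : ∀ j, nr (b j).ofLp = 1 := fun j => b.norm_eq_one j
  have hψn : nr ψ = 1 := by
    have h1 := nr_sq ψ
    rw [hψ] at h1
    nlinarith [nr_nonneg ψ]
  have hlA : ∀ j, |lam j| ≤ ‖A‖ := by
    intro j
    have h1 := nr_mulVec A (b j).ofLp
    rw [hAb j, nr_smul, hnb j, mul_one, mul_one, Complex.norm_real, Real.norm_eq_abs] at h1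
    exact h1
  have hEA : |E| ≤ ‖A‖ := by
    have h1 := nr_mulVec A ψ
    rw [hE, nr_smul, hψn, mul_one, mul_one, Complex.norm_real, Real.norm_eq_abs] at h1
    exact h1
  have hlE : ∀ j, lam j = E ∨ E + Δ ≤ lam j := fun j => hgap (lam j) _ (hbne j) (hAb j)
  have hGv : ∀ (v : n → ℂ) (l : ℝ), A *ᵥ v = (l : ℂ) • v → G *ᵥ v = ((1 - κ * l : ℝ) : ℂ) • v := by
    intro v l hv
    rw [hG, Matrix.sub_mulVec, Matrix.one_mulVec, Matrix.smul_mulVec, hv, smul_smul]
    push_cast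
    rw [sub_smul, one_smul]
  have hk1 : ∀ l : ℝ, |l| ≤ ‖A‖ → κ * l ≤ 1 / 4 ∧ -(1 / 4) ≤ κ * l := by
    intro l hl
    have h1 : |κ * l| ≤ 1 / 4 := by
      rw [abs_mul, abs_of_nonneg hκ]
      exact (mul_le_mul_of_nonneg_left hl hκ).trans hκA
    rw [abs_le] at h1
    exact ⟨h1.2, h1.1⟩
  set g : ℝ := 1 - κ * E with hg
  have hg34 : 3 / 4 ≤ g := by rw [hg]; linarith [(hk1 E hEA).1]
  have hg54 : g ≤ 5 / 4 := by rw [hg]; linarith [(hk1 E hEA).2]
  have hg0 : 0 < g := by linarith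
  refine ⟨g, hg34, ?_, ?_⟩
  · rw [Matrix.l2_opNorm_def]
    apply ContinuousLinearMap.opNorm_le_bound _ hg0.le
    intro X
    have h1 := diag_bound b G (fun j => 1 - κ * lam j) (fun j => hGv _ _ (hAb j)) X.ofLp g hg0.le
      (fun j _ => by
        rw [abs_of_nonneg (by linarith [(hk1 _ (hlA j)).1])]
        rcases hlE j with h | h
        · rw [h]
        · have : κ * (E + Δ) ≤ κ * lam j := mul_le_mul_of_nonneg_left h hκ
          rw [hg]
          nlinarith)
    exact h1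
  · intro M x
    set a := ip ψ x with ha
    set x' : n → ℂ := x - a • ψ with hx'
    have hperp : ip ψ x' = 0 := by
      rw [hx', ip_eq, WithLp.toLp_sub, inner_sub_right, WithLp.toLp_smul, inner_smul_right,
        ← ip_eq, ← ip_eq, ← ha]
      have h1 : ip ψ ψ = 1 := by
        rw [ip_eq, inner_self_eq_norm_sq_to_K]
        have : ‖(WithLp.toLp 2 ψ : EuclideanSpace ℂ n)‖ = 1 := hψn
        rw [this]; simp
      rw [h1]; ring
    have hnx' : nr x' ≤ nr x := by
      have h1 : nr x ^ 2 = nr x' ^ 2 + ‖a‖ ^ 2 := by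
        have e1 : x = x' + a • ψ := by rw [hx']; abel
        have e2 : (WithLp.toLp 2 x : EuclideanSpace ℂ n) =
            WithLp.toLp 2 x' + a • WithLp.toLp 2 ψ := by
          rw [← WithLp.toLp_smul, ← WithLp.toLp_add, ← e1]
        have hin : ⟪(WithLp.toLp 2 x' : EuclideanSpace ℂ n), a • WithLp.toLp 2 ψ⟫_ℂ = 0 := by
          rw [inner_smul_right, ← inner_conj_symm, ← ip_eq, hperp]; simp
        have h2 := norm_add_sq_eq_norm_sq_add_norm_sq_of_inner_eq_zero _ _ hin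
        unfold nr
        rw [e2]
        have h3 : ‖(WithLp.toLp 2 ψ : EuclideanSpace ℂ n)‖ = 1 := hψn
        rw [norm_smul, h3, mul_one] at h2
        nlinarith [h2]
      have h2 : nr x' ^ 2 ≤ nr x ^ 2 := by rw [h1]; nlinarith [sq_nonneg ‖a‖]
      exact le_of_sq_le_sq h2 (nr_nonneg _)
    have e1 : G ^ M *ᵥ x - ((g : ℂ) ^ M * a) • ψ = G ^ M *ᵥ x' := by
      rw [hx', Matrix.mulVec_sub, Matrix.mulVec_smul]
      have h1 : G *ᵥ ψ = (g : ℂ) • ψ := hGv ψ E hE
      rw [pow_eig G ψ _ h1 M, smul_smul, mul_comm a]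
    rw [e1]
    have h1 := diag_bound b (G ^ M) (fun j => (1 - κ * lam j) ^ M)
      (fun j => by
        have := pow_eig G _ _ (hGv _ _ (hAb j)) M
        rw [this]
        push_cast
        rfl) x' (g ^ M * Real.exp (-(κ * M * Δ / 2))) (by positivity)
      (fun j hj => by
        have hne : lam j ≠ E := by
          intro hjE
          have h2 := hAb j
          rw [hjE] at h2
          obtain ⟨c, hc⟩ := hsimple _ h2
          apply hj
          rw [hc]
          have : ip (c • ψ) x' = (starRingEnd ℂ) c * ip ψ x' := by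
            rw [ip_eq, WithLp.toLp_smul, inner_smul_left, ← ip_eq]
          rw [this, hperp, mul_zero]
        have h2 : E + Δ ≤ lam j := (hlE j).resolve_left hne
        have h3 : 0 ≤ 1 - κ * lam j := by linarith [(hk1 _ (hlA j)).1]
        rw [abs_of_nonneg (pow_nonneg h3 M)]
        have h4 : 1 - κ * lam j ≤ g * Real.exp (-(κ * Δ / 2)) := by
          have h5 := Real.add_one_le_exp (-(κ * Δ / 2))
          have h6 : κ * (E + Δ) ≤ κ * lam j := mul_le_mul_of_nonneg_left h2 hκ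
          have h7 : g * (-(κ * Δ / 2) + 1) ≤ g * Real.exp (-(κ * Δ / 2)) :=
            mul_le_mul_of_nonneg_left h5 hg0.le
          have h8 : 0 ≤ κ * Δ := by positivity
          nlinarith
        calc (1 - κ * lam j) ^ M ≤ (g * Real.exp (-(κ * Δ / 2))) ^ M := pow_le_pow_left₀ h3 h4 M
          _ = g ^ M * Real.exp (-(κ * M * Δ / 2)) := by
              rw [mul_pow, ← Real.exp_nat_mul]
              congr 2
              ring)
    exact h1.trans (mul_le_mul_of_nonneg_left hnx' (by positivity))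

end spec

section hamiltonian

variable {d R L : ℕ} [NeZero L]

lemma term_herm (h : BoxOp d R) (hh : h.IsHermitian) (u : Site L) : (term h u).IsHermitian := by
  classical
  ext s t
  rw [Matrix.conjTranspose_apply]
  unfold term
  by_cases hc : ∀ v, (∀ x : Fin R × Fin R, sh u x ≠ v) → s v = t v
  · rw [if_pos hc, if_pos (fun v hv => (hc v hv).symm)]
    exact hh.apply _ _
  · rw [if_neg hc, if_neg (fun hh => hc (fun v hv => (hh v hv).symm))]
    simp

lemma ham_herm (h : BoxOp d R) (hh : h.IsHermitian) : (ham h L).IsHermitian := by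
  unfold ham
  exact isSelfAdjoint_sum _ fun u _ => term_herm h hh u

/-- entrywise `ℓ¹` norm of the interaction -/
noncomputable def nJ (h : BoxOp d R) : ℝ := ∑ p, ∑ q, ‖h p q‖

lemma nJ_nonneg (h : BoxOp d R) : 0 ≤ nJ h :=
  Finset.sum_nonneg fun _ _ => Finset.sum_nonneg fun _ _ => norm_nonneg _

open scoped Matrix.Norms.L2Operator in
lemma norm_term (h : BoxOp d R) (u : Site L) : ‖term h u‖ ≤ nJ h := by
  rw [term_eq]
  refine (norm_sum_le _ _).trans ?_
  unfold nJ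
  rw [← Fintype.sum_prod_type']
  refine Finset.sum_le_sum fun pq _ => ?_
  rw [norm_smul]
  exact mul_le_of_le_one_right (norm_nonneg _) (norm_tp_loc u pq.1 pq.2)

open scoped Matrix.Norms.L2Operator in
lemma norm_ham (h : BoxOp d R) : ‖ham h L‖ ≤ (L : ℝ) ^ 2 * nJ h := by
  unfold ham
  refine (norm_sum_le _ _).trans ?_
  calc ∑ u : Site L, ‖term h u‖ ≤ ∑ _u : Site L, nJ h := Finset.sum_le_sum fun u _ => norm_term h u
    _ = (L : ℝ) ^ 2 * nJ h := by
        rw [Finset.sum_const, Finset.card_univ, Fintype.card_prod, ZMod.card, nsmul_eq_mul]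
        push_cast
        ring

end hamiltonian

end Pool.Agent.TH235.PP
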