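import Pool.Agent.TH235.PP.Exp
import Pool.Agent.TH235.PP.Spec

set_option autoImplicit false
set_option linter.unusedSectionVars false

open scoped BigOperators Matrix InnerProductSpace
open Finset

namespace Pool.Agent.TH235.PP

/-- layer cake decomposition of a nonnegative function on a finite set -/
lemma layer {n : Type*} [Fintype n] [DecidableEq n] (s : ℕ) : ∀ (l : n → ℝ), (∀ j, 0 ≤ l j) →
    (univ.filter fun j => l j ≠ 0).card ≤ s →
    ∃ (m : ℕ) (c : Fin m → ℝ) (A : Fin m → Finset n), (∀ k, 0 ≤ c k) ∧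
      (∀ k k', A k ⊆ A k' ∨ A k' ⊆ A k) ∧ (∀ j, l j = ∑ k, c k * (if j ∈ A k then 1 else 0)) ∧
      (∀ k, ∀ j ∈ A k, l j ≠ 0) := by
  induction s with
  | zero =>
    intro l hl h
    have h0 : ∀ j, l j = 0 := by
      intro j
      by_contra hj
      have : j ∈ univ.filter fun j => l j ≠ 0 := by simp [hj]
      rw [Nat.le_zero, Finset.card_eq_zero] at h
      rw [h] at this
      simp at this
    exact ⟨0, Fin.elim0, Fin.elim0, fun k => k.elim0, fun k => k.elim0,
      fun j => by rw [h0 j]; simp, fun k => k.elim0⟩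
  | succ s ih =>
    intro l hl h
    set S := univ.filter fun j => l j ≠ 0 with hS
    by_cases hne : S.Nonempty
    · obtain ⟨j0, hj0, hmin⟩ := Finset.exists_min_image S l hne
      have hj0' : l j0 ≠ 0 := by
        rw [hS, mem_filter] at hj0
        exact hj0.2
      have hμ : 0 < l j0 := lt_of_le_of_ne (hl j0) (Ne.symm hj0')
      set l' : n → ℝ := fun j => if j ∈ S then l j - l j0 else 0 with hl'
      have hl'0 : ∀ j, 0 ≤ l' j := by
        intro j
        rw [hl']
        beta_reduce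
        split_ifs with hj
        · linarith [hmin j hj]
        · exact le_rfl
      have hsub : (univ.filter fun j => l' j ≠ 0) ⊆ S.erase j0 := by
        intro j hj
        rw [mem_filter] at hj
        have hj2 := hj.2
        rw [hl'] at hj2
        beta_reduce at hj2
        rw [mem_erase]
        by_cases hjS : j ∈ S
        · refine ⟨?_, hjS⟩
          rintro rfl
          rw [if_pos hjS, sub_self] at hj2
          exact hj2 rfl
        · rw [if_neg hjS] at hj2
          exact absurd rfl hj2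
      have hcard : (univ.filter fun j => l' j ≠ 0).card ≤ s := by
        have h1 := Finset.card_le_card hsub
        rw [Finset.card_erase_of_mem hj0] at h1
        omega
      obtain ⟨m, c, A, h1, h2, h3, h4⟩ := ih l' hl'0 hcard
      have hAS : ∀ k, A k ⊆ S := by
        intro k j hj
        have h5 := h4 k j hj
        have h6 : j ∈ univ.filter fun j => l' j ≠ 0 := by simp [h5]
        exact Finset.mem_of_mem_erase (hsub h6)
      refine ⟨m + 1, Fin.cons (l j0) c, Fin.cons S A, ?_, ?_, ?_, ?_⟩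
      · intro k
        refine Fin.cases ?_ (fun k => ?_) k
        · exact hμ.le
        · exact h1 k
      · intro k k'
        refine Fin.cases ?_ (fun k => ?_) k
        · refine Fin.cases ?_ (fun k' => ?_) k'
          · left; exact subset_rfl
          · right; exact hAS k'
        · refine Fin.cases ?_ (fun k' => ?_) k'
          · left; exact hAS k
          · exact h2 k k'
      · intro j
        rw [Fin.sum_univ_succ]
        simp only [Fin.cons_zero, Fin.cons_succ]
        rw [← h3 j, hl']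
        beta_reduce
        by_cases hj : j ∈ S
        · rw [if_pos hj, if_pos hj]; ring
        · rw [if_neg hj, if_neg hj, mul_zero, add_zero]
          by_contra hne'
          exact hj (by rw [hS]; simp [hne'])
      · intro k
        refine Fin.cases ?_ (fun k => ?_) k
        · intro j hj
          rw [Fin.cons_zero, hS, mem_filter] at hj
          exact hj.2
        · intro j hj
          rw [Fin.cons_succ] at hj
          have h5 := hAS k hj
          rw [hS, mem_filter] at h5
          exact h5.2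
    · rw [Finset.not_nonempty_iff_eq_empty] at hne
      have h0 : ∀ j, l j = 0 := by
        intro j
        by_contra hj
        have : j ∈ S := by rw [hS]; simp [hj]
        rw [hne] at this
        simp at this
      exact ⟨0, Fin.elim0, Fin.elim0, fun k => k.elim0, fun k => k.elim0,
        fun j => by rw [h0 j]; simp, fun k => k.elim0⟩

section proj

variable {n : Type*} [Fintype n] [DecidableEq n]

/-- indicator function -/
def ind (A : Finset n) : n → ℂ := fun j => if j ∈ A then 1 else 0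

open scoped Matrix.Norms.L2Operator in
lemma entry_le (Y : Matrix n n ℂ) (j : n) : ‖Y j j‖ ≤ ‖Y‖ := by
  have h1 := nr_mulVec Y (Pi.single j 1)
  have h2 : nr (Pi.single j (1 : ℂ) : n → ℂ) = 1 := by
    unfold nr
    have : (WithLp.toLp 2 (Pi.single j (1 : ℂ) : n → ℂ) : EuclideanSpace ℂ n) =
      EuclideanSpace.single j (1 : ℂ) := rfl
    rw [this]
    simp
  rw [h2, mul_one] at h1
  refine le_trans ?_ h1
  have h3 : (Y *ᵥ Pi.single j 1) j = Y j j := by simp
  rw [← h3]
  unfold nr
  exact PiLp.norm_apply_le (WithLp.toLp 2 (Y *ᵥ Pi.single j 1) : EuclideanSpace ℂ n) j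

open scoped Matrix.Norms.L2Operator in
lemma trace_diag (A : Finset n) (Y : Matrix n n ℂ) :
    ‖(Matrix.diagonal (ind A) * Y).trace‖ ≤ A.card * ‖Y‖ := by
  unfold Matrix.trace
  simp only [Matrix.diag_apply, Matrix.diagonal_mul]
  have h1 : ∑ x, ind A x * Y x x = ∑ x ∈ A, Y x x := by
    unfold ind
    simp only [ite_mul, one_mul, zero_mul]
    rw [Finset.sum_ite_mem, Finset.univ_inter]
  rw [h1]
  refine (norm_sum_le _ _).trans ?_
  calc ∑ x ∈ A, ‖Y x x‖ ≤ ∑ _x ∈ A, ‖Y‖ := Finset.sum_le_sum fun x _ => entry_le Y x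
    _ = _ := by rw [Finset.sum_const, nsmul_eq_mul]

/-- spectral projection -/
noncomputable def sp (U : Matrix n n ℂ) (A : Finset n) : Matrix n n ℂ :=
  U * Matrix.diagonal (ind A) * Uᴴ

lemma sp_herm (U : Matrix n n ℂ) (A : Finset n) : (sp U A)ᴴ = sp U A := by
  unfold sp
  rw [Matrix.conjTranspose_mul, Matrix.conjTranspose_mul, Matrix.conjTranspose_conjTranspose,
    Matrix.diagonal_conjTranspose, mul_assoc]
  congr 2
  congr 1
  funext j
  unfold ind
  rw [Pi.star_apply]
  split_ifs <;> simp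

variable [Nonempty n]

open scoped Matrix.Norms.L2Operator in
lemma norm_unit (U : Matrix n n ℂ) (hU : Uᴴ * U = 1) : ‖U‖ ≤ 1 := by
  have h1 := Matrix.l2_opNorm_conjTranspose_mul_self U
  rw [hU, norm_one] at h1
  nlinarith only [h1, norm_nonneg U]

open scoped Matrix.Norms.L2Operator in
lemma norm_sp (U : Matrix n n ℂ) (hU : Uᴴ * U = 1) (A : Finset n) : ‖sp U A‖ ≤ 1 := by
  unfold sp
  have h1 := norm_unit U hU
  have h2 : ‖(Matrix.diagonal (ind A) : Matrix n n ℂ)‖ ≤ 1 := by
    rw [Matrix.l2_opNorm_diagonal, pi_norm_le_iff_of_nonneg zero_le_one]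
    intro j
    unfold ind
    split_ifs <;> simp
  calc ‖U * Matrix.diagonal (ind A) * Uᴴ‖ ≤ ‖U‖ * ‖(Matrix.diagonal (ind A) : Matrix n n ℂ)‖ * ‖Uᴴ‖ :=
        (norm_mul_le _ _).trans (mul_le_mul_of_nonneg_right (norm_mul_le _ _) (norm_nonneg _))
    _ ≤ 1 * 1 * 1 := by
        rw [Matrix.l2_opNorm_conjTranspose]
        exact mul_le_mul (mul_le_mul h1 h2 (norm_nonneg _) zero_le_one) h1 (norm_nonneg _)
          (by norm_num)
    _ = 1 := by norm_num

open scoped Matrix.Norms.L2Operator in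
lemma trace_sp (U : Matrix n n ℂ) (hU : Uᴴ * U = 1) (A : Finset n) (X Y : Matrix n n ℂ) :
    ‖(X * sp U A * Y).trace‖ ≤ A.card * (‖X‖ * ‖Y‖) := by
  unfold sp
  have e : (X * (U * Matrix.diagonal (ind A) * Uᴴ) * Y).trace =
      (Matrix.diagonal (ind A) * (Uᴴ * Y * X * U)).trace := by
    rw [Matrix.trace_mul_comm]
    rw [show Y * (X * (U * Matrix.diagonal (ind A) * Uᴴ)) =
      (Y * X * U) * (Matrix.diagonal (ind A) * Uᴴ) by simp only [mul_assoc]]
    rw [Matrix.trace_mul_comm]
    simp only [mul_assoc]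
  rw [e]
  refine (trace_diag A _).trans (mul_le_mul_of_nonneg_left ?_ (Nat.cast_nonneg _))
  have h1 := norm_unit U hU
  calc ‖Uᴴ * Y * X * U‖ ≤ ‖Uᴴ‖ * ‖Y‖ * ‖X‖ * ‖U‖ := by
        refine (norm_mul_le _ _).trans (mul_le_mul_of_nonneg_right ?_ (norm_nonneg _))
        refine (norm_mul_le _ _).trans (mul_le_mul_of_nonneg_right ?_ (norm_nonneg _))
        exact norm_mul_le _ _
    _ ≤ 1 * ‖Y‖ * ‖X‖ * 1 := by
        rw [Matrix.l2_opNorm_conjTranspose]
        refine mul_le_mul ?_ h1 (norm_nonneg _) (by positivity)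
        refine mul_le_mul_of_nonneg_right ?_ (norm_nonneg _)
        exact mul_le_mul_of_nonneg_right h1 (norm_nonneg _)
    _ = ‖X‖ * ‖Y‖ := by ring

open scoped Matrix.Norms.L2Operator in
lemma norm_op_PC {m : ℕ} (P C : Fin m → Matrix n n ℂ) (hP : ∀ t, ‖P t‖ ≤ 1) :
    ‖op fun t => P t * C t‖ ≤ ∏ t, ‖C t‖ := by
  apply norm_op_le
  intro t
  refine (norm_mul_le _ _).trans ?_
  exact mul_le_of_le_one_left (norm_nonneg _) (hP t)

open scoped Matrix.Norms.L2Operator in
lemma op_split {m : ℕ} (P C : Fin m → Matrix n n ℂ) (hP : ∀ t, ‖P t‖ ≤ 1) (i : Fin m) :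
    ∃ X Y : Matrix n n ℂ, (op fun t => P t * C t) = X * P i * Y ∧
      ‖X‖ * ‖Y‖ ≤ ∏ t, ‖C t‖ := by
  induction m with
  | zero => exact i.elim0
  | succ m ih =>
    rw [op_succ, Fin.prod_univ_succ]
    refine Fin.cases ?_ (fun i => ?_) i
    · refine ⟨1, C 0 * op (fun t => P (Fin.succ t) * C (Fin.succ t)), ?_, ?_⟩
      · rw [one_mul, mul_assoc]
      · rw [norm_one, one_mul]
        refine (norm_mul_le _ _).trans (mul_le_mul_of_nonneg_left ?_ (norm_nonneg _))
        exact norm_op_PC _ _ fun t => hP t.succ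
    · obtain ⟨X, Y, h1, h2⟩ := ih (fun t => P t.succ) (fun t => C t.succ) (fun t => hP t.succ) i
      refine ⟨P 0 * C 0 * X, Y, ?_, ?_⟩
      · rw [h1]; simp only [mul_assoc]
      · have h3 : ‖P 0 * C 0 * X‖ ≤ ‖C 0‖ * ‖X‖ := by
          refine (norm_mul_le _ _).trans (mul_le_mul_of_nonneg_right ?_ (norm_nonneg _))
          refine (norm_mul_le _ _).trans ?_
          exact mul_le_of_le_one_left (norm_nonneg _) (hP 0)
        calc ‖P 0 * C 0 * X‖ * ‖Y‖ ≤ ‖C 0‖ * ‖X‖ * ‖Y‖ :=
              mul_le_mul_of_nonneg_right h3 (norm_nonneg _)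
          _ = ‖C 0‖ * (‖X‖ * ‖Y‖) := by ring
          _ ≤ _ := mul_le_mul_of_nonneg_left h2 (norm_nonneg _)

/-- squared Frobenius norm -/
noncomputable def fr2 (W : Matrix n n ℂ) : ℝ := ∑ s, ∑ t, ‖W s t‖ ^ 2

lemma fr2_trace (W : Matrix n n ℂ) : (W * Wᴴ).trace = ((fr2 W : ℝ) : ℂ) := by
  unfold Matrix.trace fr2
  push_cast
  refine Finset.sum_congr rfl fun s _ => ?_
  rw [Matrix.diag_apply, Matrix.mul_apply]
  refine Finset.sum_congr rfl fun t _ => ?_
  rw [Matrix.conjTranspose_apply, RCLike.star_def, RCLike.mul_conj]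
  norm_cast

open scoped Matrix.Norms.L2Operator in
/-- A generalised Hölder inequality for the Frobenius norm, by the layer cake decomposition. -/
theorem frob_op (U : Matrix n n ℂ) (hU : Uᴴ * U = 1) (l : n → ℝ) (hl : ∀ j, 0 ≤ l j) {M : ℕ}
    (hM : 1 ≤ M) (C : Fin M → Matrix n n ℂ) :
    fr2 (op fun t => (U * Matrix.diagonal (fun j => (l j : ℂ)) * Uᴴ) * C t) ≤
      (∑ j, l j ^ (2 * M)) * (∏ t, ‖C t‖) ^ 2 := by
  obtain ⟨m, c, A, hc, hA, hlA, -⟩ := layer _ l hl le_rfl
  -- decomposition of `G`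
  have hG : U * Matrix.diagonal (fun j => (l j : ℂ)) * Uᴴ = ∑ k, (c k : ℂ) • sp U (A k) := by
    have h1 : (Matrix.diagonal (fun j => (l j : ℂ)) : Matrix n n ℂ) =
        ∑ k, (c k : ℂ) • Matrix.diagonal (ind (A k)) := by
      ext i j
      rw [Matrix.sum_apply]
      by_cases hij : i = j
      · subst hij
        simp only [Matrix.diagonal_apply_eq, Matrix.smul_apply, smul_eq_mul]
        rw [hlA i]
        push_cast
        refine Finset.sum_congr rfl fun k _ => ?_
        unfold ind
        split_ifs <;> simp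
      · simp [Matrix.diagonal_apply_ne _ hij]
    rw [h1]
    unfold sp
    rw [Finset.mul_sum, Finset.sum_mul]
    refine Finset.sum_congr rfl fun k _ => ?_
    rw [Matrix.mul_smul, Matrix.smul_mul]
  set Q : (Fin M → Fin m) → Matrix n n ℂ := fun K => op fun t => sp U (A (K t)) * C t with hQ
  set a : (Fin M → Fin m) → ℝ := fun K => ∏ t, c (K t) with ha
  have ha0 : ∀ K, 0 ≤ a K := fun K => Finset.prod_nonneg fun t _ => hc _
  have hW : (op fun t => (U * Matrix.diagonal (fun j => (l j : ℂ)) * Uᴴ) * C t) =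
      ∑ K, (a K : ℂ) • Q K := by
    rw [hG]
    have h1 : (fun t => (∑ k, (c k : ℂ) • sp U (A k)) * C t) =
        fun t => ∑ k, (c k : ℂ) • (sp U (A k) * C t) := by
      funext t
      rw [Finset.sum_mul]
      exact Finset.sum_congr rfl fun k _ => Matrix.smul_mul _ _ _
    rw [h1, op_sum]
    refine Finset.sum_congr rfl fun K _ => ?_
    rw [op_smul, ha, hQ]
    push_cast
    rfl
  set w : (Fin M → Fin m) → n → ℝ := fun K j => ∏ t, (if j ∈ A (K t) then (1 : ℝ) else 0) with hw
  have hw01 : ∀ K j, 0 ≤ w K j := fun K j => Finset.prod_nonneg fun t _ => by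
    split_ifs <;> norm_num
  -- the trace bound
  have key : ∀ K K', ‖(Q K * (Q K')ᴴ).trace‖ ≤ (∑ j, w K j * w K' j) * (∏ t, ‖C t‖) ^ 2 := by
    intro K K'
    have hQn : ∀ K, ‖Q K‖ ≤ ∏ t, ‖C t‖ := fun K => norm_op_PC _ _ fun t => norm_sp U hU _
    have hne : Nonempty (Fin M ⊕ Fin M) := ⟨Sum.inl ⟨0, hM⟩⟩
    obtain ⟨s, -, hs⟩ := Finset.exists_min_image (univ : Finset (Fin M ⊕ Fin M))
      (fun s => (A (Sum.elim K K' s)).card) ⟨Classical.choice hne, mem_univ _⟩
    have hsub : ∀ s', A (Sum.elim K K' s) ⊆ A (Sum.elim K K' s') := by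
      intro s'
      rcases hA (Sum.elim K K' s) (Sum.elim K K' s') with h | h
      · exact h
      · exact (Finset.eq_of_subset_of_card_le h (hs s' (mem_univ _))).ge
    have hcard : ((A (Sum.elim K K' s)).card : ℝ) ≤ ∑ j, w K j * w K' j := by
      have h1 : ((A (Sum.elim K K' s)).card : ℝ) = ∑ j ∈ A (Sum.elim K K' s), (1 : ℝ) := by simp
      rw [h1]
      refine le_trans (Finset.sum_le_sum fun j hj => ?_)
        (Finset.sum_le_sum_of_subset_of_nonneg (Finset.subset_univ _)
          fun j _ _ => mul_nonneg (hw01 _ _) (hw01 _ _))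
      have h2 : w K j = 1 := by
        rw [hw]
        apply Finset.prod_eq_one
        intro t _
        rw [if_pos]
        exact hsub (Sum.inl t) hj
      have h3 : w K' j = 1 := by
        rw [hw]
        apply Finset.prod_eq_one
        intro t _
        rw [if_pos]
        exact hsub (Sum.inr t) hj
      rw [h2, h3, mul_one]
    have hC0 : 0 ≤ ∏ t, ‖C t‖ := Finset.prod_nonneg fun t _ => norm_nonneg _
    have hmain : ‖(Q K * (Q K')ᴴ).trace‖ ≤ (A (Sum.elim K K' s)).card * (∏ t, ‖C t‖) ^ 2 := by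
      rcases s with i | i
      · obtain ⟨X, Y, h1, h2⟩ := op_split (fun t => sp U (A (K t))) C
          (fun t => norm_sp U hU _) i
        have h3 : Q K = X * sp U (A (K i)) * Y := h1
        rw [h3, mul_assoc _ Y]
        refine (trace_sp U hU _ _ _).trans (mul_le_mul_of_nonneg_left ?_ (Nat.cast_nonneg _))
        calc ‖X‖ * ‖Y * (Q K')ᴴ‖ ≤ ‖X‖ * (‖Y‖ * ‖Q K'‖) := by
              refine mul_le_mul_of_nonneg_left ?_ (norm_nonneg _)
              refine (norm_mul_le _ _).trans ?_
              rw [Matrix.l2_opNorm_conjTranspose]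
          _ = (‖X‖ * ‖Y‖) * ‖Q K'‖ := by ring
          _ ≤ (∏ t, ‖C t‖) * (∏ t, ‖C t‖) := mul_le_mul h2 (hQn K') (norm_nonneg _) hC0
          _ = _ := by ring
      · obtain ⟨X, Y, h1, h2⟩ := op_split (fun t => sp U (A (K' t))) C
          (fun t => norm_sp U hU _) i
        have h3 : Q K' = X * sp U (A (K' i)) * Y := h1
        rw [h3, Matrix.conjTranspose_mul, Matrix.conjTranspose_mul, sp_herm, ← mul_assoc,
          ← mul_assoc]
        refine (trace_sp U hU _ _ _).trans (mul_le_mul_of_nonneg_left ?_ (Nat.cast_nonneg _))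
        calc ‖Q K * Yᴴ‖ * ‖Xᴴ‖ ≤ (‖Q K‖ * ‖Y‖) * ‖X‖ := by
              rw [Matrix.l2_opNorm_conjTranspose X]
              refine mul_le_mul_of_nonneg_right ?_ (norm_nonneg _)
              refine (norm_mul_le _ _).trans ?_
              rw [Matrix.l2_opNorm_conjTranspose]
          _ = ‖Q K‖ * (‖X‖ * ‖Y‖) := by ring
          _ ≤ (∏ t, ‖C t‖) * (∏ t, ‖C t‖) :=
              mul_le_mul (hQn K) h2 (by positivity) hC0
          _ = _ := by ring
    exact hmain.trans (mul_le_mul_of_nonneg_right hcard (by positivity))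
  -- conclusion
  have h1 : fr2 (∑ K, (a K : ℂ) • Q K) ≤
      ∑ K, ∑ K', a K * a K' * ((∑ j, w K j * w K' j) * (∏ t, ‖C t‖) ^ 2) := by
    have h2 : fr2 (∑ K, (a K : ℂ) • Q K) =
        ‖((∑ K, (a K : ℂ) • Q K) * (∑ K, (a K : ℂ) • Q K)ᴴ).trace‖ := by
      rw [fr2_trace, Complex.norm_real, Real.norm_eq_abs, abs_of_nonneg]
      exact Finset.sum_nonneg fun _ _ => Finset.sum_nonneg fun _ _ => by positivity
    rw [h2, Matrix.conjTranspose_sum, Finset.sum_mul_sum, Matrix.trace_sum]
    refine (norm_sum_le _ _).trans (Finset.sum_le_sum fun K _ => ?_)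
    rw [Matrix.trace_sum]
    refine (norm_sum_le _ _).trans (Finset.sum_le_sum fun K' _ => ?_)
    rw [Matrix.conjTranspose_smul, Matrix.smul_mul, Matrix.mul_smul, smul_smul,
      Matrix.trace_smul, norm_smul]
    refine mul_le_mul ?_ (key K K') (norm_nonneg _) (mul_nonneg (ha0 K) (ha0 K'))
    rw [norm_mul, norm_star, Complex.norm_real, Complex.norm_real, Real.norm_eq_abs,
      Real.norm_eq_abs, abs_of_nonneg (ha0 K), abs_of_nonneg (ha0 K')]
  rw [hW]
  refine h1.trans (le_of_eq ?_)
  have h3 : ∀ j, l j ^ M = ∑ K : Fin M → Fin m, a K * w K j := by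
    intro j
    rw [hlA j, Fintype.sum_pow]
    refine Finset.sum_congr rfl fun K _ => ?_
    rw [Finset.prod_mul_distrib]
  have h4 : ∑ j, l j ^ (2 * M) = ∑ j, ∑ K, ∑ K', (a K * w K j) * (a K' * w K' j) := by
    refine Finset.sum_congr rfl fun j _ => ?_
    rw [two_mul, pow_add, h3 j, Finset.sum_mul_sum]
  have h5 : ∑ j, l j ^ (2 * M) = ∑ K, ∑ K', a K * a K' * ∑ j, w K j * w K' j := by
    rw [h4, Finset.sum_comm]
    refine Finset.sum_congr rfl fun K _ => ?_
    rw [Finset.sum_comm]
    refine Finset.sum_congr rfl fun K' _ => ?_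
    rw [Finset.mul_sum]
    refine Finset.sum_congr rfl fun j _ => ?_
    ring
  rw [h5, Finset.sum_mul]
  refine Finset.sum_congr rfl fun K _ => ?_
  rw [Finset.sum_mul]
  refine Finset.sum_congr rfl fun K' _ => ?_
  ring

end proj

end Pool.Agent.TH235.PP
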