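import Pool.Agent.TH235.PP.Hold
import Pool.Agent.TH235.PP.Frob
import Pool.Agent.TH235.PP.Ener

set_option autoImplicit false
set_option linter.unusedSectionVars false

open scoped BigOperators Matrix InnerProductSpace
open Finset

namespace Pool.Agent.TH235.PP

section matrix

variable {n : Type*} [Fintype n] [DecidableEq n]

/-- Frobenius norm -/
noncomputable def fr (W : Matrix n n ℂ) : ℝ :=
  ‖(WithLp.toLp 2 (fun p : n × n => W p.1 p.2) : EuclideanSpace ℂ (n × n))‖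

lemma fr_sq [Nonempty n] (W : Matrix n n ℂ) : fr W ^ 2 = fr2 W := by
  unfold fr fr2
  rw [EuclideanSpace.norm_sq_eq, Fintype.sum_prod_type]

lemma fr_nonneg (W : Matrix n n ℂ) : 0 ≤ fr W := norm_nonneg _

lemma fr_zero : fr (0 : Matrix n n ℂ) = 0 := by
  unfold fr
  have : (WithLp.toLp 2 (fun p : n × n => (0 : Matrix n n ℂ) p.1 p.2) :
      EuclideanSpace ℂ (n × n)) = 0 := by
    ext p; simp
  rw [this, norm_zero]

lemma fr_add (W V : Matrix n n ℂ) : fr (W + V) ≤ fr W + fr V := by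
  unfold fr
  have : (WithLp.toLp 2 (fun p : n × n => (W + V) p.1 p.2) : EuclideanSpace ℂ (n × n)) =
      WithLp.toLp 2 (fun p : n × n => W p.1 p.2) + WithLp.toLp 2 (fun p : n × n => V p.1 p.2) := by
    ext p; simp
  rw [this]
  exact norm_add_le _ _

lemma fr_neg (W : Matrix n n ℂ) : fr (-W) = fr W := by
  unfold fr
  have : (WithLp.toLp 2 (fun p : n × n => (-W) p.1 p.2) : EuclideanSpace ℂ (n × n)) =
      -WithLp.toLp 2 (fun p : n × n => W p.1 p.2) := by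
    ext p; simp
  rw [this, norm_neg]

/-- spectral decomposition of `1 - κ A` -/
lemma spec_dec (A : Matrix n n ℂ) (hA : A.IsHermitian) :
    ∃ U : Matrix n n ℂ, Uᴴ * U = 1 ∧ U * Uᴴ = 1 ∧ ∀ κ : ℝ, (1 : Matrix n n ℂ) - (κ : ℂ) • A =
      U * Matrix.diagonal (fun j => ((1 - κ * hA.eigenvalues j : ℝ) : ℂ)) * Uᴴ := by
  refine ⟨(hA.eigenvectorUnitary : Matrix n n ℂ), ?_, ?_, ?_⟩
  · exact Unitary.coe_star_mul_self hA.eigenvectorUnitary
  · exact Unitary.coe_mul_star_self hA.eigenvectorUnitary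
  · intro κ
    have h1 : (hA.eigenvectorUnitary : Matrix n n ℂ) * (hA.eigenvectorUnitary : Matrix n n ℂ)ᴴ = 1 :=
      Unitary.coe_mul_star_self hA.eigenvectorUnitary
    have h2 : A = (hA.eigenvectorUnitary : Matrix n n ℂ) *
        Matrix.diagonal (fun j => ((hA.eigenvalues j : ℝ) : ℂ)) *
        (hA.eigenvectorUnitary : Matrix n n ℂ)ᴴ := by
      have h3 := hA.spectral_theorem
      rw [Unitary.conjStarAlgAut_apply] at h3
      exact h3
    have h4 : (Matrix.diagonal (fun j => ((1 - κ * hA.eigenvalues j : ℝ) : ℂ)) : Matrix n n ℂ) =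
        1 - (κ : ℂ) • Matrix.diagonal (fun j => ((hA.eigenvalues j : ℝ) : ℂ)) := by
      ext i j
      by_cases hij : i = j
      · subst hij
        simp
      · simp [Matrix.diagonal_apply_ne _ hij, Matrix.one_apply_ne hij]
    rw [h4, mul_sub, sub_mul, mul_one, h1, Matrix.mul_smul, Matrix.smul_mul, ← h2]

variable [Nonempty n]

open scoped Matrix.Norms.L2Operator in
/-- Frobenius norm of the truncated expansion -/
theorem frob_KT (A : Matrix n n ℂ) (hA : A.IsHermitian) (κ : ℝ)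
    (hl : ∀ j, 3 / 4 ≤ 1 - κ * hA.eigenvalues j) {M N : ℕ} (hM1 : 1 ≤ M)
    (y : Fin N → Matrix n n ℂ) (hyG : 1 + ∑ b, y b = 1 - (κ : ℂ) • A) (y0 : ℝ) (hy0 : 0 ≤ y0)
    (hy : ∀ b, ‖y b‖ ≤ y0) (hN : N * y0 ≤ 1 / 4) (r : ℕ)
    (hM : 2 * M * (N * y0) ^ 2 ≤ 1) (hr : N * Real.exp (15 * (M * y0) - r) ≤ 1) :
    fr2 (KT M y r) ≤ 81 * ∑ j, (1 - κ * hA.eigenvalues j) ^ (2 * M) := by
  obtain ⟨U, hU, hU', hdec⟩ := spec_dec A hA
  set l : n → ℝ := fun j => 1 - κ * hA.eigenvalues j with hldef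
  have hl' : ∀ j, 3 / 4 ≤ l j := hl
  have hl0 : ∀ j, 0 ≤ l j := fun j => by linarith [hl' j]
  set G : Matrix n n ℂ := U * Matrix.diagonal (fun j => ((l j : ℝ) : ℂ)) * Uᴴ with hG
  set Gi : Matrix n n ℂ := U * Matrix.diagonal (fun j => (((l j)⁻¹ : ℝ) : ℂ)) * Uᴴ with hGi
  have hGG : G * Gi = 1 := by
    rw [hG, hGi]
    calc U * Matrix.diagonal (fun j => ((l j : ℝ) : ℂ)) * Uᴴ *
          (U * Matrix.diagonal (fun j => (((l j)⁻¹ : ℝ) : ℂ)) * Uᴴ)
        = U * (Matrix.diagonal (fun j => ((l j : ℝ) : ℂ)) * (Uᴴ * U) *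
          Matrix.diagonal (fun j => (((l j)⁻¹ : ℝ) : ℂ))) * Uᴴ := by simp only [mul_assoc]
      _ = 1 := by
        rw [hU, mul_one, Matrix.diagonal_mul_diagonal]
        have : (fun i => ((l i : ℝ) : ℂ) * (((l i)⁻¹ : ℝ) : ℂ)) = fun _ => 1 := by
          funext i
          rw [← Complex.ofReal_mul, mul_inv_cancel₀ (by linarith [hl' i]), Complex.ofReal_one]
        rw [this, Matrix.diagonal_one, mul_one, hU']
  have hGG' : Gi * G = 1 := by
    rw [hG, hGi]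
    calc U * Matrix.diagonal (fun j => (((l j)⁻¹ : ℝ) : ℂ)) * Uᴴ *
          (U * Matrix.diagonal (fun j => ((l j : ℝ) : ℂ)) * Uᴴ)
        = U * (Matrix.diagonal (fun j => (((l j)⁻¹ : ℝ) : ℂ)) * (Uᴴ * U) *
          Matrix.diagonal (fun j => ((l j : ℝ) : ℂ))) * Uᴴ := by simp only [mul_assoc]
      _ = 1 := by
        rw [hU, mul_one, Matrix.diagonal_mul_diagonal]
        have : (fun i => (((l i)⁻¹ : ℝ) : ℂ) * ((l i : ℝ) : ℂ)) = fun _ => 1 := by
          funext i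
          rw [← Complex.ofReal_mul, inv_mul_cancel₀ (by linarith [hl' i]), Complex.ofReal_one]
        rw [this, Matrix.diagonal_one, mul_one, hU']
  have hUn := norm_unit U hU
  have hGin : ‖Gi‖ ≤ 4 / 3 := by
    have h2 : ‖(Matrix.diagonal (fun j => (((l j)⁻¹ : ℝ) : ℂ)) : Matrix n n ℂ)‖ ≤ 4 / 3 := by
      rw [Matrix.l2_opNorm_diagonal, pi_norm_le_iff_of_nonneg (by norm_num)]
      intro j
      rw [Complex.norm_real, Real.norm_eq_abs, abs_of_nonneg (inv_nonneg.2 (hl0 j))]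
      rw [inv_le_comm₀ (by linarith [hl' j]) (by norm_num)]
      linarith [hl' j]
    rw [hGi]
    calc _ ≤ ‖U‖ * ‖(Matrix.diagonal (fun j => (((l j)⁻¹ : ℝ) : ℂ)) : Matrix n n ℂ)‖ * ‖Uᴴ‖ :=
          (norm_mul_le _ _).trans (mul_le_mul_of_nonneg_right (norm_mul_le _ _) (norm_nonneg _))
      _ ≤ 1 * (4 / 3) * 1 := by
          rw [Matrix.l2_opNorm_conjTranspose]
          exact mul_le_mul (mul_le_mul hUn h2 (norm_nonneg _) zero_le_one) hUn (norm_nonneg _)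
            (by norm_num)
      _ = 4 / 3 := by norm_num
  have hS0 : 0 ≤ ∑ j, l j ^ (2 * M) := Finset.sum_nonneg fun j _ => pow_nonneg (hl0 j) _
  have hνp : ∀ z : Fin M → Matrix n n ℂ,
      fr (op z) ≤ Real.sqrt (∑ j, l j ^ (2 * M)) * ∏ t, ‖Gi * z t‖ := by
    intro z
    have e : op z = op fun t => G * (Gi * z t) := by
      congr 1
      funext t
      rw [← mul_assoc, hGG, one_mul]
    have h1 := frob_op U hU l hl0 hM1 fun t => Gi * z t
    rw [← hG, ← e] at h1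
    apply le_of_sq_le_sq _ (mul_nonneg (Real.sqrt_nonneg _)
      (Finset.prod_nonneg fun t _ => norm_nonneg _))
    rw [fr_sq, mul_pow, Real.sq_sqrt hS0]
    exact h1
  have h := frob_bound (fun a => ‖Gi * a‖) fr (fun a => norm_nonneg _)
    (fun a b => by rw [mul_add]; exact norm_add_le _ _)
    (fun a => (norm_mul_le _ _).trans (mul_le_mul_of_nonneg_right hGin (norm_nonneg _)))
    fr_zero fr_add fr_neg (Real.sqrt (∑ j, l j ^ (2 * M))) (Real.sqrt_nonneg _) hνp y y0 hy0 hy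
    (by rw [hyG, hdec κ, hGG', norm_one]) hN r hM hr
  have h2 := pow_le_pow_left₀ (fr_nonneg _) h 2
  rw [fr_sq, mul_pow, Real.sq_sqrt hS0] at h2
  linarith

open scoped Matrix.Norms.L2Operator in
/-- the adjoint of the truncated expansion nearly preserves the ground state -/
theorem over_KT (A : Matrix n n ℂ) (hA : A.IsHermitian) (κ E g : ℝ) (Ψ : n → ℂ)
    (hΨ : normSq Ψ = 1) (hE : A *ᵥ Ψ = (E : ℂ) • Ψ) (hg : g = 1 - κ * E) (hg0 : 0 < g) (M : ℕ)
    (K0 : Matrix n n ℂ) (hK : ‖K0 - ((1 : Matrix n n ℂ) - (κ : ℂ) • A) ^ M‖ ≤ g ^ M / 2) :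
    g ^ (2 * M) / 4 ≤ ∑ t, ‖ip Ψ (fun s => K0 s t)‖ ^ 2 := by
  set G : Matrix n n ℂ := (1 : Matrix n n ℂ) - (κ : ℂ) • A with hG
  have hGh : G.IsHermitian := by
    rw [hG]
    refine Matrix.isHermitian_one.sub ?_
    unfold Matrix.IsHermitian
    rw [Matrix.conjTranspose_smul, hA.eq]
    simp
  have hn : nr Ψ = 1 := by
    have h1 := nr_sq Ψ
    rw [hΨ] at h1
    have h2 := nr_nonneg Ψ
    nlinarith only [h1, h2]
  have hGΨ : G *ᵥ Ψ = (g : ℂ) • Ψ := by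
    rw [hG, Matrix.sub_mulVec, Matrix.one_mulVec, Matrix.smul_mulVec, hE, smul_smul, hg]
    push_cast
    rw [sub_smul, one_smul]
  have hGM : (G ^ M)ᴴ *ᵥ Ψ = ((g : ℂ) ^ M) • Ψ := by
    rw [Matrix.conjTranspose_pow, hGh.eq]
    exact pow_eig G Ψ _ hGΨ M
  have h1 : ∑ t, ‖ip Ψ (fun s => K0 s t)‖ ^ 2 = nr (K0ᴴ *ᵥ Ψ) ^ 2 := by
    rw [nr_sq]
    unfold normSq
    refine Finset.sum_congr rfl fun t _ => ?_
    congr 1
    have : (K0ᴴ *ᵥ Ψ) t = (starRingEnd ℂ) (ip Ψ (fun s => K0 s t)) := by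
      unfold Matrix.mulVec dotProduct ip
      rw [map_sum]
      refine Finset.sum_congr rfl fun s _ => ?_
      change star (K0 s t) * Ψ s = (starRingEnd ℂ) ((starRingEnd ℂ) (Ψ s) * K0 s t)
      rw [map_mul, Complex.conj_conj, mul_comm]
      rfl
    rw [this, RCLike.norm_conj]
  have h2 : g ^ M / 2 ≤ nr (K0ᴴ *ᵥ Ψ) := by
    have h3 : nr ((G ^ M)ᴴ *ᵥ Ψ) = g ^ M := by
      rw [hGM, nr_smul, hn, mul_one, norm_pow, Complex.norm_real, Real.norm_eq_abs,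
        abs_of_pos hg0]
    have h4 : nr ((K0 - G ^ M)ᴴ *ᵥ Ψ) ≤ g ^ M / 2 := by
      refine (nr_mulVec _ _).trans ?_
      rw [hn, mul_one, Matrix.l2_opNorm_conjTranspose]
      exact hK
    have h5 : (G ^ M)ᴴ *ᵥ Ψ = K0ᴴ *ᵥ Ψ + (-1 : ℂ) • ((K0 - G ^ M)ᴴ *ᵥ Ψ) := by
      rw [Matrix.conjTranspose_sub, Matrix.sub_mulVec, neg_smul, one_smul]
      abel
    have h6 := nr_add (K0ᴴ *ᵥ Ψ) ((-1 : ℂ) • ((K0 - G ^ M)ᴴ *ᵥ Ψ))
    rw [← h5, h3, nr_smul] at h6
    simp only [norm_neg, norm_one, one_mul] at h6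
    linarith
  rw [h1]
  have h3 := pow_le_pow_left₀ (by positivity) h2 2
  refine le_trans (le_of_eq ?_) h3
  rw [div_pow, ← pow_mul, mul_comm M 2]
  norm_num

end matrix

/-- averaging -/
lemma avg {ι : Type*} [Fintype ι] (a b : ι → ℝ) (θ S : ℝ)
    (hb : ∀ t, 0 ≤ b t) (hab : ∀ t, b t = 0 → a t = 0) (hS : 0 < S) (h1 : S ≤ ∑ t, a t)
    (h2 : θ * ∑ t, b t ≤ S) : ∃ t, 0 < b t ∧ θ * b t ≤ a t := by
  by_contra hcon
  push Not at hcon
  have hle : ∀ t, a t ≤ θ * b t := by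
    intro t
    rcases (hb t).lt_or_eq with h | h
    · exact (hcon t h).le
    · rw [hab t h.symm, ← h, mul_zero]
  obtain ⟨t, ht⟩ : ∃ t, 0 < b t := by
    by_contra hc
    push Not at hc
    have h3 : ∀ t, a t = 0 := fun t => hab t (le_antisymm (hc t) (hb t))
    have h4 : ∑ t, a t = 0 := Finset.sum_eq_zero fun t _ => h3 t
    linarith
  have hlt : ∑ t, a t < ∑ t, θ * b t :=
    Finset.sum_lt_sum (fun t _ => hle t) ⟨t, mem_univ t, hcon t ht⟩
  rw [← Finset.mul_sum] at hlt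
  linarith

end Pool.Agent.TH235.PP
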