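import Mathlib

set_option autoImplicit false

namespace Pool.Agent.TH235.PP

lemma exp_four : Real.exp (-4) ≤ 1 / 24 := by
  have h1 : (24 : ℝ) ≤ Real.exp 4 := by
    have h2 := Real.exp_one_gt_d9
    have h3 : Real.exp 4 = (Real.exp 1) ^ 4 := by rw [← Real.exp_nat_mul]; norm_num
    rw [h3]
    have h4 : (2.7 : ℝ) ^ 4 ≤ (Real.exp 1) ^ 4 := pow_le_pow_left₀ (by norm_num) (by linarith) 4
    norm_num at h4
    linarith
  rw [Real.exp_neg, inv_eq_one_div]
  exact one_div_le_one_div_of_le (by norm_num) h1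

lemma exp_two : Real.exp (-2) ≤ 1 / 4 := by
  have h1 : (4 : ℝ) ≤ Real.exp 2 := by
    have h2 := Real.exp_one_gt_d9
    have h3 : Real.exp 2 = (Real.exp 1) ^ 2 := by rw [← Real.exp_nat_mul]; norm_num
    rw [h3]; nlinarith
  rw [Real.exp_neg, inv_eq_one_div]
  exact one_div_le_one_div_of_le (by norm_num) h1

lemma exp_three : (17 : ℝ) ≤ Real.exp 3 := by
  have h4 := Real.exp_one_gt_d9
  have h5 : Real.exp 3 = (Real.exp 1) ^ 3 := by rw [← Real.exp_nat_mul]; norm_num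
  rw [h5]
  have h6 : (2.7 : ℝ) ^ 3 ≤ (Real.exp 1) ^ 3 := pow_le_pow_left₀ (by norm_num) (by linarith) 3
  norm_num at h6
  linarith

/-- choice of the number of time steps -/
lemma par_M (B N Θ : ℝ) (hB : 0 ≤ B) (hN : 1 ≤ N) (hΘ : 0 ≤ Θ) :
    ∃ M : ℕ, 1 ≤ M ∧ (N * B) / M ≤ 1 / 4 ∧ (N * B) ^ 2 / M ≤ Real.exp (-Θ) / 16 ∧
      (M : ℝ) ≤ 17 * (N * (B + 1)) ^ 2 * Real.exp Θ := by
  set X : ℝ := N * (B + 1) with hX
  have hX1 : 1 ≤ X := by
    rw [hX]; nlinarith only [hB, hN, mul_nonneg (by linarith : (0:ℝ) ≤ N) hB]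
  have hX2 : 1 ≤ X ^ 2 := one_le_pow₀ hX1
  have hXX : X ≤ X ^ 2 := by nlinarith only [hX1]
  have he : 1 ≤ Real.exp Θ := Real.one_le_exp hΘ
  have hXe : X ^ 2 ≤ X ^ 2 * Real.exp Θ := le_mul_of_one_le_right (by positivity) he
  set M : ℕ := ⌈16 * X ^ 2 * Real.exp Θ⌉₊ with hM
  have hM1 : 16 * X ^ 2 * Real.exp Θ ≤ M := Nat.le_ceil _
  have hM16 : (16 : ℝ) ≤ M := by linarith
  have hM0 : (0 : ℝ) < M := by linarith
  have hNB : N * B ≤ X := by rw [hX]; linarith [mul_comm N B, show N * (B + 1) = N * B + N by ring]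
  have hNB0 : 0 ≤ N * B := by positivity
  refine ⟨M, by exact_mod_cast (by linarith : (1 : ℝ) ≤ M), ?_, ?_, ?_⟩
  · rw [div_le_iff₀ hM0]
    linarith
  · rw [div_le_iff₀ hM0]
    have h3 : Real.exp (-Θ) / 16 * (16 * X ^ 2 * Real.exp Θ) = X ^ 2 := by
      have : Real.exp (-Θ) * Real.exp Θ = 1 := by rw [← Real.exp_add]; simp
      calc Real.exp (-Θ) / 16 * (16 * X ^ 2 * Real.exp Θ)
          = X ^ 2 * (Real.exp (-Θ) * Real.exp Θ) := by ring
        _ = X ^ 2 := by rw [this, mul_one]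
    calc (N * B) ^ 2 ≤ X ^ 2 := pow_le_pow_left₀ hNB0 hNB 2
      _ = Real.exp (-Θ) / 16 * (16 * X ^ 2 * Real.exp Θ) := h3.symm
      _ ≤ Real.exp (-Θ) / 16 * M := mul_le_mul_of_nonneg_left hM1 (by positivity)
  · have h1 := (Nat.ceil_lt_add_one (show (0 : ℝ) ≤ 16 * X ^ 2 * Real.exp Θ by positivity)).le
    rw [← hM] at h1
    linarith

lemma par_Mexp (B N Θ lam M : ℝ) (hB : 0 ≤ B) (hN : N = Real.exp (2 * lam))
    (hM : M ≤ 17 * (N * (B + 1)) ^ 2 * Real.exp Θ) :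
    M ≤ Real.exp (3 + 4 * lam + 2 * B + Θ) := by
  have h1 : N * (B + 1) ≤ Real.exp (2 * lam + B) := by
    rw [hN, Real.exp_add]
    exact mul_le_mul_of_nonneg_left (Real.add_one_le_exp _) (Real.exp_pos _).le
  have h0 : 0 ≤ N * (B + 1) := by rw [hN]; positivity
  have h2 : (N * (B + 1)) ^ 2 ≤ Real.exp (4 * lam + 2 * B) := by
    calc (N * (B + 1)) ^ 2 ≤ (Real.exp (2 * lam + B)) ^ 2 := pow_le_pow_left₀ h0 h1 2
      _ = _ := by rw [← Real.exp_nat_mul]; congr 1; push_cast; ring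
  calc M ≤ 17 * (N * (B + 1)) ^ 2 * Real.exp Θ := hM
    _ ≤ Real.exp 3 * Real.exp (4 * lam + 2 * B) * Real.exp Θ := by
        refine mul_le_mul_of_nonneg_right ?_ (Real.exp_pos _).le
        exact mul_le_mul exp_three h2 (by positivity) (Real.exp_pos _).le
    _ = _ := by rw [← Real.exp_add, ← Real.exp_add]; congr 1; ring

/-- bounds for the exponents of the bond dimension -/
lemma par_bond (B Θ lam J Δ M : ℝ) (P : ℕ) (hJ : 0 ≤ J) (hΔ : 0 < Δ) (hΘ : 0 ≤ Θ)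
    (hlam : 1 / 2 ≤ lam) (hB : B = 2 / Δ * (Θ + 2) * J) (hM1 : 1 ≤ M)
    (hM : M ≤ Real.exp (3 + 4 * lam + 2 * B + Θ)) :
    M * P + 1 ≤ Real.exp ((13 + 2 * P + 16 * J / Δ) * (lam + Θ)) ∧
      13 * B + 2 * lam + Θ + 5 ≤ (13 + 104 * J / Δ) * (lam + Θ) := by
  set s : ℝ := lam + Θ with hs
  have hs2 : 1 / 2 ≤ s := by rw [hs]; linarith
  have hP0 : (0 : ℝ) ≤ P := Nat.cast_nonneg _
  have hBs : B ≤ 8 * J / Δ * s := by
    have h1 : Θ + 2 ≤ 4 * s := by rw [hs]; linarith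
    calc B = (2 * J / Δ) * (Θ + 2) := by rw [hB]; field_simp
      _ ≤ (2 * J / Δ) * (4 * s) := mul_le_mul_of_nonneg_left h1 (by positivity)
      _ = 8 * J / Δ * s := by ring
  constructor
  · have h2 : ((P : ℝ) + 1) ≤ Real.exp P := Real.add_one_le_exp _
    calc M * P + 1 ≤ M * (P + 1) := by linarith [show M * ((P : ℝ) + 1) = M * P + M by ring]
      _ ≤ Real.exp (3 + 4 * lam + 2 * B + Θ) * Real.exp P :=
          mul_le_mul hM h2 (by positivity) (Real.exp_pos _).le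
      _ = Real.exp (3 + 4 * lam + 2 * B + Θ + P) := (Real.exp_add _ _).symm
      _ ≤ _ := by
          apply Real.exp_le_exp.2
          have h3 : (P : ℝ) ≤ 2 * P * s := by
            have := mul_le_mul_of_nonneg_left hs2 hP0
            linarith
          have h4 : 2 * B ≤ 16 * J / Δ * s := by
            have : 16 * J / Δ * s = 2 * (8 * J / Δ * s) := by ring
            rw [this]; linarith
          have h5 : (13 + 2 * P + 16 * J / Δ) * s = 13 * s + 2 * P * s + 16 * J / Δ * s := by ring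
          rw [h5]
          have h6 : 3 + 4 * lam + Θ ≤ 13 * s := by rw [hs] at hs2 ⊢; linarith
          linarith
  · have h1 : 13 * B ≤ 104 * J / Δ * s := by
      have : 104 * J / Δ * s = 13 * (8 * J / Δ * s) := by ring
      rw [this]; linarith
    have h2 : (13 + 104 * J / Δ) * s = 13 * s + 104 * J / Δ * s := by ring
    rw [h2]
    have h3 : 2 * lam + Θ + 5 ≤ 13 * s := by rw [hs] at hs2 ⊢; linarith
    linarith

end Pool.Agent.TH235.PP
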