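import Pool.Agent.TH235.PP.Asm
import Pool.Agent.TH235.PP.Spec
import Pool.Agent.TH235.PP.Par

set_option autoImplicit false
set_option linter.unusedSectionVars false

open scoped BigOperators Matrix InnerProductSpace
open Finset

namespace Pool.Agent.TH235.PP

lemma card_site (L : ℕ) [NeZero L] : Fintype.card (Site L) = L ^ 2 := by
  rw [Fintype.card_prod, ZMod.card]; ring

/-- cardinality of the virtual index set -/
lemma card_bd {d R' : ℕ} (D0 M r : ℕ) (u ρ : ℝ) (hu : 0 ≤ u)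
    (h1 : ((M * Fintype.card (Lm d (R' + 1)) + 1 : ℕ) : ℝ) ≤ Real.exp u) (h2 : (r : ℝ) ≤ ρ) :
    ((Fintype.card (Fin D0 × (Fin (R' + 1) × Fin (R' + 1) → Lab d (R' + 1) M r)) : ℕ) : ℝ) ≤
      D0 * Real.exp (u * ρ * ((R' + 1 : ℕ) : ℝ) ^ 2) := by
  rw [Fintype.card_prod, Fintype.card_fin, Fintype.card_fun, Fintype.card_prod, Fintype.card_fin]
  generalize hq : Fintype.card (Lab d (R' + 1) M r) = q
  have h4 : (q : ℝ) ≤ (((M * Fintype.card (Lm d (R' + 1)) + 1) ^ r : ℕ) : ℝ) := by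
    rw [← hq]
    exact_mod_cast card_lab (d := d) (R' + 1) M r
  have h3 : (q : ℝ) ≤ Real.exp (u * ρ) := by
    refine h4.trans ?_
    rw [Nat.cast_pow]
    calc ((M * Fintype.card (Lm d (R' + 1)) + 1 : ℕ) : ℝ) ^ r ≤ (Real.exp u) ^ r :=
          pow_le_pow_left₀ (Nat.cast_nonneg _) h1 r
      _ = Real.exp (r * u) := (Real.exp_nat_mul u r).symm
      _ ≤ Real.exp (u * ρ) := by
          apply Real.exp_le_exp.2
          rw [mul_comm]
          exact mul_le_mul_of_nonneg_left h2 hu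
  rw [Nat.cast_mul, Nat.cast_pow]
  refine mul_le_mul_of_nonneg_left ?_ (Nat.cast_nonneg _)
  calc (q : ℝ) ^ ((R' + 1) * (R' + 1))
      ≤ (Real.exp (u * ρ)) ^ ((R' + 1) * (R' + 1)) := pow_le_pow_left₀ (Nat.cast_nonneg _) h3 _
    _ = Real.exp (u * ρ * ((R' + 1 : ℕ) : ℝ) ^ 2) := by
        rw [← Real.exp_nat_mul]
        congr 1
        push_cast
        ring

section core

variable {d R' L : ℕ} [NeZero L]

lemma nonempty_of_normSq (Ψ : (Site L → Fin d) → ℂ) (hΨ : normSq Ψ = 1) :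
    Nonempty (Site L → Fin d) := by
  by_contra hcon
  rw [not_nonempty_iff] at hcon
  unfold normSq at hΨ
  rw [Finset.univ_eq_empty, Finset.sum_empty] at hΨ
  exact zero_ne_one hΨ

lemma nr_one {n : Type*} [Fintype n] [DecidableEq n] (φ : n → ℂ) (h : normSq φ = 1) : nr φ = 1 := by
  have h1 := nr_sq φ
  rw [h] at h1
  have h2 := nr_nonneg φ
  nlinarith only [h1, h2]

lemma ip_le_one {n : Type*} [Fintype n] [DecidableEq n] (Ψ φ : n → ℂ) (h1 : nr Ψ = 1)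
    (h2 : nr φ = 1) : ‖ip Ψ φ‖ ≤ 1 := by
  rw [ip_eq]
  refine (norm_inner_le_norm _ _).trans ?_
  have k1 : ‖(WithLp.toLp 2 Ψ : EuclideanSpace ℂ n)‖ = 1 := h1
  have k2 : ‖(WithLp.toLp 2 φ : EuclideanSpace ℂ n)‖ = 1 := h2
  rw [k1, k2, mul_one]

open scoped Matrix.Norms.L2Operator in
/-- The truncated power method. -/
lemma core (h : BoxOp d (R' + 1)) (hh : h.IsHermitian) (Δ : ℝ) (hΔ : 0 < Δ)
    (Ψ : (Site L → Fin d) → ℂ) (hΨ : normSq Ψ = 1) (hgr : IsGappedGround (ham h L) Δ Ψ)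
    {K : Type*} [Fintype K] (A0 : Site L → Fin d → K → K → K → K → ℂ)
    (hφ : nr (contract A0) = 1) (M r : ℕ) (κ y0 : ℝ) (hκ : 0 ≤ κ) (hy0 : y0 = κ * nJ h)
    (hNy : ((L ^ 2 : ℕ) : ℝ) * y0 ≤ 1 / 4) (hM : 2 * M * (((L ^ 2 : ℕ) : ℝ) * y0) ^ 2 ≤ 1)
    (hr : ((L ^ 2 : ℕ) : ℝ) * Real.exp (13 * (M * y0) - r) ≤ 1) :
    ∃ g : ℝ, 0 < g ∧
    ∃ A : Site L → Fin d → (K × (Fin (R' + 1) × Fin (R' + 1) → Lab d (R' + 1) M r)) →
      (K × (Fin (R' + 1) × Fin (R' + 1) → Lab d (R' + 1) M r)) →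
      (K × (Fin (R' + 1) × Fin (R' + 1) → Lab d (R' + 1) M r)) →
      (K × (Fin (R' + 1) × Fin (R' + 1) → Lab d (R' + 1) M r)) → ℂ,
      nr (contract A - ((g : ℂ) ^ M * ip Ψ (contract A0)) • Ψ) ≤
        g ^ M * (6 * (((L ^ 2 : ℕ) : ℝ) * Real.exp (13 * (M * y0) - r)) +
          4 * (M * (((L ^ 2 : ℕ) : ℝ) * y0) ^ 2) + Real.exp (-(κ * M * Δ / 2))) := by
  have hne := nonempty_of_normSq Ψ hΨ
  have hnt : Nontrivial (TorOp d L) := inferInstance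
  have hJ0 := nJ_nonneg h
  have hy00 : 0 ≤ y0 := by rw [hy0]; positivity
  obtain ⟨e⟩ : Nonempty (Fin (L ^ 2) ≃ Site L) := by
    rw [← Fintype.card_eq, Fintype.card_fin, card_site]
  have hAn : κ * ‖ham h L‖ ≤ 1 / 4 := by
    refine le_trans ?_ hNy
    have h1 : ‖ham h L‖ ≤ (L : ℝ) ^ 2 * nJ h := norm_ham h
    calc κ * ‖ham h L‖ ≤ κ * ((L : ℝ) ^ 2 * nJ h) := mul_le_mul_of_nonneg_left h1 hκ
      _ = ((L ^ 2 : ℕ) : ℝ) * y0 := by rw [hy0]; push_cast; ring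
  obtain ⟨g, hg34, hgn, hsp⟩ := spec (ham h L) (ham_herm h hh) Δ hΔ Ψ hΨ hgr κ hκ hAn
  have hg0 : 0 < g := by linarith
  set y : Fin (L ^ 2) → TorOp d L := fun b => ((-κ : ℝ) : ℂ) • term h (e b) with hy
  have hyn : ∀ b, ‖y b‖ ≤ y0 := by
    intro b
    rw [hy]
    simp only []
    rw [norm_smul, Complex.norm_real, Real.norm_eq_abs, abs_neg, abs_of_nonneg hκ, hy0]
    exact mul_le_mul_of_nonneg_left (norm_term h (e b)) hκ
  have hG : 1 + ∑ b, y b = 1 - (κ : ℂ) • ham h L := by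
    rw [hy]
    simp only []
    rw [← Finset.smul_sum]
    have : ∑ b, term h (e b) = ham h L := by
      unfold ham
      exact e.sum_comp (fun u => term h u)
    rw [this]
    push_cast
    rw [neg_smul, sub_eq_add_neg]
  have htr := trunc_bound (M := M) y y0 g hy00 hyn (by rw [hG]; exact hgn) (by linarith) hNy r
    hM hr
  rw [hG] at htr
  obtain ⟨A, hA⟩ := peps_apply A0 ((-κ : ℝ) : ℂ) h e M r
  refine ⟨g, hg0, A, ?_⟩
  have e1 : contract A - ((g : ℂ) ^ M * ip Ψ (contract A0)) • Ψ =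
      ((KT M y r - (1 - (κ : ℂ) • ham h L) ^ M) *ᵥ contract A0) +
        ((1 - (κ : ℂ) • ham h L) ^ M *ᵥ contract A0 -
          ((g : ℂ) ^ M * ip Ψ (contract A0)) • Ψ) := by
    rw [Matrix.sub_mulVec, ← hA]
    abel
  rw [e1]
  refine (nr_add _ _).trans ?_
  have h1 : nr ((KT M y r - (1 - (κ : ℂ) • ham h L) ^ M) *ᵥ contract A0) ≤
      g ^ M * (6 * (((L ^ 2 : ℕ) : ℝ) * Real.exp (13 * (M * y0) - r)) +
        4 * (M * (((L ^ 2 : ℕ) : ℝ) * y0) ^ 2)) := by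
    refine (nr_mulVec _ _).trans ?_
    rw [hφ, mul_one]
    exact htr
  have h2 := hsp M (contract A0)
  rw [hφ, mul_one] at h2
  refine (add_le_add h1 h2).trans (le_of_eq ?_)
  ring

end core

/-- Amplification of the overlap: quantitative form. -/
theorem quant (d R' : ℕ) (h : BoxOp d (R' + 1)) (hh : h.IsHermitian) (Δ : ℝ) (hΔ : 0 < Δ) :
    ∃ C : ℝ, 0 < C ∧ ∀ (L : ℕ) [NeZero L], 2 ≤ L → ∀ Ψ : (Site L → Fin d) → ℂ, normSq Ψ = 1 →
      IsGappedGround (ham h L) Δ Ψ → ∀ (D0 : ℕ) (φ : (Site L → Fin d) → ℂ), IsPEPS D0 φ →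
      normSq φ = 1 → ∀ η ε : ℝ, 0 < η → η ≤ ‖ip Ψ φ‖ → 0 < ε → ε ≤ 1 →
      ∃ (D : ℕ) (ψ : (Site L → Fin d) → ℂ),
        (D : ℝ) ≤ D0 * Real.exp (C * (Real.log L + Real.log (1 / (η * ε))) ^ 2) ∧
        IsPEPS D ψ ∧ nr (ψ - Ψ) ≤ ε := by
  have hJ0 : 0 ≤ nJ h := nJ_nonneg h
  generalize hJ : nJ h = J at hJ0
  generalize hP : Fintype.card (Lm d (R' + 1)) = P
  refine ⟨(13 + 2 * P + 16 * J / Δ) * (13 + 104 * J / Δ) * ((R' + 1 : ℕ) : ℝ) ^ 2, by positivity, ?_⟩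
  intro L _ hL Ψ hΨ hgr D0 φ hφ hφ1 η ε hη hηφ hε hε1
  have hnrφ : nr φ = 1 := nr_one φ hφ1
  have hη1 : η ≤ 1 := hηφ.trans (ip_le_one Ψ φ (nr_one Ψ hΨ) hnrφ)
  have hηε : 0 < η * ε := by positivity
  have hηε1 : η * ε ≤ 1 := mul_le_one₀ hη1 hε.le hε1
  have hΘ0 : 0 ≤ Real.log (1 / (η * ε)) := Real.log_nonneg (by rw [le_div_iff₀ hηε]; linarith)
  have hexpΘ : Real.exp (-Real.log (1 / (η * ε))) = η * ε := by
    rw [one_div, Real.log_inv, neg_neg, Real.exp_log hηε]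
  generalize Real.log (1 / (η * ε)) = Θ at hΘ0 hexpΘ ⊢
  have hL2 : (2 : ℝ) ≤ L := by exact_mod_cast hL
  have hlam0 : 1 / 2 ≤ Real.log L := by
    have h1 : Real.log 2 ≤ Real.log L := Real.log_le_log (by norm_num) hL2
    have := Real.log_two_gt_d9
    linarith
  have hNexp : ((L ^ 2 : ℕ) : ℝ) = Real.exp (2 * Real.log L) := by
    rw [two_mul, Real.exp_add, Real.exp_log (by linarith)]; push_cast; ring
  have hN1 : (1 : ℝ) ≤ ((L ^ 2 : ℕ) : ℝ) := by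
    rw [hNexp]; exact Real.one_le_exp (by linarith)
  generalize Real.log L = lam at hlam0 hNexp ⊢
  have hβ0 : 0 ≤ 2 / Δ * (Θ + 2) := by positivity
  have hβΔ : 2 / Δ * (Θ + 2) * Δ / 2 = Θ + 2 := by field_simp
  have hB0 : 0 ≤ 2 / Δ * (Θ + 2) * J := by positivity
  obtain ⟨M, hM1, hM2, hM3, hM4⟩ := par_M (2 / Δ * (Θ + 2) * J) ((L ^ 2 : ℕ) : ℝ) Θ hB0 hN1 hΘ0
  have hM0 : (0 : ℝ) < M := by exact_mod_cast hM1
  have hMexp := par_Mexp (2 / Δ * (Θ + 2) * J) ((L ^ 2 : ℕ) : ℝ) Θ lam M hB0 hNexp hM4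
  obtain ⟨hb1, hb2⟩ := par_bond (2 / Δ * (Θ + 2) * J) Θ lam J Δ M P hJ0 hΔ hΘ0 hlam0 rfl
    (by exact_mod_cast hM1) hMexp
  generalize hβ : 2 / Δ * (Θ + 2) = β at *
  obtain ⟨r, hr1, hr2⟩ : ∃ r : ℕ, 13 * (β * J) + 2 * lam + Θ + 4 ≤ r ∧
      (r : ℝ) ≤ 13 * (β * J) + 2 * lam + Θ + 5 := by
    refine ⟨⌈13 * (β * J) + 2 * lam + Θ + 4⌉₊, Nat.le_ceil _, ?_⟩
    have h1 := (Nat.ceil_lt_add_one
      (show (0 : ℝ) ≤ 13 * (β * J) + 2 * lam + Θ + 4 by positivity)).le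
    linarith
  have hMy : (M : ℝ) * (β / M * J) = β * J := by field_simp
  have hNy : ((L ^ 2 : ℕ) : ℝ) * (β / M * J) ≤ 1 / 4 := by
    have : ((L ^ 2 : ℕ) : ℝ) * (β / M * J) = ((L ^ 2 : ℕ) : ℝ) * (β * J) / M := by ring
    rw [this]; exact hM2
  have hMN : (M : ℝ) * (((L ^ 2 : ℕ) : ℝ) * (β / M * J)) ^ 2 ≤ η * ε / 16 := by
    have : (M : ℝ) * (((L ^ 2 : ℕ) : ℝ) * (β / M * J)) ^ 2 =
        (((L ^ 2 : ℕ) : ℝ) * (β * J)) ^ 2 / M := by field_simp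
    rw [this, ← hexpΘ]; exact hM3
  have hNr2 : ((L ^ 2 : ℕ) : ℝ) * Real.exp (13 * (M * (β / M * J)) - r) ≤ 1 / 24 * (η * ε) := by
    have h1 : ((L ^ 2 : ℕ) : ℝ) * Real.exp (13 * (M * (β / M * J)) - r) ≤
        Real.exp (-4) * (η * ε) := by
      rw [hNexp, ← hexpΘ, ← Real.exp_add, ← Real.exp_add]
      apply Real.exp_le_exp.2
      rw [hMy]
      linarith
    exact h1.trans (mul_le_mul_of_nonneg_right exp_four hηε.le)
  obtain ⟨A0, rfl⟩ := hφ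
  obtain ⟨g, hg0, A, hA⟩ := core h hh Δ hΔ Ψ hΨ hgr A0 hnrφ M r (β / M) (β / M * J) (by positivity)
    (by rw [hJ]) hNy
    (by
      have : 2 * (M : ℝ) * (((L ^ 2 : ℕ) : ℝ) * (β / M * J)) ^ 2 =
        2 * (M * (((L ^ 2 : ℕ) : ℝ) * (β / M * J)) ^ 2) := by ring
      rw [this]; linarith)
    (by linarith)
  have ha0 : 0 < ‖ip Ψ (contract A0)‖ := lt_of_lt_of_le hη hηφ
  have hgM : 0 < g ^ M := by positivity
  generalize hq : (g : ℂ) ^ M * ip Ψ (contract A0) = q at hA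
  have hqn : ‖q‖ = g ^ M * ‖ip Ψ (contract A0)‖ := by
    rw [← hq, norm_mul, norm_pow, Complex.norm_real, Real.norm_eq_abs, abs_of_pos hg0]
  have hq0 : 0 < ‖q‖ := by rw [hqn]; positivity
  have hqne : q ≠ 0 := norm_pos_iff.1 hq0
  refine ⟨Fintype.card (Fin D0 × (Fin (R' + 1) × Fin (R' + 1) → Lab d (R' + 1) M r)),
    q⁻¹ • contract A, ?_, (isPEPS_contract A).smul _, ?_⟩
  · have hfin := card_bd (d := d) (R' := R') D0 M r ((13 + 2 * P + 16 * J / Δ) * (lam + Θ))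
      ((13 + 104 * J / Δ) * (lam + Θ)) (by positivity)
      (by rw [hP]; push_cast; exact hb1) (hr2.trans hb2)
    refine hfin.trans (le_of_eq ?_)
    congr 2
    ring
  · have e2 : q⁻¹ • contract A - Ψ = q⁻¹ • (contract A - q • Ψ) := by
      rw [smul_sub, smul_smul, inv_mul_cancel₀ hqne, one_smul]
    rw [e2, nr_smul, norm_inv, hqn]
    rw [inv_mul_le_iff₀ (by positivity)]
    refine hA.trans ?_
    rw [mul_assoc (g ^ M) _ ε]
    refine mul_le_mul_of_nonneg_left ?_ hgM.le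
    have h3 : Real.exp (-(β / M * M * Δ / 2)) ≤ 1 / 4 * (η * ε) := by
      have h4 : -(β / M * M * Δ / 2) = -2 + -Θ := by
        have : β / M * M = β := by field_simp
        rw [this, hβΔ]; ring
      rw [h4, Real.exp_add, hexpΘ]
      exact mul_le_mul_of_nonneg_right exp_two hηε.le
    have h5 : η * ε ≤ ‖ip Ψ (contract A0)‖ * ε := mul_le_mul_of_nonneg_right hηφ hε.le
    linarith

end Pool.Agent.TH235.PP
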