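import Pool.Agent.TH235.PP.Exp

set_option autoImplicit false
set_option linter.unusedSectionVars false

open scoped BigOperators
open Finset

namespace Pool.Agent.TH235.PP

/-- number of occurrences of the term `b` -/
def cnt {M N : ℕ} (F : Fin M → Fin N → Bool) (b : Fin N) : ℕ :=
  (univ.filter fun t => F t b = true).card

section ring

variable {R : Type*} [Ring R] {M N : ℕ}

/-- the ordered product of the selected terms -/
def PF (y : Fin N → R) (F : Fin M → Fin N → Bool) : R := pr fun t b => if F t b = true then y b else 1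

/-- the truncated expansion: every term occurs at most `r` times -/
def KT (M : ℕ) (y : Fin N → R) (r : ℕ) : R :=
  ∑ F : Fin M → Fin N → Bool, if (∀ b, cnt F b ≤ r) then PF y F else 0

/-- the terms of `S` occur more than `r` times -/
def ES (M : ℕ) (y : Fin N → R) (r : ℕ) (S : Finset (Fin N)) : R :=
  ∑ F : Fin M → Fin N → Bool, if (∀ b ∈ S, r < cnt F b) then PF y F else 0

/-- the terms outside `S` are summed -/
def QS (y : Fin N → R) (S : Finset (Fin N)) (C : Fin M → Fin N → Bool) : R :=
  pr fun t b => if b ∈ S then (if C t b = true then y b else 1) else 1 + y b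

lemma ind_sum (F : Fin M → Fin N → Bool) (r : ℕ) :
    (if (∀ b, cnt F b ≤ r) then (1 : ℤ) else 0) =
      ∑ S : Finset (Fin N), (-1) ^ S.card * (if (∀ b ∈ S, r < cnt F b) then (1 : ℤ) else 0) := by
  have h := Finset.prod_one_add (f := fun b => -(if r < cnt F b then (1 : ℤ) else 0))
    (univ : Finset (Fin N))
  rw [Finset.powerset_univ] at h
  have h1 : ∏ b : Fin N, (1 + -(if r < cnt F b then (1 : ℤ) else 0)) =
      if (∀ b, cnt F b ≤ r) then (1 : ℤ) else 0 := by
    split_ifs with hc
    · apply Finset.prod_eq_one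
      intro b _
      rw [if_neg (not_lt.2 (hc b))]
      simp
    · push Not at hc
      obtain ⟨b, hb⟩ := hc
      apply Finset.prod_eq_zero (mem_univ b)
      rw [if_pos hb]
      simp
  rw [h1] at h
  rw [h]
  refine Finset.sum_congr rfl fun S _ => ?_
  rw [Finset.prod_neg]
  congr 1
  split_ifs with hc
  · apply Finset.prod_eq_one
    intro b hb
    rw [if_pos (hc b hb)]
  · push Not at hc
    obtain ⟨b, hb, hb2⟩ := hc
    apply Finset.prod_eq_zero hb
    rw [if_neg (not_lt.2 hb2)]

lemma incl_excl (y : Fin N → R) (r : ℕ) :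
    KT M y r = ∑ S : Finset (Fin N), ((-1 : ℤ) ^ S.card) • ES M y r S := by
  unfold KT ES
  simp only [Finset.smul_sum]
  rw [Finset.sum_comm]
  refine Finset.sum_congr rfl fun F _ => ?_
  have h1 : (if (∀ b, cnt F b ≤ r) then PF y F else 0) =
      (if (∀ b, cnt F b ≤ r) then (1 : ℤ) else 0) • PF y F := by
    split_ifs <;> simp
  rw [h1, ind_sum, Finset.sum_smul]
  refine Finset.sum_congr rfl fun S _ => ?_
  split_ifs <;> simp

lemma ES_empty (y : Fin N → R) (r : ℕ) : ES M y r ∅ = (op fun b => 1 + y b) ^ M := by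
  unfold ES PF
  rw [← op_const]
  have h := pr_sum (M := M) (fun (_ : Fin M) (b : Fin N) (x : Bool) => if x = true then y b else 1)
  simp only [Finset.notMem_empty, false_implies, implies_true, if_true]
  rw [← h]
  unfold pr
  congr 1
  funext t
  congr 1
  funext b
  simp [add_comm]

/-- the sum over all configurations that agree with `C` on `S` -/
lemma QS_eq (y : Fin N → R) (S : Finset (Fin N)) (C : Fin M → Fin N → Bool) :
    QS y S C = ∑ F : Fin M → Fin N → Bool,
      if (∀ t, ∀ b ∈ S, F t b = C t b) then PF y F else 0 := by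
  classical
  have h := pr_sum (M := M) (fun (t : Fin M) (b : Fin N) (x : Bool) =>
    if b ∈ S then (if x = C t b then (if x = true then y b else 1) else 0)
      else (if x = true then y b else 1))
  have h1 : QS y S C = pr (fun t b => ∑ x : Bool,
      if b ∈ S then (if x = C t b then (if x = true then y b else 1) else 0)
      else (if x = true then y b else 1)) := by
    unfold QS
    congr 1
    funext t b
    by_cases hb : b ∈ S
    · simp only [hb, if_true]
      rw [Finset.sum_ite_eq']
      simp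
    · simp only [hb, if_false]
      simp [add_comm]
  rw [h1, h]
  refine Finset.sum_congr rfl fun F _ => ?_
  split_ifs with hc
  · unfold PF
    congr 1
    funext t b
    by_cases hb : b ∈ S
    · rw [if_pos hb, if_pos (hc t b hb)]
    · rw [if_neg hb]
  · push Not at hc
    obtain ⟨t, b, hb, hne⟩ := hc
    apply pr_eq_zero _ t b
    rw [if_pos hb, if_neg hne]

lemma ES_eq (y : Fin N → R) (r : ℕ) (S : Finset (Fin N)) :
    ES M y r S = ∑ C : Fin M → Fin N → Bool,
      if (∀ t b, b ∉ S → C t b = false) ∧ (∀ b ∈ S, r < cnt C b) then QS y S C else 0 := by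
  classical
  have h1 : ∀ C : Fin M → Fin N → Bool,
      (if (∀ t b, b ∉ S → C t b = false) ∧ (∀ b ∈ S, r < cnt C b) then QS y S C else 0) =
      ∑ F : Fin M → Fin N → Bool, if C = (fun t b => decide (b ∈ S) && F t b) then
        (if (∀ b ∈ S, r < cnt F b) then PF y F else 0) else 0 := by
    intro C
    have key : ∀ F : Fin M → Fin N → Bool, C = (fun t b => decide (b ∈ S) && F t b) →
        (∀ t b, b ∉ S → C t b = false) ∧ (∀ t, ∀ b ∈ S, F t b = C t b) ∧
        (∀ b ∈ S, cnt C b = cnt F b) := by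
      intro F hF
      refine ⟨?_, ?_, ?_⟩
      · intro t b hb; rw [hF]; simp [hb]
      · intro t b hb; rw [hF]; simp [hb]
      · intro b hb
        unfold cnt
        congr 1
        ext t
        rw [hF]; simp [hb]
    by_cases hC : ∀ t b, b ∉ S → C t b = false
    · by_cases hC2 : ∀ b ∈ S, r < cnt C b
      · rw [if_pos ⟨hC, hC2⟩, QS_eq]
        refine Finset.sum_congr rfl fun F _ => ?_
        by_cases hF : C = (fun t b => decide (b ∈ S) && F t b)
        · obtain ⟨_, k2, k3⟩ := key F hF
          rw [if_pos hF, if_pos k2, if_pos]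
          intro b hb
          rw [← k3 b hb]; exact hC2 b hb
        · rw [if_neg hF, if_neg]
          intro hh
          apply hF
          funext t b
          by_cases hb : b ∈ S
          · simp [hb, hh t b hb]
          · simp [hb, hC t b hb]
      · rw [if_neg (fun h => hC2 h.2)]
        symm
        apply Finset.sum_eq_zero
        intro F _
        by_cases hF : C = (fun t b => decide (b ∈ S) && F t b)
        · obtain ⟨_, _, k3⟩ := key F hF
          rw [if_pos hF, if_neg]
          intro hh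
          apply hC2
          intro b hb
          rw [k3 b hb]; exact hh b hb
        · rw [if_neg hF]
    · rw [if_neg (fun h => hC h.1)]
      symm
      apply Finset.sum_eq_zero
      intro F _
      by_cases hF : C = (fun t b => decide (b ∈ S) && F t b)
      · exact absurd (key F hF).1 hC
      · rw [if_neg hF]
  unfold ES
  simp only [h1]
  rw [Finset.sum_comm]
  refine Finset.sum_congr rfl fun F _ => ?_
  rw [Finset.sum_ite_eq']
  simp

end ring

section wt

variable {M N : ℕ}

/-- weight of a configuration -/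
def wt (x : ℝ) (S : Finset (Fin N)) (C : Fin M → Fin N → Bool) : ℝ :=
  ∏ t, ∏ b, if b ∈ S ∧ C t b = true then x else 1

lemma wt_nonneg {x : ℝ} (hx : 0 ≤ x) (S : Finset (Fin N)) (C : Fin M → Fin N → Bool) :
    0 ≤ wt x S C := by
  unfold wt
  refine Finset.prod_nonneg fun t _ => Finset.prod_nonneg fun b _ => ?_
  split_ifs
  · exact hx
  · norm_num

lemma wt_mul (x x' : ℝ) (S : Finset (Fin N)) (C : Fin M → Fin N → Bool) :
    wt (x * x') S C = wt x S C * wt x' S C := by
  unfold wt
  rw [← Finset.prod_mul_distrib]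
  refine Finset.prod_congr rfl fun t _ => ?_
  rw [← Finset.prod_mul_distrib]
  refine Finset.prod_congr rfl fun b _ => ?_
  split_ifs <;> simp

lemma wt_ge (x : ℝ) (hx : 1 ≤ x) (r : ℕ) (S : Finset (Fin N)) (C : Fin M → Fin N → Bool)
    (hC : ∀ b ∈ S, r < cnt C b) : (x ^ (r + 1)) ^ S.card ≤ wt x S C := by
  unfold wt
  rw [Finset.prod_comm]
  have h1 : ∏ b : Fin N, (if b ∈ S then x ^ (r + 1) else 1) = (x ^ (r + 1)) ^ S.card := by
    rw [Finset.prod_ite]
    simp
  rw [← h1]
  refine Finset.prod_le_prod (fun b _ => ?_) fun b _ => ?_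
  · split_ifs
    · positivity
    · norm_num
  · split_ifs with hb
    · have h2 : ∏ t : Fin M, (if b ∈ S ∧ C t b = true then x else 1) = x ^ cnt C b := by
        rw [Finset.prod_ite]
        simp only [hb, true_and, prod_const, one_pow, mul_one]
        rfl
      rw [h2]
      exact pow_le_pow_right₀ hx (hC b hb)
    · apply le_of_eq
      symm
      apply Finset.prod_eq_one
      intro t _
      rw [if_neg (fun h => hb h.1)]

lemma wt_sum (x : ℝ) (S : Finset (Fin N)) :
    ∑ C : Fin M → Fin N → Bool, (if (∀ t b, b ∉ S → C t b = false) then wt x S C else 0) =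
      (1 + x) ^ (M * S.card) := by
  classical
  have h1 : ∀ C : Fin M → Fin N → Bool,
      (if (∀ t b, b ∉ S → C t b = false) then wt x S C else 0) =
      ∏ t, ∏ b, (if b ∈ S then (if C t b = true then x else 1)
        else (if C t b = true then 0 else 1)) := by
    intro C
    split_ifs with hc
    · unfold wt
      refine Finset.prod_congr rfl fun t _ => Finset.prod_congr rfl fun b _ => ?_
      by_cases hb : b ∈ S
      · simp [hb]
      · simp [hb, hc t b hb]
    · push Not at hc
      obtain ⟨t, b, hb, hne⟩ := hc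
      symm
      apply Finset.prod_eq_zero (mem_univ t)
      apply Finset.prod_eq_zero (mem_univ b)
      rw [if_neg hb, if_pos (by simpa using hne)]
  simp only [h1]
  have h2 := Finset.prod_univ_sum (ι := Fin M) (κ := fun _ => Fin N → Bool)
    (t := fun _ => univ) (f := fun _ g => ∏ b, (if b ∈ S then (if g b = true then x else 1)
        else (if g b = true then (0 : ℝ) else 1)))
  rw [Fintype.piFinset_univ] at h2
  rw [← h2]
  have h3 : ∑ g : Fin N → Bool, ∏ b, (if b ∈ S then (if g b = true then x else 1)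
        else (if g b = true then (0 : ℝ) else 1)) = (1 + x) ^ S.card := by
    have h4 := Finset.prod_univ_sum (ι := Fin N) (κ := fun _ => Bool)
      (t := fun _ => univ) (f := fun b l => (if b ∈ S then (if l = true then x else 1)
        else (if l = true then (0 : ℝ) else 1)))
    rw [Fintype.piFinset_univ] at h4
    rw [← h4]
    have h5 : ∏ b : Fin N, (if b ∈ S then (1 + x) else 1) = (1 + x) ^ S.card := by
      rw [Finset.prod_ite]
      simp
    rw [← h5]
    refine Finset.prod_congr rfl fun b _ => ?_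
    by_cases hb : b ∈ S
    · simp [hb, add_comm]
    · simp [hb]
  rw [h3, Finset.prod_const, Finset.card_univ, Fintype.card_fin, ← pow_mul, mul_comm]

end wt

section norm

variable {R : Type*} [NormedRing R] [NormOneClass R] {M N : ℕ}

lemma slice_bound (y : Fin N → R) (y0 g : ℝ) (hy0 : 0 ≤ y0) (hy : ∀ b, ‖y b‖ ≤ y0)
    (hG : ‖1 + ∑ b, y b‖ ≤ g) (hg : 1 / 2 ≤ g) (hN : N * y0 ≤ 1 / 4) (S : Finset (Fin N))
    (c : Fin N → Bool) :
    ‖op fun b => if b ∈ S then (if c b = true then y b else 1) else 1 + y b‖ ≤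
      (g + S.card * y0 + (N * y0) ^ 2) * ∏ b, (if b ∈ S ∧ c b = true then 4 * y0 else 1) := by
  classical
  have ha : (1 / 2 : ℝ) ≤ g + S.card * y0 + (N * y0) ^ 2 := by
    have : (0 : ℝ) ≤ S.card * y0 := by positivity
    nlinarith [sq_nonneg ((N : ℝ) * y0)]
  by_cases hc : ∃ b, b ∈ S ∧ c b = true
  · have h1 : ‖op fun b => if b ∈ S then (if c b = true then y b else 1) else 1 + y b‖ ≤
        ∏ b, ((if b ∈ S ∧ c b = true then y0 else 1) * (1 + y0)) := by
      apply norm_op_le
      intro b
      by_cases hb : b ∈ S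
      · by_cases hcb : c b = true
        · simp only [hb, hcb, if_true, and_self]
          have := hy b
          nlinarith
        · rw [if_pos hb, if_neg hcb, if_neg (fun h => hcb h.2), norm_one]
          nlinarith
      · simp only [hb, if_false, false_and, one_mul]
        refine (norm_add_le _ _).trans ?_
        rw [norm_one]
        linarith [hy b]
    refine h1.trans ?_
    rw [Finset.prod_mul_distrib, Finset.prod_const, Finset.card_univ, Fintype.card_fin]
    have h2 : (1 + y0) ^ N ≤ 2 := by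
      have h3 : (1 + y0) ^ N ≤ Real.exp (N * y0) := by
        rw [Real.exp_nat_mul]
        exact pow_le_pow_left₀ (by positivity) (by linarith [Real.add_one_le_exp y0]) N
      have h4 := exp_bd2 (u := N * y0) (by positivity) (by linarith)
      linarith
    obtain ⟨b0, hb0, hcb0⟩ := hc
    have h5 : ∏ b, (if b ∈ S ∧ c b = true then 4 * y0 else 1) =
        (∏ b, (if b ∈ S ∧ c b = true then (4 : ℝ) else 1)) *
          ∏ b, (if b ∈ S ∧ c b = true then y0 else 1) := by
      rw [← Finset.prod_mul_distrib]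
      refine Finset.prod_congr rfl fun b _ => ?_
      split_ifs <;> simp
    have h6 : (4 : ℝ) ≤ ∏ b, (if b ∈ S ∧ c b = true then (4 : ℝ) else 1) := by
      rw [← Finset.mul_prod_erase univ _ (mem_univ b0)]
      rw [if_pos ⟨hb0, hcb0⟩]
      have h7 : (1 : ℝ) ≤ ∏ b ∈ univ.erase b0, (if b ∈ S ∧ c b = true then (4 : ℝ) else 1) := by
        have : ∀ s : Finset (Fin N), (1 : ℝ) ≤ ∏ b ∈ s, (if b ∈ S ∧ c b = true then (4 : ℝ) else 1) := by
          intro s
          induction s using Finset.induction_on with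
          | empty => simp
          | insert a s ha ih =>
            rw [Finset.prod_insert ha]
            split_ifs
            · nlinarith
            · linarith
        exact this _
      linarith
    have h8 : 0 ≤ ∏ b, (if b ∈ S ∧ c b = true then y0 else 1) := by
      refine Finset.prod_nonneg fun b _ => ?_
      split_ifs
      · exact hy0
      · norm_num
    rw [h5]
    have h9 : (2 : ℝ) ≤ (g + S.card * y0 + (N * y0) ^ 2) *
        ∏ b, (if b ∈ S ∧ c b = true then (4 : ℝ) else 1) := by nlinarith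
    calc (∏ b, (if b ∈ S ∧ c b = true then y0 else 1)) * (1 + y0) ^ N
        ≤ (∏ b, (if b ∈ S ∧ c b = true then y0 else 1)) * 2 :=
          mul_le_mul_of_nonneg_left h2 h8
      _ ≤ (∏ b, (if b ∈ S ∧ c b = true then y0 else 1)) * ((g + S.card * y0 + (N * y0) ^ 2) *
        ∏ b, (if b ∈ S ∧ c b = true then (4 : ℝ) else 1)) := mul_le_mul_of_nonneg_left h9 h8
      _ = _ := by ring
  · have hcb : ∀ b, b ∈ S → c b = false := by
      intro b hb
      by_contra hne
      exact hc ⟨b, hb, by simpa using hne⟩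
    have h1 : ∏ b, (if b ∈ S ∧ c b = true then 4 * y0 else 1) = 1 := by
      apply Finset.prod_eq_one
      intro b _
      rw [if_neg (fun h => hc ⟨b, h⟩)]
    rw [h1, mul_one]
    set z : Fin N → R := fun b => if b ∈ S then 0 else y b with hz
    have h2 : (op fun b => if b ∈ S then (if c b = true then y b else 1) else 1 + y b) =
        op (fun b => 1 + z b) := by
      congr 1
      funext b
      by_cases hb : b ∈ S
      · simp [hz, hb, hcb b hb]
      · simp [hz, hb]
    rw [h2]
    have hzn : ∀ b, ‖z b‖ ≤ y0 := by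
      intro b
      simp only [hz]
      split_ifs
      · simpa using hy0
      · exact hy b
    obtain ⟨_, h3⟩ := norm_op_sub z y0 hzn hy0
    have h4 := pow_bd (n := N) hy0 (by linarith)
    have h5 : 1 + ∑ b, z b = (1 + ∑ b, y b) - ∑ b ∈ S, y b := by
      have : ∑ b, y b = ∑ b, z b + ∑ b ∈ S, y b := by
        rw [← Finset.sum_filter_add_sum_filter_not univ (fun b => b ∈ S) y]
        have e1 : univ.filter (fun b => b ∈ S) = S := by ext; simp
        rw [e1, add_comm]
        congr 1
        rw [Finset.sum_filter]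
        refine Finset.sum_congr rfl fun b _ => ?_
        by_cases hb : b ∈ S <;> simp [hz, hb]
      rw [this]; abel
    have h6 : ‖∑ b ∈ S, y b‖ ≤ S.card * y0 := by
      refine (norm_sum_le _ _).trans ?_
      calc ∑ b ∈ S, ‖y b‖ ≤ ∑ _b ∈ S, y0 := Finset.sum_le_sum fun b _ => hy b
        _ = S.card * y0 := by simp
    calc ‖op (fun b => 1 + z b)‖
        = ‖(op (fun b => 1 + z b) - (1 + ∑ b, z b)) + (1 + ∑ b, z b)‖ := by
          congr 1; abel
      _ ≤ ‖op (fun b => 1 + z b) - (1 + ∑ b, z b)‖ + ‖1 + ∑ b, z b‖ := norm_add_le _ _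
      _ ≤ (N * y0) ^ 2 + (g + S.card * y0) := by
          refine add_le_add (h3.trans h4) ?_
          rw [h5]
          exact (norm_sub_le _ _).trans (add_le_add hG h6)
      _ = _ := by ring

lemma QS_bound (y : Fin N → R) (y0 g : ℝ) (hy0 : 0 ≤ y0) (hy : ∀ b, ‖y b‖ ≤ y0)
    (hG : ‖1 + ∑ b, y b‖ ≤ g) (hg : 1 / 2 ≤ g) (hN : N * y0 ≤ 1 / 4) (S : Finset (Fin N))
    (C : Fin M → Fin N → Bool) :
    ‖QS y S C‖ ≤ (g + S.card * y0 + (N * y0) ^ 2) ^ M * wt (4 * y0) S C := by
  unfold QS pr wt
  have h := norm_op_le (fun t => op fun b => if b ∈ S then (if C t b = true then y b else 1)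
    else 1 + y b) _ (fun t => slice_bound y y0 g hy0 hy hG hg hN S (C t))
  refine h.trans (le_of_eq ?_)
  rw [Finset.prod_mul_distrib]
  simp

lemma ES_bound (y : Fin N → R) (y0 g : ℝ) (hy0 : 0 ≤ y0) (hy : ∀ b, ‖y b‖ ≤ y0)
    (hG : ‖1 + ∑ b, y b‖ ≤ g) (hg : 1 / 2 ≤ g) (hN : N * y0 ≤ 1 / 4) (r : ℕ)
    (S : Finset (Fin N)) :
    ‖ES M y r S‖ ≤ g ^ M * Real.exp (2 * M * (N * y0) ^ 2) *
      Real.exp (13 * (M * y0) - r) ^ S.card := by
  classical
  set a : ℝ := g + S.card * y0 + (N * y0) ^ 2 with ha
  have ha0 : 0 ≤ a := by positivity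
  have hg0 : 0 < g := by linarith
  set e : ℝ := Real.exp 1 with he
  have he1 : 1 ≤ e := by rw [he]; exact Real.one_le_exp (by norm_num)
  have he0 : 0 < e := by linarith
  rw [ES_eq]
  have h1 : ‖∑ C : Fin M → Fin N → Bool,
      (if (∀ t b, b ∉ S → C t b = false) ∧ (∀ b ∈ S, r < cnt C b) then QS y S C else 0)‖ ≤
      ∑ C : Fin M → Fin N → Bool, (if (∀ t b, b ∉ S → C t b = false) then
        a ^ M * (((e ^ (r + 1)) ^ S.card)⁻¹ * wt (e * (4 * y0)) S C) else 0) := by
    refine (norm_sum_le _ _).trans (Finset.sum_le_sum fun C _ => ?_)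
    by_cases hc1 : ∀ t b, b ∉ S → C t b = false
    · rw [if_pos hc1]
      by_cases hc2 : ∀ b ∈ S, r < cnt C b
      · rw [if_pos ⟨hc1, hc2⟩]
        refine (QS_bound y y0 g hy0 hy hG hg hN S C).trans ?_
        refine mul_le_mul_of_nonneg_left ?_ (by positivity)
        rw [wt_mul e (4 * y0)]
        have h2 := wt_ge e he1 r S C hc2
        have h3 := wt_nonneg (x := 4 * y0) (by positivity) S C
        rw [← mul_assoc]
        have h4 : 1 ≤ ((e ^ (r + 1)) ^ S.card)⁻¹ * wt e S C := by
          rw [le_inv_mul_iff₀ (by positivity)]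
          linarith
        calc wt (4 * y0) S C = 1 * wt (4 * y0) S C := by ring
          _ ≤ _ := mul_le_mul_of_nonneg_right h4 h3
      · rw [if_neg (fun h => hc2 h.2), norm_zero]
        have := wt_nonneg (x := e * (4 * y0)) (by positivity) S C
        positivity
    · rw [if_neg (fun h => hc1 h.1), if_neg hc1, norm_zero]
  refine h1.trans ?_
  have h2 : ∑ C : Fin M → Fin N → Bool, (if (∀ t b, b ∉ S → C t b = false) then
        a ^ M * (((e ^ (r + 1)) ^ S.card)⁻¹ * wt (e * (4 * y0)) S C) else 0) =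
      a ^ M * ((e ^ (r + 1)) ^ S.card)⁻¹ * (1 + e * (4 * y0)) ^ (M * S.card) := by
    rw [← wt_sum, Finset.mul_sum]
    refine Finset.sum_congr rfl fun C _ => ?_
    split_ifs
    · ring
    · simp
  rw [h2]
  -- estimates
  have h3 : a ^ M ≤ g ^ M * (Real.exp (2 * M * (N * y0) ^ 2) * Real.exp (2 * (M * y0)) ^ S.card) := by
    have h4 : a ≤ g * Real.exp (2 * ((N * y0) ^ 2 + S.card * y0)) := by
      have h5 := Real.add_one_le_exp (2 * ((N * y0) ^ 2 + S.card * y0))
      have h6 : 0 ≤ (N * y0) ^ 2 + S.card * y0 := by positivity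
      have h7 : a ≤ g * (2 * ((N * y0) ^ 2 + S.card * y0) + 1) := by
        rw [ha]; nlinarith
      exact h7.trans (mul_le_mul_of_nonneg_left h5 hg0.le)
    calc a ^ M ≤ (g * Real.exp (2 * ((N * y0) ^ 2 + S.card * y0))) ^ M :=
          pow_le_pow_left₀ ha0 h4 M
      _ = _ := by
          rw [mul_pow, ← Real.exp_nat_mul, ← Real.exp_nat_mul, ← Real.exp_add]
          congr 2
          ring
  have h4 : (1 + e * (4 * y0)) ^ (M * S.card) ≤ Real.exp (11 * (M * y0)) ^ S.card := by
    rw [pow_mul]
    refine pow_le_pow_left₀ (by positivity) ?_ _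
    have he2 : e * 4 ≤ 11 := by
      have := Real.exp_one_lt_d9
      rw [he]; linarith
    calc (1 + e * (4 * y0)) ^ M ≤ (Real.exp (11 * y0)) ^ M := by
          refine pow_le_pow_left₀ (by positivity) ?_ M
          have := Real.add_one_le_exp (11 * y0)
          nlinarith
      _ = Real.exp (11 * (M * y0)) := by
          rw [← Real.exp_nat_mul]; congr 1; ring
  have h5 : ((e ^ (r + 1)) ^ S.card)⁻¹ ≤ Real.exp (-(r : ℝ)) ^ S.card := by
    rw [← inv_pow]
    refine pow_le_pow_left₀ (by positivity) ?_ _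
    rw [he, ← Real.exp_nat_mul, ← Real.exp_neg]
    apply Real.exp_le_exp.2
    push_cast
    linarith
  calc a ^ M * ((e ^ (r + 1)) ^ S.card)⁻¹ * (1 + e * (4 * y0)) ^ (M * S.card)
      ≤ (g ^ M * (Real.exp (2 * M * (N * y0) ^ 2) * Real.exp (2 * (M * y0)) ^ S.card)) *
        Real.exp (-(r : ℝ)) ^ S.card * Real.exp (11 * (M * y0)) ^ S.card := by
        refine mul_le_mul (mul_le_mul h3 h5 (by positivity) (by positivity)) h4
          (by positivity) (by positivity)
    _ = g ^ M * Real.exp (2 * M * (N * y0) ^ 2) * Real.exp (13 * (M * y0) - r) ^ S.card := by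
        have : Real.exp (13 * (M * y0) - r) =
            Real.exp (2 * (M * y0)) * Real.exp (-(r : ℝ)) * Real.exp (11 * (M * y0)) := by
          rw [← Real.exp_add, ← Real.exp_add]; congr 1; ring
        rw [this, mul_pow, mul_pow]
        ring

/-- the truncated expansion approximates the power of `1 + ∑ y` -/
theorem trunc_bound (y : Fin N → R) (y0 g : ℝ) (hy0 : 0 ≤ y0) (hy : ∀ b, ‖y b‖ ≤ y0)
    (hG : ‖1 + ∑ b, y b‖ ≤ g) (hg : 1 / 2 ≤ g) (hN : N * y0 ≤ 1 / 4) (r : ℕ)
    (hM : 2 * M * (N * y0) ^ 2 ≤ 1) (hr : N * Real.exp (13 * (M * y0) - r) ≤ 1) :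
    ‖KT M y r - (1 + ∑ b, y b) ^ M‖ ≤ g ^ M *
      (6 * (N * Real.exp (13 * (M * y0) - r)) + 4 * (M * (N * y0) ^ 2)) := by
  classical
  set G : R := 1 + ∑ b, y b with hGdef
  set T : R := op fun b => 1 + y b with hT
  set δ : ℝ := Real.exp (13 * (M * y0) - r) with hδ
  set u : ℝ := 2 * M * (N * y0) ^ 2 with hu
  have hδ0 : 0 < δ := Real.exp_pos _
  have hu0 : 0 ≤ u := by positivity
  have hg0 : 0 < g := by linarith
  -- first part
  have h1 : ‖T ^ M - G ^ M‖ ≤ g ^ M * (Real.exp u - 1) := by
    have h2 : ‖T - G‖ ≤ (N * y0) ^ 2 :=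
      ((norm_op_sub y y0 hy hy0).2).trans (pow_bd hy0 (by linarith))
    have h3 := norm_pow_sub G (T - G) g _ hG h2 M
    rw [add_sub_cancel] at h3
    refine h3.trans ?_
    have h4 : g + (N * y0) ^ 2 ≤ g * Real.exp (2 * (N * y0) ^ 2) := by
      have h5 := Real.add_one_le_exp (2 * ((N : ℝ) * y0) ^ 2)
      have h6 : g * (2 * ((N : ℝ) * y0) ^ 2 + 1) ≤ g * Real.exp (2 * (N * y0) ^ 2) :=
        mul_le_mul_of_nonneg_left h5 hg0.le
      nlinarith [sq_nonneg ((N : ℝ) * y0)]
    have h5 : (g + (N * y0) ^ 2) ^ M ≤ g ^ M * Real.exp u := by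
      calc (g + (N * y0) ^ 2) ^ M ≤ (g * Real.exp (2 * (N * y0) ^ 2)) ^ M :=
            pow_le_pow_left₀ (by positivity) h4 M
        _ = g ^ M * Real.exp u := by
            rw [mul_pow, ← Real.exp_nat_mul]
            congr 2
            rw [hu]; ring
    nlinarith
  -- second part
  have h2 : ‖KT M y r - T ^ M‖ ≤ g ^ M * Real.exp u * ((1 + δ) ^ N - 1) := by
    rw [incl_excl, ← ES_empty y r]
    rw [← Finset.add_sum_erase univ _ (mem_univ (∅ : Finset (Fin N)))]
    simp only [card_empty, pow_zero, one_smul, add_sub_cancel_left]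
    refine (norm_sum_le _ _).trans ?_
    have h3 : ∀ S : Finset (Fin N), ‖((-1 : ℤ) ^ S.card) • ES M y r S‖ ≤
        g ^ M * Real.exp u * δ ^ S.card := by
      intro S
      have h4 : ‖((-1 : ℤ) ^ S.card) • ES M y r S‖ = ‖ES M y r S‖ := by
        rcases neg_one_pow_eq_or ℤ S.card with h | h <;> rw [h] <;> simp
      rw [h4]
      exact ES_bound y y0 g hy0 hy hG hg hN r S
    refine (Finset.sum_le_sum fun S _ => h3 S).trans (le_of_eq ?_)
    rw [← Finset.mul_sum]
    congr 1
    have h5 := Finset.sum_pow_mul_eq_add_pow δ 1 (univ : Finset (Fin N))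
    rw [Finset.powerset_univ] at h5
    simp only [one_pow, mul_one, card_univ, Fintype.card_fin] at h5
    rw [← Finset.add_sum_erase univ _ (mem_univ (∅ : Finset (Fin N)))] at h5
    simp only [card_empty, pow_zero] at h5
    rw [add_comm 1 δ, ← h5]
    ring
  have h3 : (1 + δ) ^ N - 1 ≤ 2 * (N * δ) := by
    have h4 : (1 + δ) ^ N ≤ Real.exp (N * δ) := by
      rw [Real.exp_nat_mul]
      exact pow_le_pow_left₀ (by positivity) (by linarith [Real.add_one_le_exp δ]) N
    have h5 := exp_bd2 (u := N * δ) (by positivity) hr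
    linarith
  have h4 : Real.exp u ≤ 3 := by
    have := exp_bd2 hu0 hM
    linarith
  have h5 : Real.exp u - 1 ≤ 2 * u := exp_bd2 hu0 hM
  have hgM : 0 < g ^ M := by positivity
  calc ‖KT M y r - G ^ M‖ = ‖(KT M y r - T ^ M) + (T ^ M - G ^ M)‖ := by congr 1; abel
    _ ≤ g ^ M * Real.exp u * ((1 + δ) ^ N - 1) + g ^ M * (Real.exp u - 1) :=
        (norm_add_le _ _).trans (add_le_add h2 h1)
    _ ≤ g ^ M * 3 * (2 * (N * δ)) + g ^ M * (2 * u) := by
        refine add_le_add ?_ (mul_le_mul_of_nonneg_left h5 hgM.le)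
        refine mul_le_mul (mul_le_mul_of_nonneg_left h4 hgM.le) h3 ?_ (by positivity)
        have : (1 : ℝ) ≤ (1 + δ) ^ N := one_le_pow₀ (by linarith)
        linarith
    _ = g ^ M * (6 * (N * δ) + 4 * (M * (N * y0) ^ 2)) := by rw [hu]; ring

end norm

end Pool.Agent.TH235.PP
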