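import Pool.Agent.TH235.PP.Defs
import Pool.Agent.TH235.PP.Trunc

set_option autoImplicit false
set_option linter.unusedSectionVars false

open scoped BigOperators
open Finset

namespace Pool.Agent.TH235.PP

section tp

variable {V : Type*} [Fintype V] [DecidableEq V] {d : ℕ}

lemma tp_one : tp (fun _ : V => (1 : Matrix (Fin d) (Fin d) ℂ)) = 1 := by
  ext s t
  unfold tp
  rw [Matrix.one_apply]
  split_ifs with h
  · subst h
    simp
  · obtain ⟨v, hv⟩ := Function.ne_iff.1 h
    exact Finset.prod_eq_zero (mem_univ v) (Matrix.one_apply_ne hv)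

lemma tp_mul (a b : V → Matrix (Fin d) (Fin d) ℂ) : tp a * tp b = tp (fun v => a v * b v) := by
  ext s t
  rw [Matrix.mul_apply]
  unfold tp
  simp only [Matrix.mul_apply]
  rw [Finset.prod_univ_sum, Fintype.piFinset_univ]
  refine Finset.sum_congr rfl fun x _ => ?_
  rw [← Finset.prod_mul_distrib]

lemma tp_op {n : ℕ} (a : Fin n → V → Matrix (Fin d) (Fin d) ℂ) :
    op (fun i => tp (a i)) = tp (fun v => op (fun i => a i v)) := by
  induction n with
  | zero => simp only [op_zero]; exact tp_one.symm
  | succ n ih =>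
    rw [op_succ, ih, tp_mul]
    congr 1
    funext v
    rw [op_succ]

lemma tp_pr {M N : ℕ} (a : Fin M → Fin N → V → Matrix (Fin d) (Fin d) ℂ) :
    pr (fun t b => tp (a t b)) = tp (fun v => pr (fun t b => a t b v)) := by
  unfold pr
  simp only [tp_op]

end tp

section labels

variable {d R L : ℕ} [NeZero L]

/-- labels of a matrix unit of the box -/
abbrev Lm (d R : ℕ) : Type := (Fin R × Fin R → Fin d) × (Fin R × Fin R → Fin d)

/-- coefficient of a label -/
def co (c : ℂ) (h : BoxOp d R) : Option (Lm d R) → ℂ
  | none => 1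
  | some pq => c * h pq.1 pq.2

/-- local operators of a label -/
noncomputable def lo (u : Site L) : Option (Lm d R) → Site L → Matrix (Fin d) (Fin d) ℂ
  | none => fun _ => 1
  | some pq => loc u pq.1 pq.2

lemma lo_out (u : Site L) (o : Option (Lm d R)) (v : Site L)
    (hv : ∀ x : Fin R × Fin R, sh u x ≠ v) : lo u o v = 1 := by
  cases o with
  | none => rfl
  | some pq => exact loc_out u pq.1 pq.2 v hv

/-- the labels of a site: at most `r` of the `M` slots are used -/
abbrev Lab (d R M r : ℕ) : Type :=
  {φ : Fin M → Option (Lm d R) // (univ.filter fun t => (φ t).isSome = true).card ≤ r}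

instance (M r : ℕ) : Nonempty (Lab d R M r) := ⟨⟨fun _ => none, by simp⟩⟩

/-- total coefficient of a label -/
def wgt (c : ℂ) (h : BoxOp d R) {M r : ℕ} (φ : Lab d R M r) : ℂ := ∏ t, co c h (φ.1 t)

/-- the operator at the site `v` -/
noncomputable def Ov {M r N : ℕ} (e : Fin N ≃ Site L) (g : Site L → Lab d R M r) (v : Site L) :
    Matrix (Fin d) (Fin d) ℂ := pr fun t b => lo (e b) ((g (e b)).1 t) v

lemma Ov_congr {M r N : ℕ} (e : Fin N ≃ Site L) (g g' : Site L → Lab d R M r) (v : Site L)
    (hgg : ∀ u, ∀ x : Fin R × Fin R, sh u x = v → g u = g' u) : Ov e g v = Ov e g' v := by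
  unfold Ov
  congr 1
  funext t b
  by_cases hv : ∃ x : Fin R × Fin R, sh (e b) x = v
  · obtain ⟨x, hx⟩ := hv
    rw [hgg (e b) x hx]
  · push Not at hv
    rw [lo_out _ _ _ hv, lo_out _ _ _ hv]

lemma KT_eq (c : ℂ) (h : BoxOp d R) {M r N : ℕ} (e : Fin N ≃ Site L) :
    KT M (fun b => c • term h (e b)) r =
      ∑ g : Site L → Lab d R M r, (∏ u, wgt c h (g u)) • tp (Ov e g) := by
  classical
  -- step 1: expand every selected term
  have h1 : ∀ F : Fin M → Fin N → Bool, PF (fun b => c • term h (e b)) F =
      ∑ G : Fin M → Fin N → Option (Lm d R),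
        if (∀ t b, (G t b).isSome = F t b) then
          pr (fun t b => co c h (G t b) • tp (lo (e b) (G t b))) else 0 := by
    intro F
    have e1 : PF (fun b => c • term h (e b)) F = pr (fun t b => ∑ o : Option (Lm d R),
        if o.isSome = F t b then co c h o • tp (lo (e b) o) else (0 : TorOp d L)) := by
      unfold PF
      congr 1
      funext t b
      rw [Fintype.sum_option]
      cases hF : F t b with
      | true =>
        simp only [if_true, Option.isSome_none, Option.isSome_some, Bool.false_eq_true, if_false,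
          zero_add]
        rw [term_eq, Finset.smul_sum]
        refine Finset.sum_congr rfl fun pq _ => ?_
        rw [smul_smul]
        rfl
      | false =>
        simp only [Bool.false_eq_true, if_false, Option.isSome_none, if_true, Option.isSome_some,
          Bool.true_eq_false, Finset.sum_const_zero, add_zero]
        simp only [co, lo]
        rw [tp_one, one_smul]
    rw [e1]
    have e2 := pr_sum (M := M) (fun (t : Fin M) (b : Fin N) (o : Option (Lm d R)) =>
      if o.isSome = F t b then co c h o • tp (lo (e b) o) else (0 : TorOp d L))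
    rw [e2]
    refine Finset.sum_congr rfl fun G _ => ?_
    split_ifs with hc
    · congr 1
      funext t b
      rw [if_pos (hc t b)]
    · push Not at hc
      obtain ⟨t, b, hne⟩ := hc
      apply pr_eq_zero _ t b
      rw [if_neg hne]
  -- step 2: exchange the sums
  have h2 : KT M (fun b => c • term h (e b)) r =
      ∑ G : Fin M → Fin N → Option (Lm d R),
        if (∀ b, (univ.filter fun t => (G t b).isSome = true).card ≤ r) then
          pr (fun t b => co c h (G t b) • tp (lo (e b) (G t b))) else 0 := by
    unfold KT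
    simp only [h1]
    have h3 : ∀ F : Fin M → Fin N → Bool,
        (if (∀ b, cnt F b ≤ r) then ∑ G : Fin M → Fin N → Option (Lm d R),
          (if (∀ t b, (G t b).isSome = F t b) then
            pr (fun t b => co c h (G t b) • tp (lo (e b) (G t b))) else 0) else (0 : TorOp d L)) =
        ∑ G : Fin M → Fin N → Option (Lm d R), if (fun t b => (G t b).isSome) = F then
          (if (∀ b, (univ.filter fun t => (G t b).isSome = true).card ≤ r) then
          pr (fun t b => co c h (G t b) • tp (lo (e b) (G t b))) else 0) else 0 := by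
      intro F
      by_cases hF : ∀ b, cnt F b ≤ r
      · rw [if_pos hF]
        refine Finset.sum_congr rfl fun G _ => ?_
        by_cases hG : (fun t b => (G t b).isSome) = F
        · have hG' : ∀ t b, (G t b).isSome = F t b := fun t b => congrFun (congrFun hG t) b
          rw [if_pos hG, if_pos hG', if_pos]
          intro b
          have := hF b
          unfold cnt at this
          simp only [hG']
          exact this
        · rw [if_neg hG, if_neg (fun hh => hG (funext fun t => funext fun b => hh t b))]
      · rw [if_neg hF]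
        symm
        apply Finset.sum_eq_zero
        intro G _
        by_cases hG : (fun t b => (G t b).isSome) = F
        · have hG' : ∀ t b, (G t b).isSome = F t b := fun t b => congrFun (congrFun hG t) b
          rw [if_pos hG, if_neg]
          intro hh
          apply hF
          intro b
          have := hh b
          simp only [hG'] at this
          exact this
        · rw [if_neg hG]
    simp only [h3]
    rw [Finset.sum_comm]
    refine Finset.sum_congr rfl fun G _ => ?_
    rw [Finset.sum_ite_eq]
    simp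
  rw [h2, ← Finset.sum_filter]
  -- step 3: reindex
  symm
  refine Finset.sum_bij' (i := fun (g : Site L → Lab d R M r) _ => fun t b => (g (e b)).1 t)
    (j := fun (G : Fin M → Fin N → Option (Lm d R)) hG => fun u =>
      (⟨fun t => G t (e.symm u), (mem_filter.1 hG).2 (e.symm u)⟩ : Lab d R M r)) ?_ ?_ ?_ ?_ ?_
  · intro g _
    rw [mem_filter]
    exact ⟨mem_univ _, fun b => (g (e b)).2⟩
  · intro G _
    exact mem_univ _
  · intro g _
    funext u
    apply Subtype.ext
    simp
  · intro G _
    funext t b
    simp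
  · intro g _
    rw [pr_smul, tp_pr]
    congr 1
    unfold wgt
    rw [← e.prod_comp, Finset.prod_comm]

end labels

section window

variable {R' L : ℕ} [NeZero L] {Λ : Type*}

/-- the window of `g` at `v` -/
def win (g : Site L → Λ) (v : Site L) : Fin (R' + 1) × Fin (R' + 1) → Λ :=
  fun x => g (v.1 - ((x.1 : ℕ) : ZMod L), v.2 - ((x.2 : ℕ) : ZMod L))

/-- consistency of the windows at `v - e₁` and `v` -/
def consL (wl w : Fin (R' + 1) × Fin (R' + 1) → Λ) : Prop :=
  ∀ (i : ℕ) (hi : i + 1 < R' + 1) (j : Fin (R' + 1)),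
    w (⟨i + 1, hi⟩, j) = wl (⟨i, by omega⟩, j)

/-- consistency of the windows at `v - e₂` and `v` -/
def consD (wd w : Fin (R' + 1) × Fin (R' + 1) → Λ) : Prop :=
  ∀ (j : ℕ) (hj : j + 1 < R' + 1) (i : Fin (R' + 1)),
    w (i, ⟨j + 1, hj⟩) = wd (i, ⟨j, by omega⟩)

lemma win_zero (g : Site L → Λ) (v : Site L) : win (R' := R') g v (0, 0) = g v := by
  unfold win
  simp

lemma win_consL (g : Site L → Λ) (v : Site L) :
    consL (win (R' := R') g (v.1 - 1, v.2)) (win g v) := by
  intro i hi j
  unfold win
  congr 1
  ext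
  · simp only []
    push_cast
    ring
  · rfl

lemma win_consD (g : Site L → Λ) (v : Site L) :
    consD (win (R' := R') g (v.1, v.2 - 1)) (win g v) := by
  intro i hi j
  unfold win
  congr 1
  ext
  · rfl
  · simp only []
    push_cast
    ring

lemma cons_win (W : Site L → (Fin (R' + 1) × Fin (R' + 1) → Λ))
    (h1 : ∀ v : Site L, consL (W (v.1 - 1, v.2)) (W v))
    (h2 : ∀ v : Site L, consD (W (v.1, v.2 - 1)) (W v)) :
    W = win (fun v => W v (0, 0)) := by
  have k1 : ∀ (j : ℕ) (hj : j < R' + 1) (v : Site L),
      W v (0, ⟨j, hj⟩) = W (v.1, v.2 - (j : ZMod L)) (0, 0) := by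
    intro j
    induction j with
    | zero => intro hj v; simp
    | succ j ih =>
      intro hj v
      rw [h2 v j hj 0, ih (by omega)]
      congr 2
      push_cast
      ring
  have k2 : ∀ (i : ℕ) (hi : i < R' + 1) (j : Fin (R' + 1)) (v : Site L),
      W v (⟨i, hi⟩, j) = W (v.1 - (i : ZMod L), v.2) (0, j) := by
    intro i
    induction i with
    | zero => intro hi j v; simp
    | succ i ih =>
      intro hi j v
      rw [h1 v i hi j, ih (by omega)]
      congr 2
      push_cast
      ring
  funext v x
  obtain ⟨i, j⟩ := x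
  unfold win
  rw [show (i, j) = ((⟨i.1, i.2⟩ : Fin (R' + 1)), j) from rfl, k2 i.1 i.2 j v]
  rw [show (0, j) = ((0 : Fin (R' + 1)), (⟨j.1, j.2⟩ : Fin (R' + 1))) from rfl, k1 j.1 j.2]

open Classical in
lemma sum_cons [Fintype Λ] (Φ : (Site L → (Fin (R' + 1) × Fin (R' + 1) → Λ)) → ℂ) :
    ∑ wx : Site L → (Fin (R' + 1) × Fin (R' + 1) → Λ),
      ∑ wy : Site L → (Fin (R' + 1) × Fin (R' + 1) → Λ),
        (if (∀ v : Site L, wx v = wy v ∧ consL (wx (v.1 - 1, v.2)) (wx v) ∧
          consD (wy (v.1, v.2 - 1)) (wx v)) then Φ wx else 0) =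
      ∑ g : Site L → Λ, Φ (win g) := by
  have h1 : ∀ wx wy : Site L → (Fin (R' + 1) × Fin (R' + 1) → Λ),
      (if (∀ v : Site L, wx v = wy v ∧ consL (wx (v.1 - 1, v.2)) (wx v) ∧
          consD (wy (v.1, v.2 - 1)) (wx v)) then Φ wx else 0) =
      if wx = wy then (if (∀ v : Site L, consL (wx (v.1 - 1, v.2)) (wx v)) ∧
        (∀ v : Site L, consD (wx (v.1, v.2 - 1)) (wx v)) then Φ wx else 0) else 0 := by
    intro wx wy
    by_cases hxy : wx = wy
    · subst hxy
      rw [if_pos rfl]
      by_cases hc : (∀ v : Site L, consL (wx (v.1 - 1, v.2)) (wx v)) ∧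
        (∀ v : Site L, consD (wx (v.1, v.2 - 1)) (wx v))
      · rw [if_pos hc, if_pos (fun v => ⟨rfl, hc.1 v, hc.2 v⟩)]
      · rw [if_neg hc, if_neg (fun hh => hc ⟨fun v => (hh v).2.1, fun v => (hh v).2.2⟩)]
    · rw [if_neg hxy, if_neg (fun hh => hxy (funext fun v => (hh v).1))]
  simp only [h1, Finset.sum_ite_eq, mem_univ, if_true]
  rw [← Finset.sum_filter]
  refine Finset.sum_bij' (i := fun wx _ => fun v => wx v (0, 0)) (j := fun g _ => win g)
    ?_ ?_ ?_ ?_ ?_
  · intro wx _; exact mem_univ _
  · intro g _
    rw [mem_filter]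
    exact ⟨mem_univ _, fun v => win_consL g v, fun v => win_consD g v⟩
  · intro wx hwx
    obtain ⟨_, k1, k2⟩ := mem_filter.1 hwx
    exact (cons_win wx k1 k2).symm
  · intro g _
    funext v
    exact win_zero g v
  · intro wx hwx
    obtain ⟨_, k1, k2⟩ := mem_filter.1 hwx
    rw [← cons_win wx k1 k2]

end window

end Pool.Agent.TH235.PP
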