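import Pool.Agent.TH235.PP.Mat
import Pool.Agent.TH235.PP.Quant

set_option autoImplicit false
set_option linter.unusedSectionVars false

open scoped BigOperators Matrix InnerProductSpace
open Finset

namespace Pool.Agent.TH235.PP

section general

variable {n : Type*} [Fintype n] [DecidableEq n]

lemma ip_symm_herm (B : Matrix n n ℂ) (hB : B.IsHermitian) (u v : n → ℂ) :
    ip u (B *ᵥ v) = ip (B *ᵥ u) v := by
  have e1 : ∀ u v : n → ℂ, ip u v = star u ⬝ᵥ v := fun u v => rfl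
  rw [e1, e1, Matrix.star_mulVec, hB.eq, Matrix.dotProduct_mulVec]

lemma ip_le (u v : n → ℂ) : ‖ip u v‖ ≤ nr u * nr v := by
  rw [ip_eq]
  exact norm_inner_le_norm _ _

open scoped Matrix.Norms.L2Operator in
lemma eig_facts (A : Matrix n n ℂ) (hA : A.IsHermitian) (Δ : ℝ) (hΔ : 0 < Δ) (Ψ : n → ℂ)
    (hΨ : normSq Ψ = 1) (E : ℝ) (hE : A *ᵥ Ψ = (E : ℂ) • Ψ)
    (hgap : ∀ (E' : ℝ) (φ : n → ℂ), φ ≠ 0 → A *ᵥ φ = (E' : ℂ) • φ → E' = E ∨ E + Δ ≤ E') :
    (∀ j, |hA.eigenvalues j| ≤ ‖A‖) ∧ |E| ≤ ‖A‖ ∧ (∀ j, E ≤ hA.eigenvalues j) ∧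
      ∃ j, hA.eigenvalues j = E := by
  set b := hA.eigenvectorBasis with hb
  set lam := hA.eigenvalues with hlam
  have hAb : ∀ j, A *ᵥ (b j).ofLp = (lam j : ℂ) • (b j).ofLp := by
    intro j
    have := hA.mulVec_eigenvectorBasis j
    rw [this]
    rfl
  have hbne : ∀ j, (b j).ofLp ≠ 0 := by
    intro j h0
    have h1 : b j = 0 := by
      have : b j = WithLp.toLp 2 ((b j).ofLp) := rfl
      rw [this, h0]; rfl
    have h2 := b.norm_eq_one j
    rw [h1, norm_zero] at h2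
    exact zero_ne_one h2
  have hnb : ∀ j, nr (b j).ofLp = 1 := fun j => b.norm_eq_one j
  have hΨn : nr Ψ = 1 := by
    have h1 := nr_sq Ψ
    rw [hΨ] at h1
    have h2 := nr_nonneg Ψ
    nlinarith only [h1, h2]
  refine ⟨?_, ?_, ?_, ?_⟩
  · intro j
    have h1 := nr_mulVec A (b j).ofLp
    rw [hAb j, nr_smul, hnb j, mul_one, mul_one, Complex.norm_real, Real.norm_eq_abs] at h1
    exact h1
  · have h1 := nr_mulVec A Ψ
    rw [hE, nr_smul, hΨn, mul_one, mul_one, Complex.norm_real, Real.norm_eq_abs] at h1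
    exact h1
  · intro j
    rcases hgap (lam j) _ (hbne j) (hAb j) with h | h
    · exact h.ge
    · linarith
  · by_contra hcon
    push Not at hcon
    have h0 : ∀ j, ⟪b j, (WithLp.toLp 2 Ψ : EuclideanSpace ℂ n)⟫_ℂ = 0 := by
      intro j
      have h1 := ip_symm_herm A hA (b j).ofLp Ψ
      rw [hAb j, hE, ip_smul_right, ip_smul_left, Complex.conj_ofReal] at h1
      have h2 : ((E : ℂ) - (lam j : ℂ)) * ip (b j).ofLp Ψ = 0 := by
        rw [sub_mul, h1, sub_self]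
      rcases mul_eq_zero.1 h2 with h3 | h3
      · exfalso
        apply hcon j
        rw [sub_eq_zero] at h3
        exact_mod_cast h3.symm
      · rw [ip_eq] at h3
        exact h3
    have h1 := b.sum_sq_norm_inner_right (WithLp.toLp 2 Ψ : EuclideanSpace ℂ n)
    simp only [h0, norm_zero] at h1
    have h2 : ‖(WithLp.toLp 2 Ψ : EuclideanSpace ℂ n)‖ = 1 := hΨn
    rw [h2] at h1
    simp at h1

open scoped Matrix.Norms.L2Operator in
lemma norm_G [Nonempty n] (A : Matrix n n ℂ) (hA : A.IsHermitian) (κ E : ℝ) (hκ : 0 ≤ κ)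
    (hl : ∀ j, 0 ≤ 1 - κ * hA.eigenvalues j) (hE : ∀ j, E ≤ hA.eigenvalues j) :
    ‖(1 : Matrix n n ℂ) - (κ : ℂ) • A‖ ≤ 1 - κ * E := by
  obtain ⟨U, hU, hU', hdec⟩ := spec_dec A hA
  have hUn := norm_unit U hU
  have h0 : 0 ≤ 1 - κ * E := by
    obtain ⟨j⟩ := (inferInstance : Nonempty n)
    have := mul_le_mul_of_nonneg_left (hE j) hκ
    linarith [hl j]
  have h2 : ‖(Matrix.diagonal (fun j => ((1 - κ * hA.eigenvalues j : ℝ) : ℂ)) : Matrix n n ℂ)‖ ≤
      1 - κ * E := by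
    rw [Matrix.l2_opNorm_diagonal, pi_norm_le_iff_of_nonneg h0]
    intro j
    rw [Complex.norm_real, Real.norm_eq_abs, abs_of_nonneg (hl j)]
    have := mul_le_mul_of_nonneg_left (hE j) hκ
    linarith
  rw [hdec κ]
  calc _ ≤ ‖U‖ * ‖(Matrix.diagonal (fun j => ((1 - κ * hA.eigenvalues j : ℝ) : ℂ)) :
        Matrix n n ℂ)‖ * ‖Uᴴ‖ :=
        (norm_mul_le _ _).trans (mul_le_mul_of_nonneg_right (norm_mul_le _ _) (norm_nonneg _))
    _ ≤ 1 * (1 - κ * E) * 1 := by
        rw [Matrix.l2_opNorm_conjTranspose]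
        exact mul_le_mul (mul_le_mul hUn h2 (norm_nonneg _) zero_le_one) hUn (norm_nonneg _)
          (by rw [one_mul]; exact h0)
    _ = _ := by ring

/-- comparison of the traces with the partition function -/
lemma trace_le (lam : n → ℝ) (E κ β : ℝ) (M : ℕ) (hκ : 0 ≤ κ) (hβ : κ * M = β)
    (hE : ∀ j, E ≤ lam j) (hl : ∀ j, 0 ≤ 1 - κ * lam j) (hg : 0 < 1 - κ * E)
    (hg2 : 1 - κ * E ≤ 2) :
    ∑ j, (1 - κ * lam j) ^ (2 * M) ≤
      (1 - κ * E) ^ (2 * M) * ∑ j, Real.exp (-(β * (lam j - E))) := by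
  rw [Finset.mul_sum]
  refine Finset.sum_le_sum fun j _ => ?_
  have h1 : 1 - κ * lam j ≤ (1 - κ * E) * Real.exp (-(κ * (lam j - E) / 2)) := by
    have h2 := Real.add_one_le_exp (-(κ * (lam j - E) / 2))
    have h3 : 0 ≤ κ * (lam j - E) := mul_nonneg hκ (by linarith [hE j])
    have h4 := mul_le_mul_of_nonneg_left h2 hg.le
    nlinarith only [h3, h4, hg2]
  calc (1 - κ * lam j) ^ (2 * M) ≤ ((1 - κ * E) * Real.exp (-(κ * (lam j - E) / 2))) ^ (2 * M) :=
        pow_le_pow_left₀ (hl j) h1 _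
    _ = _ := by
        rw [mul_pow, ← Real.exp_nat_mul, ← hβ]
        congr 2
        push_cast
        ring

end general

lemma aux324 (q Z : ℝ) (hZ : 0 < Z) : 1 / (324 * Z) * (81 * (q * Z)) = q / 4 := by
  field_simp
  ring

section core

variable {d R' L : ℕ} [NeZero L]

/-- a basis vector is a PEPS of bond dimension one -/
lemma basis_contract (t : Site L → Fin d) :
    contract (K := Fin 1) (fun x i _ _ _ _ => if i = t x then (1 : ℂ) else 0) = Pi.single t 1 := by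
  funext s
  unfold contract
  rw [Finset.sum_const, Finset.sum_const, Finset.card_univ]
  simp only [Fintype.card_fun, Fintype.card_fin, one_pow, one_smul]
  rw [Pi.single_apply]
  split_ifs with h
  · apply Finset.prod_eq_one
    intro x _
    rw [if_pos (by rw [h])]
  · obtain ⟨x, hx⟩ := Function.ne_iff.1 h
    apply Finset.prod_eq_zero (mem_univ x)
    rw [if_neg hx]

open scoped Matrix.Norms.L2Operator in
/-- A PEPS whose overlap with the ground state is controlled by the partition function. -/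
lemma therm_core (h : BoxOp d (R' + 1)) (hh : h.IsHermitian) (Δ : ℝ) (hΔ : 0 < Δ)
    (Ψ : (Site L → Fin d) → ℂ) (hΨ : normSq Ψ = 1) (hgr : IsGappedGround (ham h L) Δ Ψ)
    (hH : (ham h L).IsHermitian) (β : ℝ) (hβ : 0 ≤ β) (M r : ℕ) (hM1 : 1 ≤ M)
    (hNy : ((L ^ 2 : ℕ) : ℝ) * (β / M * nJ h) ≤ 1 / 4)
    (hMN : (M : ℝ) * (((L ^ 2 : ℕ) : ℝ) * (β / M * nJ h)) ^ 2 ≤ 1 / 16)
    (hr : ((L ^ 2 : ℕ) : ℝ) * Real.exp (15 * (β * nJ h) - r) ≤ 1 / 24) :
    ∃ φ : (Site L → Fin d) → ℂ,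
      IsPEPS (Fintype.card (Fin 1 × (Fin (R' + 1) × Fin (R' + 1) → Lab d (R' + 1) M r))) φ ∧
      normSq φ = 1 ∧ 1 / (18 * Real.sqrt (∑ j, Real.exp (-(β * (hH.eigenvalues j -
        (ip Ψ (ham h L *ᵥ Ψ)).re))))) ≤ ‖ip Ψ φ‖ := by
  have hne := nonempty_of_normSq Ψ hΨ
  have hJ0 := nJ_nonneg h
  have hM0 : (0 : ℝ) < M := by exact_mod_cast hM1
  obtain ⟨e⟩ : Nonempty (Fin (L ^ 2) ≃ Site L) := by
    rw [← Fintype.card_eq, Fintype.card_fin, card_site]
  obtain ⟨E, hE, hsimple, hgap⟩ := hgr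
  have hEE : (ip Ψ (ham h L *ᵥ Ψ)).re = E := by
    rw [hE, ip_smul_right, ip_self_one Ψ hΨ, mul_one, Complex.ofReal_re]
  rw [hEE]
  obtain ⟨f1, f2, f3, j0, f4⟩ := eig_facts (ham h L) hH Δ hΔ Ψ hΨ E hE hgap
  have hκ : 0 ≤ β / M := by positivity
  have hκM : β / M * M = β := by field_simp
  generalize hκd : β / M = κ at hκ hκM hNy hMN
  generalize hyd : κ * nJ h = y0 at hNy hMN
  have hy00 : 0 ≤ y0 := by rw [← hyd]; positivity
  have hMy : (M : ℝ) * y0 = β * nJ h := by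
    rw [← hyd, ← hκM]; ring
  have hAn : κ * ‖ham h L‖ ≤ 1 / 4 := by
    refine le_trans ?_ hNy
    have h1 : ‖ham h L‖ ≤ (L : ℝ) ^ 2 * nJ h := norm_ham h
    calc κ * ‖ham h L‖ ≤ κ * ((L : ℝ) ^ 2 * nJ h) := mul_le_mul_of_nonneg_left h1 hκ
      _ = ((L ^ 2 : ℕ) : ℝ) * y0 := by rw [← hyd]; push_cast; ring
  have hk1 : ∀ x : ℝ, |x| ≤ ‖ham h L‖ → κ * x ≤ 1 / 4 ∧ -(1 / 4) ≤ κ * x := by
    intro x hx
    have h1 : |κ * x| ≤ 1 / 4 := by
      rw [abs_mul, abs_of_nonneg hκ]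
      exact (mul_le_mul_of_nonneg_left hx hκ).trans hAn
    rw [abs_le] at h1
    exact ⟨h1.2, h1.1⟩
  have hl : ∀ j, 3 / 4 ≤ 1 - κ * hH.eigenvalues j := fun j => by linarith [(hk1 _ (f1 j)).1]
  have hg34 : 3 / 4 ≤ 1 - κ * E := by linarith [(hk1 E f2).1]
  have hg2 : 1 - κ * E ≤ 2 := by linarith [(hk1 E f2).2]
  have hGn := norm_G (ham h L) hH κ E hκ (fun j => by linarith [hl j]) f3
  set y : Fin (L ^ 2) → TorOp d L := fun b => ((-κ : ℝ) : ℂ) • term h (e b) with hy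
  have hyn : ∀ b, ‖y b‖ ≤ y0 := by
    intro b
    rw [hy]
    simp only []
    rw [norm_smul, Complex.norm_real, Real.norm_eq_abs, abs_neg, abs_of_nonneg hκ, ← hyd]
    exact mul_le_mul_of_nonneg_left (norm_term h (e b)) hκ
  have hG : 1 + ∑ b, y b = 1 - (κ : ℂ) • ham h L := by
    rw [hy]
    simp only []
    rw [← Finset.smul_sum]
    have : ∑ b, term h (e b) = ham h L := by
      unfold ham
      exact e.sum_comp (fun u => term h u)
    rw [this]
    push_cast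
    rw [neg_smul, sub_eq_add_neg]
  have h2M : 2 * (M : ℝ) * (((L ^ 2 : ℕ) : ℝ) * y0) ^ 2 ≤ 1 := by
    have : 2 * (M : ℝ) * (((L ^ 2 : ℕ) : ℝ) * y0) ^ 2 =
      2 * (M * (((L ^ 2 : ℕ) : ℝ) * y0) ^ 2) := by ring
    rw [this]; linarith
  have hB0 : 0 ≤ β * nJ h := by positivity
  have hr13 : ((L ^ 2 : ℕ) : ℝ) * Real.exp (13 * (M * y0) - r) ≤ 1 / 24 := by
    refine le_trans (mul_le_mul_of_nonneg_left (Real.exp_le_exp.2 ?_) (Nat.cast_nonneg _)) hr
    rw [hMy]
    linarith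
  have htr := trunc_bound (M := M) y y0 (1 - κ * E) hy00 hyn (by rw [hG]; exact hGn) (by linarith)
    hNy r h2M (by linarith)
  rw [hG] at htr
  have hgM : 0 < (1 - κ * E) ^ M := by
    have : 0 < 1 - κ * E := by linarith
    positivity
  have htr2 : ‖KT M y r - ((1 : TorOp d L) - (κ : ℂ) • ham h L) ^ M‖ ≤ (1 - κ * E) ^ M / 2 := by
    refine htr.trans ?_
    rw [div_eq_mul_inv]
    exact mul_le_mul_of_nonneg_left (by linarith) hgM.le
  have hov := over_KT (ham h L) hH κ E (1 - κ * E) Ψ hΨ hE rfl (by linarith) M (KT M y r) htr2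
  have hfr := frob_KT (ham h L) hH κ hl hM1 y hG y0 hy00 hyn hNy r h2M
    (by rw [hMy]; linarith)
  have htrace := trace_le hH.eigenvalues E κ β M hκ hκM f3 (fun j => by linarith [hl j])
    (by linarith) hg2
  set Z : ℝ := ∑ j, Real.exp (-(β * (hH.eigenvalues j - E))) with hZ
  have hZ0 : 0 < Z := by
    rw [hZ]
    exact Finset.sum_pos (fun j _ => Real.exp_pos _) ⟨j0, mem_univ _⟩
  have hg2M : 0 < (1 - κ * E) ^ (2 * M) := by
    have : 0 < 1 - κ * E := by linarith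
    positivity
  have hsum : ∑ t, normSq (fun s => KT M y r s t) = fr2 (KT M y r) := by
    unfold normSq fr2
    rw [Finset.sum_comm]
  obtain ⟨t, ht0, ht⟩ := avg (fun t => ‖ip Ψ (fun s => KT M y r s t)‖ ^ 2)
    (fun t => normSq (fun s => KT M y r s t)) (1 / (324 * Z)) ((1 - κ * E) ^ (2 * M) / 4)
    (fun t => Finset.sum_nonneg fun _ _ => by positivity)
    (fun t h0 => by
      have h1 : nr (fun s => KT M y r s t) = 0 := by
        have := nr_sq (fun s => KT M y r s t)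
        rw [h0] at this
        exact pow_eq_zero_iff (two_ne_zero) |>.1 this
      have h2 := ip_le Ψ (fun s => KT M y r s t)
      rw [h1, mul_zero] at h2
      have h3 : ‖ip Ψ (fun s => KT M y r s t)‖ = 0 := le_antisymm h2 (norm_nonneg _)
      simp only [h3]
      norm_num)
    (div_pos hg2M (by norm_num)) hov
    (by
      rw [hsum]
      have h1 : fr2 (KT M y r) ≤ 81 * ((1 - κ * E) ^ (2 * M) * Z) :=
        hfr.trans (mul_le_mul_of_nonneg_left htrace (by norm_num))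
      calc 1 / (324 * Z) * fr2 (KT M y r) ≤ 1 / (324 * Z) * (81 * ((1 - κ * E) ^ (2 * M) * Z)) :=
            mul_le_mul_of_nonneg_left h1
              (div_nonneg zero_le_one (mul_nonneg (by norm_num) hZ0.le))
        _ = (1 - κ * E) ^ (2 * M) / 4 := aux324 _ _ hZ0)
  obtain ⟨A, hA⟩ := peps_apply (K := Fin 1) (fun x i _ _ _ _ => if i = t x then (1 : ℂ) else 0)
    ((-κ : ℝ) : ℂ) h e M r
  rw [basis_contract] at hA
  have hcol : (KT M y r) *ᵥ Pi.single t 1 = fun s => KT M y r s t := by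
    funext s
    rw [Matrix.mulVec_single_one]
    rfl
  have hx : (fun s => KT M y r s t) = contract A := by
    rw [← hcol]
    exact hA
  rw [hx] at ht0 ht
  have hpeps : IsPEPS (Fintype.card (Fin 1 × (Fin (R' + 1) × Fin (R' + 1) →
      Lab d (R' + 1) M r))) (contract A) := isPEPS_contract A
  have hnr : 0 < nr (contract A) := by
    rcases (nr_nonneg (contract A)).lt_or_eq with h5 | h5
    · exact h5
    · exfalso
      have := nr_sq (contract A)
      rw [← h5] at this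
      rw [← this] at ht0
      simp at ht0
  have hnn : ‖((nr (contract A))⁻¹ : ℂ)‖ = (nr (contract A))⁻¹ := by
    rw [norm_inv, Complex.norm_real, Real.norm_eq_abs, abs_of_pos hnr]
  refine ⟨((nr (contract A))⁻¹ : ℂ) • contract A, hpeps.smul _, ?_, ?_⟩
  · rw [← nr_sq, nr_smul, hnn, inv_mul_cancel₀ hnr.ne', one_pow]
  · rw [ip_smul_right, norm_mul, hnn, inv_mul_eq_div, le_div_iff₀ hnr]
    apply le_of_sq_le_sq _ (norm_nonneg _)
    refine le_trans (le_of_eq ?_) ht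
    rw [mul_pow, nr_sq, div_pow, mul_pow, Real.sq_sqrt hZ0.le]
    norm_num

end core

end Pool.Agent.TH235.PP
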