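import Pool.Agent.TH235.PP.Therm

set_option autoImplicit false
set_option linter.unusedSectionVars false

open scoped BigOperators Matrix InnerProductSpace
open Finset

namespace Pool.Agent.TH235.PP

/-- bounds for the exponents -/
lemma therm_par (β lam W T J B s : ℝ) (P : ℕ) (hβ : 0 ≤ β) (hlam : 1 / 2 ≤ lam) (hW : 0 ≤ W)
    (hT : 0 ≤ T) (hJ : 0 ≤ J) (hB : B = β * J) (hs : s = β + lam + W + T) :
    0 ≤ 3 + 4 * lam + 2 * B + P ∧ 3 + 4 * lam + 2 * B + P ≤ (10 + 2 * J + 2 * P) * s ∧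
      0 ≤ 15 * B + 2 * lam + 5 ∧ 15 * B + 2 * lam + 5 ≤ (15 * J + 12) * s ∧ 1 / 2 ≤ s := by
  have hP0 : (0 : ℝ) ≤ P := Nat.cast_nonneg _
  have hs2 : 1 / 2 ≤ s := by rw [hs]; linarith
  have hB0 : 0 ≤ B := by rw [hB]; positivity
  have hBs : B ≤ J * s := by
    rw [hB, mul_comm]
    exact mul_le_mul_of_nonneg_left (by rw [hs]; linarith) hJ
  have h1 : (P : ℝ) * (1 / 2) ≤ P * s := mul_le_mul_of_nonneg_left hs2 hP0
  have hls : lam ≤ s := by rw [hs]; linarith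
  refine ⟨by linarith, ?_, by linarith, ?_, hs2⟩
  · have e : (10 + 2 * J + 2 * P) * s = 10 * s + 2 * (J * s) + 2 * (P * s) := by ring
    rw [e]; linarith
  · have e : (15 * J + 12) * s = 15 * (J * s) + 12 * s := by ring
    rw [e]; linarith

lemma log_eta (Z ε : ℝ) (hZ : 1 ≤ Z) (hε : 0 < ε) :
    Real.log (1 / (1 / (18 * Real.sqrt Z) * ε)) =
      Real.log 18 + Real.log Z / 2 + Real.log (1 / ε) := by
  have hs : 0 < Real.sqrt Z := Real.sqrt_pos.2 (by linarith)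
  have e : 1 / (1 / (18 * Real.sqrt Z) * ε) = 18 * Real.sqrt Z * (1 / ε) := by
    field_simp
  rw [e, Real.log_mul (by positivity) (by positivity), Real.log_mul (by norm_num) hs.ne',
    Real.log_sqrt (by linarith)]

lemma log_18 : Real.log 18 ≤ 4 := by
  have h1 : (24 : ℝ) ≤ Real.exp 4 := by
    have h2 := exp_four
    rw [Real.exp_neg] at h2
    have h3 := Real.exp_pos 4
    rw [inv_le_comm₀ h3 (by norm_num)] at h2
    norm_num at h2
    exact h2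
  have : Real.log 18 ≤ Real.log (Real.exp 4) := Real.log_le_log (by norm_num) (by linarith)
  rwa [Real.log_exp] at this

/-- Bond dimension of the ground state in terms of the partition function. -/
theorem therm (d R' : ℕ) (h : BoxOp d (R' + 1)) (hh : h.IsHermitian) (Δ : ℝ) (hΔ : 0 < Δ) :
    ∃ C : ℝ, 0 < C ∧ ∀ (L : ℕ) [NeZero L], 2 ≤ L → ∀ Ψ : (Site L → Fin d) → ℂ, normSq Ψ = 1 →
      IsGappedGround (ham h L) Δ Ψ → ∀ (hH : (ham h L).IsHermitian) (β ε : ℝ), 0 ≤ β → 0 < ε →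
      ε ≤ 1 → ∃ (D : ℕ) (ψ : (Site L → Fin d) → ℂ),
        (D : ℝ) ≤ Real.exp (C * (β + Real.log L + Real.log (∑ j, Real.exp (-(β *
          (hH.eigenvalues j - (ip Ψ (ham h L *ᵥ Ψ)).re)))) + Real.log (1 / ε)) ^ 2) ∧
        IsPEPS D ψ ∧ nr (ψ - Ψ) ≤ ε := by
  obtain ⟨C0, hC0, hq⟩ := quant d R' h hh Δ hΔ
  have hJ0 : 0 ≤ nJ h := nJ_nonneg h
  refine ⟨(10 + 2 * nJ h + 2 * (Fintype.card (Lm d (R' + 1)) : ℕ)) * (15 * nJ h + 12) *
    ((R' + 1 : ℕ) : ℝ) ^ 2 + 81 * C0, by positivity, ?_⟩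
  intro L _ hL Ψ hΨ hgr hH β ε hβ hε hε1
  have hL2 : (2 : ℝ) ≤ L := by exact_mod_cast hL
  have hlam0 : 1 / 2 ≤ Real.log L := by
    have h1 : Real.log 2 ≤ Real.log L := Real.log_le_log (by norm_num) hL2
    have := Real.log_two_gt_d9
    linarith
  have hNexp : ((L ^ 2 : ℕ) : ℝ) = Real.exp (2 * Real.log L) := by
    rw [two_mul, Real.exp_add, Real.exp_log (by linarith)]; push_cast; ring
  have hN1 : (1 : ℝ) ≤ ((L ^ 2 : ℕ) : ℝ) := by
    rw [hNexp]; exact Real.one_le_exp (by linarith)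
  have hT0 : 0 ≤ Real.log (1 / ε) := Real.log_nonneg (by rw [le_div_iff₀ hε]; linarith)
  have hB0 : 0 ≤ β * nJ h := by positivity
  obtain ⟨M, hM1, hM2, hM3, hM4⟩ := par_M (β * nJ h) ((L ^ 2 : ℕ) : ℝ) 0 hB0 hN1 le_rfl
  have hM0 : (0 : ℝ) < M := by exact_mod_cast hM1
  have hMexp := par_Mexp (β * nJ h) ((L ^ 2 : ℕ) : ℝ) 0 (Real.log L) M hB0 hNexp hM4
  rw [add_zero] at hMexp
  obtain ⟨r, hr1, hr2⟩ : ∃ r : ℕ, 15 * (β * nJ h) + 2 * Real.log L + 4 ≤ r ∧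
      (r : ℝ) ≤ 15 * (β * nJ h) + 2 * Real.log L + 5 := by
    refine ⟨⌈15 * (β * nJ h) + 2 * Real.log L + 4⌉₊, Nat.le_ceil _, ?_⟩
    have h1 := (Nat.ceil_lt_add_one
      (show (0 : ℝ) ≤ 15 * (β * nJ h) + 2 * Real.log L + 4 by linarith)).le
    linarith
  have hNy : ((L ^ 2 : ℕ) : ℝ) * (β / M * nJ h) ≤ 1 / 4 := by
    have : ((L ^ 2 : ℕ) : ℝ) * (β / M * nJ h) = ((L ^ 2 : ℕ) : ℝ) * (β * nJ h) / M := by ring
    rw [this]; exact hM2
  have hMN : (M : ℝ) * (((L ^ 2 : ℕ) : ℝ) * (β / M * nJ h)) ^ 2 ≤ 1 / 16 := by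
    have : (M : ℝ) * (((L ^ 2 : ℕ) : ℝ) * (β / M * nJ h)) ^ 2 =
        (((L ^ 2 : ℕ) : ℝ) * (β * nJ h)) ^ 2 / M := by field_simp
    rw [this]
    refine hM3.trans (le_of_eq ?_)
    rw [neg_zero, Real.exp_zero]
  have hrr : ((L ^ 2 : ℕ) : ℝ) * Real.exp (15 * (β * nJ h) - r) ≤ 1 / 24 := by
    refine le_trans ?_ exp_four
    rw [hNexp, ← Real.exp_add]
    apply Real.exp_le_exp.2
    linarith
  have hZ1 : 1 ≤ ∑ j, Real.exp (-(β * (hH.eigenvalues j - (ip Ψ (ham h L *ᵥ Ψ)).re))) := by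
    obtain ⟨E, hE, hsimple, hgap⟩ := hgr
    have hEE : (ip Ψ (ham h L *ᵥ Ψ)).re = E := by
      rw [hE, ip_smul_right, ip_self_one Ψ hΨ, mul_one, Complex.ofReal_re]
    obtain ⟨-, -, -, j0, hj0⟩ := eig_facts (ham h L) hH Δ hΔ Ψ hΨ E hE hgap
    have h1 := Finset.single_le_sum (f := fun j => Real.exp (-(β * (hH.eigenvalues j -
      (ip Ψ (ham h L *ᵥ Ψ)).re)))) (fun j _ => (Real.exp_pos _).le) (mem_univ j0)
    refine le_trans (le_of_eq ?_) h1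
    rw [hj0, hEE]
    simp
  obtain ⟨φ, hφ, hφ1, hov⟩ := therm_core h hh Δ hΔ Ψ hΨ hgr hH β hβ M r hM1 hNy hMN hrr
  generalize (∑ j, Real.exp (-(β * (hH.eigenvalues j - (ip Ψ (ham h L *ᵥ Ψ)).re)))) = Z
    at hZ1 hov ⊢
  have hZs : 0 < Real.sqrt Z := Real.sqrt_pos.2 (by linarith)
  obtain ⟨D, ψ, hD, hψ, herr⟩ := hq L hL Ψ hΨ hgr _ φ hφ hφ1 (1 / (18 * Real.sqrt Z)) ε
    (by positivity) hov hε hε1
  refine ⟨D, ψ, hD.trans ?_, hψ, herr⟩
  rw [log_eta Z ε hZ1 hε]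
  have hW0 : 0 ≤ Real.log Z := Real.log_nonneg hZ1
  have h18 := log_18
  have h180 : 0 ≤ Real.log 18 := Real.log_nonneg (by norm_num)
  generalize Real.log Z = W at hW0 ⊢
  generalize Real.log (1 / ε) = T at hT0 ⊢
  generalize Real.log 18 = v at h18 h180 ⊢
  generalize Real.log L = lam at hlam0 hNexp hMexp hr1 hr2 ⊢
  obtain ⟨q1, q2, q3, q4, q5⟩ := therm_par β lam W T (nJ h) (β * nJ h) (β + lam + W + T)
    (Fintype.card (Lm d (R' + 1))) hβ hlam0 hW0 hT0 hJ0 rfl rfl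
  have hMP : ((M * Fintype.card (Lm d (R' + 1)) + 1 : ℕ) : ℝ) ≤
      Real.exp (3 + 4 * lam + 2 * (β * nJ h) + (Fintype.card (Lm d (R' + 1)) : ℕ)) := by
    push_cast
    generalize ((Fintype.card (Lm d (R' + 1)) : ℕ) : ℝ) = P
    have hM1' : (1 : ℝ) ≤ M := by exact_mod_cast hM1
    have h2 : P + 1 ≤ Real.exp P := Real.add_one_le_exp _
    calc (M : ℝ) * P + 1 ≤ M * (P + 1) := by linarith [show (M : ℝ) * (P + 1) = M * P + M by ring]
      _ ≤ M * Real.exp P := mul_le_mul_of_nonneg_left h2 hM0.le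
      _ ≤ Real.exp (3 + 4 * lam + 2 * (β * nJ h)) * Real.exp P :=
          mul_le_mul_of_nonneg_right hMexp (Real.exp_pos _).le
      _ = Real.exp (3 + 4 * lam + 2 * (β * nJ h) + P) := (Real.exp_add _ _).symm
  have hcard := card_bd (d := d) (R' := R') 1 M r
    (3 + 4 * lam + 2 * (β * nJ h) + (Fintype.card (Lm d (R' + 1)) : ℕ))
    (15 * (β * nJ h) + 2 * lam + 5) q1 hMP hr2
  rw [Nat.cast_one, one_mul] at hcard
  generalize ((Fintype.card (Lm d (R' + 1)) : ℕ) : ℝ) = P at *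
  generalize hs : β + lam + W + T = s at *
  have hs0 : 0 ≤ s := by linarith
  refine (mul_le_mul hcard (Real.exp_le_exp.2 (mul_le_mul_of_nonneg_left
    (pow_le_pow_left₀ (by linarith) (show lam + (v + W / 2 + T) ≤ 9 * s by linarith) 2) hC0.le))
    (Real.exp_pos _).le (Real.exp_pos _).le).trans ?_
  rw [← Real.exp_add]
  apply Real.exp_le_exp.2
  have h5 : (3 + 4 * lam + 2 * (β * nJ h) + P) * (15 * (β * nJ h) + 2 * lam + 5) ≤
      ((10 + 2 * nJ h + 2 * P) * s) * ((15 * nJ h + 12) * s) :=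
    mul_le_mul q2 q4 q3 (q1.trans q2)
  have h6 := mul_le_mul_of_nonneg_right h5 (by positivity : (0 : ℝ) ≤ ((R' + 1 : ℕ) : ℝ) ^ 2)
  refine (add_le_add h6 le_rfl).trans (le_of_eq ?_)
  ring

end Pool.Agent.TH235.PP
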