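import Pool.Agent.Results.MP_953b23_mp.OverlapBoosting
import Pool.Agent.TH235.PP.ThermQ

/-!
PEPS approximation of gapped ground states on the torus: the bond dimension is controlled by the
partition function `Z_β = Tr exp (-β (H - E_0))` at any inverse temperature `β`.

Part (A): there is a PEPS within `ε` of the ground state with bond dimension at most
`exp (C (β + log L + log Z_β + log (1/ε))^2)`, with `C` depending only on the local dimension, the
interaction and the gap.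

Part (B): if `β ≤ C (log L)^k` and `Z_β ≤ exp (C (log L)^k)` for some `β` (depending on `L`), the
conclusion of the open problem holds with bond dimension `exp (O((log L)^(2k)))`.

Part (C): the same if the number of eigenvalues up to `E_0 + m` is at most `exp (C (m+1) (log L)^k)`
for all `m`.
-/

set_option autoImplicit false

open scoped BigOperators Matrix
open Finset Pool.Agent.TH235.PP Pool.Agent.Results.MP_953b23_mp.OverlapBoosting

namespace Pool.Agent.Results.MP_953b23_mp.ThermalCriterion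

/-- The partition function `Tr exp (-β (H - E₀))` of a Hermitian matrix `H`: the sum over the
eigenvalues with multiplicity. -/
noncomputable def partition {n : Type*} [Fintype n] [DecidableEq n] {H : Matrix n n ℂ}
    (hH : H.IsHermitian) (E₀ β : ℝ) : ℝ :=
  ∑ j, Real.exp (-(β * (hH.eigenvalues j - E₀)))

/-- The number of eigenvalues of `H` (with multiplicity) which are at most `E`. -/
noncomputable def numStates {n : Type*} [Fintype n] [DecidableEq n] {H : Matrix n n ℂ}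
    (hH : H.IsHermitian) (E : ℝ) : ℕ :=
  (univ.filter fun j => hH.eigenvalues j ≤ E).card

/-- The energy of the unit vector `ψ`; for the ground state the lowest eigenvalue `E₀`. -/
noncomputable def energy {n : Type*} [Fintype n] (H : Matrix n n ℂ) (ψ : n → ℂ) : ℝ :=
  (ip ψ (H *ᵥ ψ)).re

/-- For all large `L` there is an inverse temperature `0 ≤ β ≤ C (log L)^k` at which
`Tr exp (-β (H_L - E₀)) ≤ exp (C (log L)^k)`. -/
def SmallPartition {d R : ℕ} (h : BoxOp d R) (Ψ : ∀ L : ℕ, (Site L → Fin d) → ℂ) (k : ℕ)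
    (C : ℝ) : Prop :=
  ∃ L₀ : ℕ, ∀ (L : ℕ) [NeZero L], L₀ ≤ L → ∀ hH : (ham h L).IsHermitian,
    ∃ β : ℝ, 0 ≤ β ∧ β ≤ C * Real.log L ^ k ∧
      partition hH (energy (ham h L) (Ψ L)) β ≤ Real.exp (C * Real.log L ^ k)

/-- For all large `L` and every natural number `m` the Hamiltonian `H_L` has at most
`exp (C (m + 1) (log L)^k)` eigenvalues (with multiplicity) up to `E₀ + m`. -/
def FewStates {d R : ℕ} (h : BoxOp d R) (Ψ : ∀ L : ℕ, (Site L → Fin d) → ℂ) (k : ℕ)
    (C : ℝ) : Prop :=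
  ∃ L₀ : ℕ, ∀ (L : ℕ) [NeZero L], L₀ ≤ L → ∀ (hH : (ham h L).IsHermitian) (m : ℕ),
    (numStates hH (energy (ham h L) (Ψ L) + m) : ℝ) ≤
      Real.exp (C * (m + 1) * Real.log L ^ k)

/-- geometric series -/
theorem geom_le (s : Finset ℕ) : ∑ m ∈ s, Real.exp (-(m : ℝ)) ≤ 2 := by
  have h1 : ∀ m : ℕ, Real.exp (-(m : ℝ)) = Real.exp (-1) ^ m := by
    intro m
    rw [← Real.exp_nat_mul]
    congr 1
    ring
  simp only [h1]
  have h2 := exp_neg_one_lt
  have h3 := Real.exp_pos (-1)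
  have h4 : Summable fun m : ℕ => Real.exp (-1) ^ m :=
    summable_geometric_of_lt_one h3.le (by linarith)
  have h5 := h4.sum_le_tsum s fun m _ => by positivity
  rw [tsum_geometric_of_lt_one h3.le (by linarith)] at h5
  refine h5.trans ?_
  rw [inv_le_comm₀ (by linarith) (by norm_num)]
  linarith

/-- counting of states bounds the partition function -/
theorem count_to_partition {ι : Type*} [Fintype ι] [DecidableEq ι] (x : ι → ℝ) (hx : ∀ j, 0 ≤ x j)
    (a : ℝ) (hc : ∀ m : ℕ, ((univ.filter fun j => x j ≤ m).card : ℝ) ≤ Real.exp (a * (m + 1)))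
    (ha : 0 ≤ a) : ∑ j, Real.exp (-((a + 1) * x j)) ≤ 2 * Real.exp (2 * a) := by
  have h1 : ∑ j, Real.exp (-((a + 1) * x j)) ≤
      ∑ j, Real.exp (-((a + 1) * (⌊x j⌋₊ : ℕ))) := by
    refine Finset.sum_le_sum fun j _ => Real.exp_le_exp.2 ?_
    have := mul_le_mul_of_nonneg_left (Nat.floor_le (hx j)) (by linarith : 0 ≤ a + 1)
    linarith
  refine h1.trans ?_
  rw [Finset.sum_comp (fun m : ℕ => Real.exp (-((a + 1) * (m : ℝ)))) fun j => ⌊x j⌋₊]
  have h2 : ∀ m : ℕ, ((univ.filter fun j => ⌊x j⌋₊ = m).card) •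
      Real.exp (-((a + 1) * (m : ℝ))) ≤ Real.exp (2 * a) * Real.exp (-(m : ℝ)) := by
    intro m
    rw [nsmul_eq_mul]
    have h3 : ((univ.filter fun j => ⌊x j⌋₊ = m).card : ℝ) ≤ Real.exp (a * (m + 2)) := by
      have h4 : (univ.filter fun j => ⌊x j⌋₊ = m).card ≤
          (univ.filter fun j => x j ≤ ((m + 1 : ℕ) : ℝ)).card := by
        refine Finset.card_le_card fun j hj => ?_
        rw [mem_filter] at hj ⊢
        refine ⟨mem_univ _, ?_⟩
        have := (Nat.lt_floor_add_one (x j)).le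
        rw [hj.2] at this
        push_cast
        exact this
      have h5 := hc (m + 1)
      have h6 : a * (((m + 1 : ℕ) : ℝ) + 1) = a * (m + 2) := by push_cast; ring
      rw [h6] at h5
      exact (by exact_mod_cast h4 : ((univ.filter fun j => ⌊x j⌋₊ = m).card : ℝ) ≤ _).trans h5
    refine (mul_le_mul_of_nonneg_right h3 (Real.exp_pos _).le).trans (le_of_eq ?_)
    rw [← Real.exp_add, ← Real.exp_add]
    congr 1
    ring
  refine (Finset.sum_le_sum fun m _ => h2 m).trans ?_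
  rw [← Finset.mul_sum, mul_comm (2 : ℝ) (Real.exp (2 * a))]
  exact mul_le_mul_of_nonneg_left (geom_le _) (Real.exp_pos _).le

section family

variable {d R : ℕ} {h : BoxOp d R} {Δ : ℝ} {Ψ : ∀ L : ℕ, (Site L → Fin d) → ℂ}

/-- the facts about the spectrum that are used -/
theorem energy_le {L : ℕ} [NeZero L] (hH : (ham h L).IsHermitian) (hΔ : 0 < Δ)
    (hn : normSq (Ψ L) = 1) (hg : IsGappedGround (ham h L) Δ (Ψ L)) :
    (∀ j, energy (ham h L) (Ψ L) ≤ hH.eigenvalues j) ∧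
      ∃ j, hH.eigenvalues j = energy (ham h L) (Ψ L) := by
  obtain ⟨E, hE, hsimple, hgap⟩ := hg
  have hEE : energy (ham h L) (Ψ L) = E := by
    unfold energy
    rw [hE, ip_smul_right, ip_self_one (Ψ L) hn, mul_one, Complex.ofReal_re]
  rw [hEE]
  obtain ⟨-, -, h1, h2⟩ := eig_facts (ham h L) hH Δ hΔ (Ψ L) hn E hE hgap
  exact ⟨h1, h2⟩

/-- small partition functions give PEPS -/
theorem small_to_approx (hF : GappedFamily h Δ Ψ) {k : ℕ} {C : ℝ}
    (hS : SmallPartition h Ψ k C) (m : ℕ) (a : ℝ) (hm : 1 ≤ m) (hkm : k ≤ m) (ha : 0 ≤ a) :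
    ∃ C' : ℝ, Approx Ψ (2 * m) C' fun L => Real.exp (-(a * Real.log L ^ m)) := by
  obtain ⟨R', rfl⟩ : ∃ R', R = R' + 1 := ⟨R - 1, by have := hF.range_pos; omega⟩
  obtain ⟨C0, hC0, hq⟩ := therm d R' h hF.herm Δ hF.gap_pos
  obtain ⟨L₁, hL₁⟩ := hF.ground
  obtain ⟨L₂, hL₂⟩ := hS
  refine ⟨C0 * (2 * |C| + 1 + a) ^ 2, max 3 (max L₁ L₂), ?_⟩
  intro L _ hL
  have hL3 : 3 ≤ L := (le_max_left _ _).trans hL
  obtain ⟨hn, hg⟩ := hL₁ L (((le_max_left _ _).trans (le_max_right _ _)).trans hL)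
  have hH := ham_herm (L := L) h hF.herm
  obtain ⟨β, hβ0, hβ, hZ⟩ := hL₂ L (((le_max_right _ _).trans (le_max_right _ _)).trans hL) hH
  have hl1 := log_ge_one hL3
  have hlm : 0 ≤ Real.log L ^ m := by positivity
  have hexp1 : Real.exp (-(a * Real.log L ^ m)) ≤ 1 := Real.exp_le_one_iff.2 (by
    have : 0 ≤ a * Real.log L ^ m := mul_nonneg ha hlm
    linarith)
  obtain ⟨D, ψ, hD, hψ, herr⟩ := hq L (by omega) (Ψ L) hn hg hH β
    (Real.exp (-(a * Real.log L ^ m))) hβ0 (Real.exp_pos _) hexp1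
  refine ⟨D, ψ, hD.trans (Real.exp_le_exp.2 ?_), hψ, by rw [sqrt_normSq]; exact herr⟩
  obtain ⟨e1, j0, e2⟩ := energy_le hH hF.gap_pos hn hg
  have hZdef : (∑ j, Real.exp (-(β * (hH.eigenvalues j -
      (ip (Ψ L) (ham h L *ᵥ Ψ L)).re)))) = partition hH (energy (ham h L) (Ψ L)) β := rfl
  rw [hZdef]
  have hZ1 : 1 ≤ partition hH (energy (ham h L) (Ψ L)) β := by
    unfold partition
    have h1 := Finset.single_le_sum (f := fun j => Real.exp (-(β * (hH.eigenvalues j -
      energy (ham h L) (Ψ L))))) (fun j _ => (Real.exp_pos _).le) (mem_univ j0)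
    refine le_trans (le_of_eq ?_) h1
    rw [e2]
    simp
  generalize partition hH (energy (ham h L) (Ψ L)) β = Z at hZ hZ1 ⊢
  have hW0 : 0 ≤ Real.log Z := Real.log_nonneg hZ1
  have hW : Real.log Z ≤ C * Real.log L ^ k := by
    have := Real.log_le_log (by linarith) hZ
    rwa [Real.log_exp] at this
  have hlog : Real.log (1 / Real.exp (-(a * Real.log L ^ m))) = a * Real.log L ^ m := by
    rw [one_div, ← Real.exp_neg, Real.log_exp, neg_neg]
  rw [hlog]
  generalize Real.log Z = W at hW0 hW ⊢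
  generalize Real.log L = l at hl1 hlm hβ hW ⊢
  have hk1 : l ^ k ≤ l ^ m := pow_le_pow_right₀ hl1 hkm
  have h11 : l ≤ l ^ m := by
    calc l = l ^ 1 := (pow_one l).symm
      _ ≤ l ^ m := pow_le_pow_right₀ hl1 hm
  have hl0 : 0 ≤ l := by linarith
  have hCk : C * l ^ k ≤ |C| * l ^ m :=
    mul_le_mul (le_abs_self _) hk1 (by positivity) (abs_nonneg _)
  have ham0 : 0 ≤ a * l ^ m := mul_nonneg ha hlm
  have hsum : β + l + W + a * l ^ m ≤ (2 * |C| + 1 + a) * l ^ m := by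
    have e : (2 * |C| + 1 + a) * l ^ m = 2 * (|C| * l ^ m) + l ^ m + a * l ^ m := by ring
    rw [e]; linarith
  have hpos : 0 ≤ β + l + W + a * l ^ m := by linarith
  calc C0 * (β + l + W + a * l ^ m) ^ 2 ≤ C0 * ((2 * |C| + 1 + a) * l ^ m) ^ 2 :=
        mul_le_mul_of_nonneg_left (pow_le_pow_left₀ hpos hsum 2) hC0.le
    _ = C0 * (2 * |C| + 1 + a) ^ 2 * l ^ (2 * m) := by
        rw [mul_pow, ← pow_mul, mul_comm m 2]
        ring

/-- few low-lying states give small partition functions -/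
theorem few_to_small (hF : GappedFamily h Δ Ψ) {k : ℕ} {C : ℝ} (hS : FewStates h Ψ k C) :
    ∃ C', SmallPartition h Ψ k C' := by
  obtain ⟨L₁, hL₁⟩ := hF.ground
  obtain ⟨L₂, hL₂⟩ := hS
  refine ⟨2 * |C| + 1, max 3 (max L₁ L₂), ?_⟩
  intro L _ hL hH
  have hL3 : 3 ≤ L := (le_max_left _ _).trans hL
  obtain ⟨hn, hg⟩ := hL₁ L (((le_max_left _ _).trans (le_max_right _ _)).trans hL)
  have hc := hL₂ L (((le_max_right _ _).trans (le_max_right _ _)).trans hL) hH
  have hl1 := log_ge_one hL3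
  have hlk : 1 ≤ Real.log L ^ k := one_le_pow₀ hl1
  have ha0 : 0 ≤ |C| * Real.log L ^ k := mul_nonneg (abs_nonneg _) (by linarith)
  obtain ⟨e1, -, -⟩ := energy_le hH hF.gap_pos hn hg
  have h1 := count_to_partition (fun j => hH.eigenvalues j - energy (ham h L) (Ψ L))
    (fun j => by have := e1 j; linarith) (|C| * Real.log L ^ k) (fun m => by
      have h2 := hc m
      unfold numStates at h2
      have h3 : (univ.filter fun j => hH.eigenvalues j - energy (ham h L) (Ψ L) ≤ (m : ℝ)) =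
          univ.filter fun j => hH.eigenvalues j ≤ energy (ham h L) (Ψ L) + m := by
        ext j
        simp only [mem_filter, mem_univ, true_and]
        rw [sub_le_iff_le_add, add_comm]
      rw [h3]
      refine h2.trans (Real.exp_le_exp.2 ?_)
      have h4 : C * Real.log L ^ k ≤ |C| * Real.log L ^ k :=
        mul_le_mul_of_nonneg_right (le_abs_self _) (by linarith)
      have h5 := mul_le_mul_of_nonneg_right h4 (by positivity : (0 : ℝ) ≤ (m : ℝ) + 1)
      calc C * ((m : ℝ) + 1) * Real.log L ^ k = C * Real.log L ^ k * (m + 1) := by ring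
        _ ≤ _ := h5) ha0
  refine ⟨|C| * Real.log L ^ k + 1, by linarith, by nlinarith only [hlk, ha0], ?_⟩
  unfold partition
  refine h1.trans ?_
  have h2 : (2 : ℝ) ≤ Real.exp 1 := by
    have := Real.exp_one_gt_d9
    linarith
  calc 2 * Real.exp (2 * (|C| * Real.log L ^ k)) ≤
        Real.exp 1 * Real.exp (2 * (|C| * Real.log L ^ k)) :=
        mul_le_mul_of_nonneg_right h2 (Real.exp_pos _).le
    _ = Real.exp (1 + 2 * (|C| * Real.log L ^ k)) := (Real.exp_add _ _).symm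
    _ ≤ _ := by
        apply Real.exp_le_exp.2
        nlinarith only [hlk, ha0]

/-- polynomial errors from stretched ones -/
theorem exp_to_rpow' {k m : ℕ} {C c : ℝ} (hm : 1 ≤ m) (hc : 0 < c)
    (hA : Approx Ψ k C fun L => Real.exp (-(c * Real.log L ^ m))) :
    Approx Ψ k C fun L => (L : ℝ) ^ (-c) := by
  obtain ⟨L₀, hL₀⟩ := hA
  refine ⟨max 3 L₀, ?_⟩
  intro L _ hL
  have hL3 : 3 ≤ L := (le_max_left _ _).trans hL
  obtain ⟨D, ψ, h1, h2, h3⟩ := hL₀ L ((le_max_right _ _).trans hL)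
  refine ⟨D, ψ, h1, h2, h3.trans ?_⟩
  have hl1 := log_ge_one hL3
  have hL0 : (0 : ℝ) < L := by
    have : 1 ≤ L := by omega
    exact_mod_cast this
  beta_reduce
  rw [Real.rpow_def_of_pos hL0]
  apply Real.exp_le_exp.2
  have h11 : Real.log L ≤ Real.log L ^ m := by
    calc Real.log L = Real.log L ^ 1 := (pow_one _).symm
      _ ≤ Real.log L ^ m := pow_le_pow_right₀ hl1 hm
  have := mul_le_mul_of_nonneg_left h11 hc.le
  linarith

end family

/-- (A) Bond dimension of the ground state from the partition function at any inverse temperature.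
(B) A partition function of quasi-polynomial size at a polylogarithmic inverse temperature suffices
for the conclusion of the open problem. (C) So does a quasi-polynomial bound for the number of
states up to each energy. -/
theorem crit :
    (∀ (d R : ℕ) (h : BoxOp d (R + 1)), h.IsHermitian → ∀ Δ : ℝ, 0 < Δ →
      ∃ C : ℝ, 0 < C ∧ ∀ (L : ℕ) [NeZero L], 2 ≤ L → ∀ Ψ : (Site L → Fin d) → ℂ, normSq Ψ = 1 →
        IsGappedGround (ham h L) Δ Ψ → ∀ (hH : (ham h L).IsHermitian) (β ε : ℝ), 0 ≤ β → 0 < ε →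
        ε ≤ 1 → ∃ (D : ℕ) (ψ : (Site L → Fin d) → ℂ),
          (D : ℝ) ≤ Real.exp (C * (β + Real.log L +
            Real.log (partition hH (energy (ham h L) Ψ) β) + Real.log (1 / ε)) ^ 2) ∧
            IsPEPS D ψ ∧ Real.sqrt (normSq (ψ - Ψ)) ≤ ε) ∧
    (∀ (d R : ℕ) (h : BoxOp d R) (Δ : ℝ) (Ψ : ∀ L : ℕ, (Site L → Fin d) → ℂ),
      GappedFamily h Δ Ψ → ∀ (k : ℕ) (C : ℝ), 1 ≤ k → SmallPartition h Ψ k C →
        (∀ c : ℝ, 0 < c → ∃ C' : ℝ, Approx Ψ (2 * k) C' fun L => (L : ℝ) ^ (-c)) ∧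
        ∀ m : ℕ, k ≤ m → ∃ C' : ℝ, Approx Ψ (2 * m) C' fun L => Real.exp (-(Real.log L ^ m))) ∧
    (∀ (d R : ℕ) (h : BoxOp d R) (Δ : ℝ) (Ψ : ∀ L : ℕ, (Site L → Fin d) → ℂ),
      GappedFamily h Δ Ψ → ∀ (k : ℕ) (C : ℝ), 1 ≤ k → FewStates h Ψ k C →
        (∀ c : ℝ, 0 < c → ∃ C' : ℝ, Approx Ψ (2 * k) C' fun L => (L : ℝ) ^ (-c)) ∧
        ∀ m : ℕ, k ≤ m → ∃ C' : ℝ, Approx Ψ (2 * m) C' fun L => Real.exp (-(Real.log L ^ m))) := by
  have hB : ∀ (d R : ℕ) (h : BoxOp d R) (Δ : ℝ) (Ψ : ∀ L : ℕ, (Site L → Fin d) → ℂ),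
      GappedFamily h Δ Ψ → ∀ (k : ℕ) (C : ℝ), 1 ≤ k → SmallPartition h Ψ k C →
        (∀ c : ℝ, 0 < c → ∃ C' : ℝ, Approx Ψ (2 * k) C' fun L => (L : ℝ) ^ (-c)) ∧
        ∀ m : ℕ, k ≤ m → ∃ C' : ℝ, Approx Ψ (2 * m) C' fun L =>
          Real.exp (-(Real.log L ^ m)) := by
    intro d R h Δ Ψ hF k C hk hS
    refine ⟨fun c hc => ?_, fun m hm => ?_⟩
    · obtain ⟨C', hC'⟩ := small_to_approx hF hS k c hk le_rfl hc.le
      exact ⟨C', exp_to_rpow' hk hc hC'⟩
    · obtain ⟨C', hC'⟩ := small_to_approx hF hS m 1 (hk.trans hm) hm zero_le_one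
      simp only [one_mul] at hC'
      exact ⟨C', hC'⟩
  refine ⟨?_, hB, ?_⟩
  · intro d R h hh Δ hΔ
    obtain ⟨C, hC, hq⟩ := therm d R h hh Δ hΔ
    refine ⟨C, hC, ?_⟩
    intro L _ hL Ψ hΨ hg hH β ε hβ hε hε1
    obtain ⟨D, ψ, h1, h2, h3⟩ := hq L hL Ψ hΨ hg hH β ε hβ hε hε1
    exact ⟨D, ψ, h1, h2, by rw [sqrt_normSq]; exact h3⟩
  · intro d R h Δ Ψ hF k C hk hS
    obtain ⟨C', hC'⟩ := few_to_small hF hS
    exact hB d R h Δ Ψ hF k C' hk hC'

end Pool.Agent.Results.MP_953b23_mp.ThermalCriterion
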